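import Pool.Agent.DAE.S.Lim

/-!
# Block S, packages b4, b5: exponents are constant on chambers

SETTING. `T ⊂ L` finite, `0 ∉ T`, `Λ` contains the exponents of the elements of `T`, `l q ∈ Λ`.

PROOF of `rlz_const`. `w, w' ∈ Ω = openCh (ordRel Λ w₀)`, convex; all points of `Ω` are generic
(`Gnc.of_mem`). Put `w_t = w + t • (w' - w)` and `p(t) : Rlz g T l w_t` for `t ∈ [0,1]`. We show that `p` is
locally constant on `[0,1]` (a preconnected space), so constant. Suppose not: there is `t₀ ∈ [0,1]` and an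
ultrafilter `𝒰` on `[0,1]` with `𝒰 ≤ 𝓝 t₀` and `p(t) ≠ p(t₀)` for `𝒰`-almost all `t`.
Case 1: `p(t₀)` true, `v` over `w_{t₀}`. By `exists_lift` there are `u_t` over `w_t` with
`log (u_t q) → log (v q) = lin (l q) w_{t₀}` for `q ∈ T`. By `ExpSet`, `log (u_t q) = lin (l' q) w_t` with
`l' q ∈ Λ`, and `l' q` is `𝒰`-almost surely constant (`Λ` finite), so
`lin (l' q) w_{t₀} = lin (l q) w_{t₀}`, hence `l' q = l q` (`w_{t₀}` generic), and `p(t)` holds for almost
all `t`. Contradiction.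
Case 2: `p(t)` for almost all `t`, with `u_t`. By `rlz_lim` `p(t₀)`. Contradiction.

PROOF of `rlz_lim`. Choose `u i` over `ws i` with exponents `l` for almost all `i` and arbitrary in `X` for
the others (`exists_over`). `exists_lim` gives `v` over `w` with `log (v q) = lim lin (l q) (ws i) =
lin (l q) w`.

PROOF of `rlz_closure`. `w ∈ closedCh E`, `E = ordRel Λ w₀`. For `t ∈ (0,1]`
`w + t (w₀ - w) ∈ openCh E` (`segment_mem_openCh`), so `l` is realised there by `rlz_const`; `rlz_lim` with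
an ultrafilter `≤ 𝓝[>] 0`.
-/

set_option autoImplicit false

namespace Pool.Agent.DAE

open MvPolynomial Filter Topology

variable {F L : Type*} [Field F] [Field L] [Algebra ℂ F] [Algebra ℂ L] [Algebra F L]
  [IsScalarTower ℂ F L] [FiniteDimensional F L] {d : ℕ} {g : Fin d → F}

theorem rlz_lim (hi : AlgebraicIndependent ℂ g) (hF : Gen g) {T : Finset L} (hT : (0 : L) ∉ T)
    {l : L → Fin d → ℝ} {I : Type*} (𝒰 : Ultrafilter I) {ws : I → Fin d → ℝ}
    {w : Fin d → ℝ} (hws : Tendsto ws 𝒰 (𝓝 w)) (h : ∀ᶠ i in (𝒰 : Filter I), Rlz g T l (ws i)) :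
    Rlz g T l w := by
  classical
  have hex : ∀ i, ∃ v : L → ℝ, Over g (ws i) v ∧
      (Rlz g T l (ws i) → ∀ q ∈ T, Real.log (v q) = lin (l q) (ws i)) := by
    intro i
    by_cases hR : Rlz g T l (ws i)
    · obtain ⟨v, hv, hv2⟩ := hR
      exact ⟨v, hv, fun _ => hv2⟩
    · obtain ⟨v, hv⟩ := exists_over (F := F) (L := L) hi hF (ws i)
      exact ⟨v, hv, fun h => absurd h hR⟩
  choose u hu hu2 using hex
  have hlog : ∀ k, Tendsto (fun i => Real.log (u i (algebraMap F L (g k)))) 𝒰 (𝓝 (w k)) := by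
    intro k
    have e : (fun i => Real.log (u i (algebraMap F L (g k)))) = fun i => ws i k :=
      funext fun i => (hu i).log k
    rw [e]
    exact (tendsto_pi_nhds.1 hws) k
  obtain ⟨v, hv, hlim⟩ := exists_lim hi hF 𝒰 (fun i => (hu i).inX) hlog
  refine ⟨v, hv, fun q hq => ?_⟩
  have hq0 : q ≠ 0 := fun h0 => hT (h0 ▸ hq)
  have h2 : Tendsto (fun i => lin (l q) (ws i)) 𝒰 (𝓝 (lin (l q) w)) :=
    ((continuous_lin (l q)).tendsto w).comp hws
  have h3 : (fun i => lin (l q) (ws i)) =ᶠ[(𝒰 : Filter I)] fun i => Real.log (u i q) :=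
    h.mono fun i hi' => (hu2 i hi' q hq).symm
  exact tendsto_nhds_unique (hlim q hq0) (h2.congr' h3)

/-- the exponents are constant along a segment in the chamber -/
theorem rlz_const [IsGalois F L] (hi : AlgebraicIndependent ℂ g) (hF : Gen g) {T : Finset L}
    (hT : (0 : L) ∉ T) {Λ : Finset (Fin d → ℝ)} (hΛ : ExpSet g T Λ) {l : L → Fin d → ℝ}
    (hl : ∀ q ∈ T, l q ∈ Λ) {w₀ : Fin d → ℝ} (hw₀ : Gnc Λ w₀) {w w' : Fin d → ℝ}
    (hw : w ∈ openCh (ordRel Λ w₀)) (hw' : w' ∈ openCh (ordRel Λ w₀)) (h : Rlz g T l w) :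
    Rlz g T l w' := by
  classical
  set W : Set.Icc (0 : ℝ) 1 → Fin d → ℝ := fun t => (1 - (t : ℝ)) • w + (t : ℝ) • w' with hW
  have hWc : Continuous W := by
    rw [hW]
    fun_prop
  have hWm : ∀ t, W t ∈ openCh (ordRel Λ w₀) := fun t =>
    convex_openCh _ hw hw' (by linarith [t.2.2]) t.2.1 (by ring)
  set S : Set (Set.Icc (0 : ℝ) 1) := {t | Rlz g T l (W t)} with hS
  have hcl : IsClosed S := by
    rw [isClosed_iff_ultrafilter]
    intro t₀ 𝒰 hle hmem
    exact rlz_lim hi hF hT 𝒰 ((hWc.tendsto t₀).mono_left hle) hmem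
  have hop : IsOpen S := by
    rw [isOpen_iff_ultrafilter]
    intro t₀ ht₀ 𝒰 hle
    obtain ⟨v, hv, hv2⟩ := ht₀
    have hWt : Tendsto W 𝒰 (𝓝 (W t₀)) := (hWc.tendsto t₀).mono_left hle
    obtain ⟨u, hu, hlim⟩ := exists_lift hi hF 𝒰 hv hWt
    have hq : ∀ q ∈ T, ∀ᶠ t in (𝒰 : Filter (Set.Icc (0 : ℝ) 1)),
        Real.log (u t q) = lin (l q) (W t) := by
      intro q hqT
      have hq0 : q ≠ 0 := fun h0 => hT (h0 ▸ hqT)
      have h1 : ∀ᶠ t in (𝒰 : Filter (Set.Icc (0 : ℝ) 1)), ∃ l' ∈ (Λ : Set (Fin d → ℝ)),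
          Real.log (u t q) = lin l' (W t) :=
        Filter.Eventually.of_forall fun t => by
          obtain ⟨l', hl', he⟩ := hΛ (W t) (u t) (hu t) q hqT
          exact ⟨l', Finset.mem_coe.2 hl', he⟩
      rw [Ultrafilter.eventually_exists_mem_iff (Finset.finite_toSet Λ)] at h1
      obtain ⟨l', hl', he⟩ := h1
      have h2 : Tendsto (fun t => lin l' (W t)) 𝒰 (𝓝 (lin l' (W t₀))) :=
        ((continuous_lin l').tendsto _).comp hWt
      have h3 : lin l' (W t₀) = lin (l q) (W t₀) := by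
        rw [← hv2 q hqT]
        refine tendsto_nhds_unique h2 ((hlim q hq0).congr' ?_)
        exact he
      have h4 : l' = l q := by
        by_contra hne
        exact (hw₀.of_mem (hWm t₀)) l' (Finset.mem_coe.1 hl') (l q) (hl q hqT) hne h3
      rw [h4] at he
      exact he
    have hall : ∀ᶠ t in (𝒰 : Filter (Set.Icc (0 : ℝ) 1)), ∀ q ∈ T,
        Real.log (u t q) = lin (l q) (W t) := by
      rw [Filter.eventually_all_finset]
      exact hq
    exact hall.mono fun t ht => ⟨u t, hu t, ht⟩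
  have h0 : (⟨0, by simp⟩ : Set.Icc (0 : ℝ) 1) ∈ S := by
    have e : W ⟨0, by simp⟩ = w := by
      rw [hW]
      simp
    change Rlz g T l (W ⟨0, by simp⟩)
    rw [e]
    exact h
  have huniv : S = Set.univ := IsClopen.eq_univ ⟨hcl, hop⟩ ⟨_, h0⟩
  have h1 : (⟨1, by simp⟩ : Set.Icc (0 : ℝ) 1) ∈ S := by
    rw [huniv]
    exact Set.mem_univ _
  have e : W ⟨1, by simp⟩ = w' := by
    rw [hW]
    simp
  have h2 : Rlz g T l (W ⟨1, by simp⟩) := h1
  rwa [e] at h2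

theorem rlz_closure [IsGalois F L] (hi : AlgebraicIndependent ℂ g) (hF : Gen g) {T : Finset L}
    (hT : (0 : L) ∉ T) {Λ : Finset (Fin d → ℝ)} (hΛ : ExpSet g T Λ) {l : L → Fin d → ℝ}
    (hl : ∀ q ∈ T, l q ∈ Λ) {w₀ : Fin d → ℝ} (hw₀ : Gnc Λ w₀) {w : Fin d → ℝ}
    (hw : w ∈ closedCh (ordRel Λ w₀)) (h : Rlz g T l w₀) : Rlz g T l w := by
  have hle : (Ultrafilter.of (𝓝[>] (0 : ℝ)) : Filter ℝ) ≤ 𝓝[>] (0 : ℝ) := Ultrafilter.of_le _
  have ht : Tendsto (fun t : ℝ => w + t • (w₀ - w)) (Ultrafilter.of (𝓝[>] (0 : ℝ))) (𝓝 w) := by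
    have hc : Continuous fun t : ℝ => w + t • (w₀ - w) := by fun_prop
    have h1 := hc.tendsto 0
    simp only [zero_smul, add_zero] at h1
    exact h1.mono_left (hle.trans nhdsWithin_le_nhds)
  refine rlz_lim hi hF hT (Ultrafilter.of (𝓝[>] (0 : ℝ))) ht ?_
  have h2 : ∀ᶠ t in 𝓝[>] (0 : ℝ), Rlz g T l (w + t • (w₀ - w)) := by
    filter_upwards [Ioc_mem_nhdsGT (zero_lt_one' ℝ)] with t ht'
    exact rlz_const hi hF hT hΛ hl hw₀ (mem_openCh_ordRel Λ w₀)
      (segment_mem_openCh hw (mem_openCh_ordRel Λ w₀) ht'.1 ht'.2) h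
  exact hle h2

end Pool.Agent.DAE
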