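import Mathlib

/-!
# Block S, package d1: locally convex functions are convex

PROOF of `convexOn_of_local`. It suffices to treat a segment: for `x, y ∈ s` let
`φ(t) = f (x + t (y - x))` on `[0,1]`, continuous, and every `t` has a neighbourhood on which `φ` is
convex. Suppose `φ(t) > (1-t) φ(0) + t φ(1)` for some `t`; `ψ(t) = φ(t) - (1-t) φ(0) - t φ(1)` is
continuous, locally convex, `ψ(0) = ψ(1) = 0`; let `M > 0` be its maximum on `[0,1]` and `t₁` the
SUPREMUM (largest point, compactness) of `{ψ = M}`, `0 < t₁ < 1`. On a small interval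
`(t₁ - ε, t₁ + ε)` `ψ` is convex, so
`M = ψ(t₁) ≤ (ψ(t₁ - ε/2) + ψ(t₁ + ε/2))/2` with `ψ(t₁ + ε/2) < M`, `ψ(t₁ - ε/2) ≤ M`:
contradiction.

PROOF of `convexOn_of_shrink`. For `x, y ∈ c`, `a + b = 1` and `t ∈ (0,1]` put
`x_t = x + t (p - x)`, `y_t = y + t (p - y)`, both in `s`;
`f (a x_t + b y_t) ≤ a f (x_t) + b f (y_t)`. `t → 0`: all arguments stay in `c` and converge
(`a x_t + b y_t = z + t (p - z)`, `z = a x + b y`), `f` continuous on `c`.
-/

set_option autoImplicit false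

namespace Pool.Agent.DAE

variable {E : Type*} [NormedAddCommGroup E] [NormedSpace ℝ E]

theorem convexOn_of_local {s : Set E} (hs : Convex ℝ s) {f : E → ℝ} (hc : ContinuousOn f s)
    (h : ∀ x ∈ s, ∃ ε > 0, ConvexOn ℝ (Metric.ball x ε) f) : ConvexOn ℝ s f := by
  refine ⟨hs, fun x hx y hy a b ha hb hab => ?_⟩
  rw [smul_eq_mul, smul_eq_mul]
  by_contra hcon
  push Not at hcon
  have hγ : Continuous fun t : ℝ => (1 - t) • x + t • y := by fun_prop
  have hγs : ∀ t ∈ Set.Icc (0 : ℝ) 1, (1 - t) • x + t • y ∈ s := fun t ht =>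
    hs hx hy (by linarith [ht.2]) ht.1 (by ring)
  set ψ : ℝ → ℝ := fun t => f ((1 - t) • x + t • y) - ((1 - t) * f x + t * f y) with hψ
  have hψc : ContinuousOn ψ (Set.Icc 0 1) := by
    refine ContinuousOn.sub (hc.comp hγ.continuousOn hγs) (Continuous.continuousOn ?_)
    fun_prop
  have hbI : b ∈ Set.Icc (0 : ℝ) 1 := ⟨hb, by linarith⟩
  have hψb : 0 < ψ b := by
    have h1 : (1 : ℝ) - b = a := by linarith
    simp only [hψ, h1]
    linarith
  have hψ0 : ψ 0 = 0 := by simp [hψ]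
  have hψ1 : ψ 1 = 0 := by simp [hψ]
  obtain ⟨t₀, ht₀, hmax⟩ := isCompact_Icc.exists_isMaxOn ⟨b, hbI⟩ hψc
  have hM : 0 < ψ t₀ := lt_of_lt_of_le hψb (hmax hbI)
  -- the largest maximum point
  have hTc : IsCompact (Set.Icc (0 : ℝ) 1 ∩ ψ ⁻¹' {ψ t₀}) :=
    isCompact_Icc.of_isClosed_subset
      (hψc.preimage_isClosed_of_isClosed isClosed_Icc isClosed_singleton) Set.inter_subset_left
  obtain ⟨t₁, ht₁, hgr⟩ := hTc.exists_isGreatest ⟨t₀, ht₀, rfl⟩
  have ht₁M : ψ t₁ = ψ t₀ := ht₁.2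
  have ht₁0 : 0 < t₁ := by
    refine lt_of_le_of_ne ht₁.1.1 fun h0 => ?_
    rw [← h0, hψ0] at ht₁M
    exact absurd ht₁M hM.ne
  have ht₁1 : t₁ < 1 := by
    refine lt_of_le_of_ne ht₁.1.2 fun h0 => ?_
    rw [h0, hψ1] at ht₁M
    exact absurd ht₁M hM.ne
  obtain ⟨ε, hε, hconv⟩ := h _ (hγs t₁ ht₁.1)
  -- a small step
  obtain ⟨δ, hδ, h1, h2, h3⟩ : ∃ δ : ℝ, 0 < δ ∧ δ < t₁ ∧ δ < 1 - t₁ ∧ δ * ‖y - x‖ < ε := by
    have hn : 0 < ‖y - x‖ + 1 := by positivity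
    refine ⟨min (min (t₁ / 2) ((1 - t₁) / 2)) (ε / (‖y - x‖ + 1)), ?_, ?_, ?_, ?_⟩
    · refine lt_min (lt_min (by linarith) (by linarith)) (by positivity)
    · exact lt_of_le_of_lt ((min_le_left _ _).trans (min_le_left _ _)) (by linarith)
    · exact lt_of_le_of_lt ((min_le_left _ _).trans (min_le_right _ _)) (by linarith)
    · refine lt_of_le_of_lt (mul_le_mul_of_nonneg_right (min_le_right _ _) (norm_nonneg _)) ?_
      rw [div_mul_eq_mul_div, div_lt_iff₀ hn]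
      nlinarith [norm_nonneg (y - x)]
  have hball : ∀ u : ℝ, |u| = δ →
      (1 - (t₁ + u)) • x + (t₁ + u) • y ∈ Metric.ball ((1 - t₁) • x + t₁ • y) ε := by
    intro u hu
    rw [Metric.mem_ball, dist_eq_norm]
    have e : (1 - (t₁ + u)) • x + (t₁ + u) • y - ((1 - t₁) • x + t₁ • y) = u • (y - x) := by
      module
    rw [e, norm_smul, Real.norm_eq_abs, hu]
    exact h3
  have hb1 := hball δ (abs_of_pos hδ)
  have hb2 := hball (-δ) (by rw [abs_neg, abs_of_pos hδ])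
  have h4 := hconv.2 hb1 hb2 (by norm_num : (0 : ℝ) ≤ 1 / 2) (by norm_num : (0 : ℝ) ≤ 1 / 2)
    (by norm_num)
  have e : (1 / 2 : ℝ) • ((1 - (t₁ + δ)) • x + (t₁ + δ) • y) +
      (1 / 2 : ℝ) • ((1 - (t₁ + -δ)) • x + (t₁ + -δ) • y) = (1 - t₁) • x + t₁ • y := by
    module
  rw [e, smul_eq_mul, smul_eq_mul] at h4
  have hI1 : t₁ + δ ∈ Set.Icc (0 : ℝ) 1 := ⟨by linarith, by linarith⟩
  have hI2 : t₁ + -δ ∈ Set.Icc (0 : ℝ) 1 := ⟨by linarith, by linarith⟩
  have h5 : ψ (t₁ + -δ) ≤ ψ t₀ := hmax hI2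
  have h6 : ψ (t₁ + δ) < ψ t₀ := by
    refine lt_of_le_of_ne (hmax hI1) fun h0 => ?_
    have := hgr ⟨hI1, h0⟩
    linarith
  have h7 : ψ t₁ ≤ (ψ (t₁ + δ) + ψ (t₁ + -δ)) / 2 := by
    simp only [hψ]
    linarith
  linarith

theorem convexOn_of_shrink {s c : Set E} (hc : Convex ℝ c) (hsc : s ⊆ c) {p : E} (hp : p ∈ c)
    (hseg : ∀ x ∈ c, ∀ t : ℝ, 0 < t → t ≤ 1 → x + t • (p - x) ∈ s) {f : E → ℝ}
    (hf : ConvexOn ℝ s f) (hcont : ContinuousOn f c) : ConvexOn ℝ c f := by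
  have hlim : ∀ w ∈ c, Filter.Tendsto (fun t : ℝ => f (w + t • (p - w)))
      (nhdsWithin 0 (Set.Ioi 0)) (nhds (f w)) := by
    intro w hw
    have h1 : Filter.Tendsto (fun t : ℝ => w + t • (p - w)) (nhdsWithin 0 (Set.Ioi 0))
        (nhdsWithin w c) := by
      rw [tendsto_nhdsWithin_iff]
      constructor
      · have h2 : Continuous fun t : ℝ => w + t • (p - w) := by fun_prop
        have h3 := h2.tendsto 0
        rw [zero_smul, add_zero] at h3
        exact h3.mono_left nhdsWithin_le_nhds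
      · filter_upwards [Ioc_mem_nhdsGT (zero_lt_one' ℝ)] with t ht
        exact hsc (hseg w hw t ht.1 ht.2)
    exact (hcont w hw).tendsto.comp h1
  refine ⟨hc, fun x hx y hy a b ha hb hab => ?_⟩
  have hz : a • x + b • y ∈ c := hc hx hy ha hb hab
  rw [smul_eq_mul, smul_eq_mul]
  refine le_of_tendsto_of_tendsto (hlim _ hz)
    (((hlim x hx).const_mul a).add ((hlim y hy).const_mul b)) ?_
  filter_upwards [Ioc_mem_nhdsGT (zero_lt_one' ℝ)] with t ht
  have h1 := hf.2 (hseg x hx t ht.1 ht.2) (hseg y hy t ht.1 ht.2) ha hb hab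
  have e : a • (x + t • (p - x)) + b • (y + t • (p - y)) =
      a • x + b • y + t • (p - (a • x + b • y)) := by
    have h2 : p = (a + b) • p := by rw [hab, one_smul]
    conv_rhs => rw [h2]
    module
  rw [e, smul_eq_mul, smul_eq_mul] at h1
  exact h1

end Pool.Agent.DAE
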