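import Pool.Agent.DAE.S.ConvLoc
import Pool.Agent.DAE.S.Chamber
import Pool.Agent.DAE.S.ConvGlue

/-!
# Block S, package d6: convexity on closed cells

PROOF of `continuousOn_section`. Let `w ∈ C`, `x ≠ 0` and suppose `log (u · x)` is not continuous at `w` within
`C`: there is an ultrafilter `𝒰 ≤ 𝓝[C] w` such that `log (u w' x)` does not tend to `log (u w x)` along `𝒰`
(`tendsto_iff_ultrafilter`). Modify `u` outside `C` (`u' w' = u w'` for `w' ∈ C`, `u' w' = u w`
otherwise), `exists_lim` gives `v` over `w` with `log (u w' y) → log (v y)` along `𝒰` for all `y ≠ 0`; for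
`q ∈ T`: `log (v q) = lim lin (l q) w' = lin (l q) w = log (u w q)`, so `v q = u w q` (both positive).
`hsep` gives `v = u w`, contradiction.

PROOF of `cell_convex`. `Ω = openCh (ordRel Λ w₀)` is open, convex, `C = closedCh (ordRel Λ w₀) ⊇ Ω`. On `C`
`log (u · x)` is continuous. `local_convex` (with `hne` from `Gnc.of_mem`, `l q ∈ Λ`) and `convexOn_of_local`:
`log (u · q)` is convex on `Ω`. `convexOn_of_shrink` with `p = w₀` (`segment_mem_openCh`).
-/

set_option autoImplicit false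

namespace Pool.Agent.DAE

open Filter Topology

variable {F L : Type*} [Field F] [Field L] [Algebra ℂ F] [Algebra ℂ L] [Algebra F L]
  [IsScalarTower ℂ F L] [FiniteDimensional F L] {d : ℕ} {g : Fin d → F}

theorem continuousOn_section (hi : AlgebraicIndependent ℂ g) (hF : Gen g) {T : Finset L}
    (hT0 : (0 : L) ∉ T) (hsep : Separates g T)
    {C : Set (Fin d → ℝ)} {l : L → Fin d → ℝ} {u : (Fin d → ℝ) → L → ℝ}
    (hu : ∀ w ∈ C, Over g w (u w)) (hl : ∀ w ∈ C, ∀ q ∈ T, Real.log (u w q) = lin (l q) w)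
    {x : L} (hx : x ≠ 0) : ContinuousOn (fun w => Real.log (u w x)) C := by
  classical
  intro w hw
  rw [ContinuousWithinAt, tendsto_iff_ultrafilter]
  intro 𝒰 h𝒰
  have hC : ∀ᶠ i in (𝒰 : Filter (Fin d → ℝ)), i ∈ C := h𝒰 self_mem_nhdsWithin
  have hid : Tendsto (fun i : Fin d → ℝ => i) 𝒰 (𝓝 w) := h𝒰.trans nhdsWithin_le_nhds
  set u' : (Fin d → ℝ) → L → ℝ := fun i => if i ∈ C then u i else u w with hu'
  have hin : ∀ i, InX g (u' i) := by
    intro i
    by_cases hi1 : i ∈ C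
    · simp only [hu', if_pos hi1]
      exact (hu i hi1).inX
    · simp only [hu', if_neg hi1]
      exact (hu w hw).inX
  have heq : ∀ᶠ i in (𝒰 : Filter (Fin d → ℝ)), u' i = u i := by
    filter_upwards [hC] with i hi1
    simp only [hu', if_pos hi1]
  have hg : ∀ k, Tendsto (fun i => Real.log (u' i (algebraMap F L (g k)))) 𝒰 (𝓝 (w k)) := by
    intro k
    refine ((tendsto_pi_nhds.1 hid) k).congr' ?_
    filter_upwards [hC, heq] with i hi1 hi2
    rw [hi2, (hu i hi1).log k]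
  obtain ⟨v, hv, hlim⟩ := exists_lim hi hF 𝒰 hin hg
  have hvu : v = u w := by
    refine hsep v (u w) hv.inX (hu w hw).inX fun q hq => ?_
    have hq0 : q ≠ 0 := fun h0 => hT0 (h0 ▸ hq)
    have h2 : Tendsto (fun i => lin (l q) i) 𝒰 (𝓝 (lin (l q) w)) :=
      ((continuous_lin (l q)).tendsto w).comp hid
    have h3 : Real.log (v q) = Real.log (u w q) := by
      rw [hl w hw q hq]
      refine tendsto_nhds_unique (hlim q hq0) (h2.congr' ?_)
      filter_upwards [hC, heq] with i hi1 hi2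
      rw [hi2, hl i hi1 q hq]
    exact Real.log_injOn_pos (Set.mem_Ioi.2 (hv.inX.nabs.pos hq0))
      (Set.mem_Ioi.2 ((hu w hw).inX.nabs.pos hq0)) h3
  have h4 := hlim x hx
  rw [hvu] at h4
  refine h4.congr' ?_
  filter_upwards [heq] with i hi2
  rw [hi2]

theorem cell_convex [IsGalois F L] (hi : AlgebraicIndependent ℂ g) (hF : Gen g) {T : Finset L}
    (hT0 : (0 : L) ∉ T) (hTi : ∀ q ∈ T, GInt g q)
    (hTs : ∀ s : L ≃ₐ[F] L, ∀ q ∈ T, s q ∈ T) (hsep : Separates g T)
    {Λ : Finset (Fin d → ℝ)} {l : L → Fin d → ℝ} (hlΛ : ∀ q ∈ T, l q ∈ Λ)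
    {w₀ : Fin d → ℝ} (hw₀ : Gnc Λ w₀) {u : (Fin d → ℝ) → L → ℝ}
    (hu : ∀ w ∈ closedCh (ordRel Λ w₀), Over g w (u w))
    (hl : ∀ w ∈ closedCh (ordRel Λ w₀), ∀ q ∈ T, Real.log (u w q) = lin (l q) w)
    {q : L} (hq : q ≠ 0) (hqi : GInt g q) :
    ConvexOn ℝ (closedCh (ordRel Λ w₀)) fun w => Real.log (u w q) := by
  have hsub := openCh_subset (ordRel Λ w₀)
  have hcont : ∀ x : L, x ≠ 0 →
      ContinuousOn (fun w => Real.log (u w x)) (closedCh (ordRel Λ w₀)) := fun x hx =>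
    continuousOn_section hi hF hT0 hsep hu hl hx
  have hopen : ConvexOn ℝ (openCh (ordRel Λ w₀)) fun w => Real.log (u w q) := by
    refine convexOn_of_local (convex_openCh _) ((hcont q hq).mono hsub) fun x hx => ?_
    obtain ⟨ε, hε, -, hconv⟩ := local_convex (Γ := openCh (ordRel Λ w₀)) hi hF hT0 hTi hTs hsep
      (isOpen_openCh _) (fun w hw => hu w (hsub hw)) (fun w hw => hl w (hsub hw))
      (fun w hw c hc c' hc' hne => hw₀.of_mem hw (l c) (hlΛ c hc) (l c') (hlΛ c' hc') hne)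
      (fun x hx => (hcont x hx).mono hsub) hq hqi hx
    exact ⟨ε, hε, hconv⟩
  exact convexOn_of_shrink (convex_closedCh _) hsub (hsub (mem_openCh_ordRel Λ w₀))
    (fun x hx t h0 h1 => segment_mem_openCh hx (mem_openCh_ordRel Λ w₀) h0 h1) hopen (hcont q hq)

end Pool.Agent.DAE
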