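import Pool.Agent.DAE.S.Lim

/-!
# Block S, package b5: every point lies in a closed cell

PROOF of `exists_cell`. (1) There is a direction `e : Fin d → ℝ` with `lin l e ≠ lin l' e` for all
`l ≠ l'` in `Λ` (`e_i = s^i` with `s` outside the zeros of finitely many nonzero polynomials). Then
`w_n = w + (1/(n+1)) • e` is generic for all large `n`. (2) Let `𝒰` be an ultrafilter on `ℕ` finer
than `atTop`. `exists_lift`: `u_n` over `w_n` with `log (u_n x) → log (v x)`. For `q ∈ T`,
`log (u_n q) = lin (l_n q) w_n`, `l_n q ∈ Λ` (`hΛ`); the restriction of `l_n` to `T` and the finite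
set `ordRel Λ w_n ⊆ Λ ×ˢ Λ` take finitely many values, so they are `𝒰`-almost surely constant. Take
`w₀ = w_n` for one `n` in the set where this holds and `w_n` is generic.
-/

set_option autoImplicit false

namespace Pool.Agent.DAE

open MvPolynomial Filter Topology

variable {F L : Type*} [Field F] [Field L] [Algebra ℂ F] [Algebra ℂ L] [Algebra F L]
  [IsScalarTower ℂ F L] [FiniteDimensional F L] {d : ℕ} {g : Fin d → F}

/-- a direction on which the finitely many linear forms differ -/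
private lemma b5_exists_dir (Λ : Finset (Fin d → ℝ)) : ∃ e : Fin d → ℝ, Gnc Λ e := by
  classical
  let P : (Fin d → ℝ) → Polynomial ℝ := fun l =>
    ∑ i : Fin d, Polynomial.C (l i) * Polynomial.X ^ (i : ℕ)
  have hcoeff : ∀ (l : Fin d → ℝ) (j : Fin d), (P l).coeff (j : ℕ) = l j := by
    intro l j
    simp only [P, Polynomial.finsetSum_coeff, Polynomial.coeff_C_mul, Polynomial.coeff_X_pow]
    rw [Finset.sum_eq_single j]
    · simp
    · intro b _ hb
      rw [if_neg (fun h => hb (Fin.ext h.symm)), mul_zero]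
    · intro h
      exact absurd (Finset.mem_univ j) h
  have heval : ∀ (l : Fin d → ℝ) (s : ℝ), (P l).eval s = lin l fun i => s ^ (i : ℕ) := by
    intro l s
    simp [P, lin, Polynomial.eval_finsetSum]
  let S : Finset ℝ := (Λ ×ˢ Λ).biUnion fun p => (P (p.1 - p.2)).roots.toFinset
  obtain ⟨s, hs⟩ := Infinite.exists_notMem_finset S
  refine ⟨fun i => s ^ (i : ℕ), fun l hl l' hl' hne h => hs ?_⟩
  refine Finset.mem_biUnion.2 ⟨(l, l'), Finset.mk_mem_product hl hl', ?_⟩
  have h0 : P (l - l') ≠ 0 := by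
    intro h0
    apply hne
    ext j
    have := hcoeff (l - l') j
    rw [h0, Polynomial.coeff_zero] at this
    simp only [Pi.sub_apply] at this
    linarith
  rw [Multiset.mem_toFinset, Polynomial.mem_roots h0, Polynomial.IsRoot.def, heval, lin_sub_left]
  linarith

theorem exists_cell [IsGalois F L] (hi : AlgebraicIndependent ℂ g) (hF : Gen g) {T : Finset L}
    (hT : (0 : L) ∉ T) {Λ : Finset (Fin d → ℝ)} (hΛ : ExpSet g T Λ) {w : Fin d → ℝ}
    {v : L → ℝ} (hv : Over g w v) :
    ∃ (w₀ : Fin d → ℝ) (l : L → Fin d → ℝ), Gnc Λ w₀ ∧ (∀ q ∈ T, l q ∈ Λ) ∧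
      (∀ q, q ∉ T → l q = 0) ∧ Rlz g T l w₀ ∧
      w ∈ closedCh (ordRel Λ w₀) ∧ ∀ q ∈ T, Real.log (v q) = lin (l q) w := by
  classical
  obtain ⟨e, he⟩ := b5_exists_dir Λ
  let t : ℕ → ℝ := fun n => 1 / ((n : ℝ) + 1)
  have ht0 : ∀ n, t n ≠ 0 := fun n => by positivity
  have htl : Tendsto t atTop (𝓝 0) := tendsto_one_div_add_atTop_nhds_zero_nat
  let ws : ℕ → Fin d → ℝ := fun n => w + t n • e
  have hws : Tendsto ws atTop (𝓝 w) := by
    have h1 : Tendsto (fun n => w + t n • e) atTop (𝓝 (w + (0 : ℝ) • e)) :=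
      tendsto_const_nhds.add (htl.smul_const e)
    rw [zero_smul, add_zero] at h1
    exact h1
  have hlin : ∀ l : Fin d → ℝ, Tendsto (fun n => lin l (ws n)) atTop (𝓝 (lin l w)) := fun l =>
    ((continuous_lin l).tendsto w).comp hws
  have hgen : ∀ᶠ n in atTop, Gnc Λ (ws n) := by
    have h1 : ∀ p ∈ Λ ×ˢ Λ, ∀ᶠ n in atTop, p.1 ≠ p.2 → lin p.1 (ws n) ≠ lin p.2 (ws n) := by
      rintro ⟨l, l'⟩ hp
      obtain ⟨hl, hl'⟩ := Finset.mem_product.1 hp
      rcases eq_or_ne l l' with h | h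
      · exact Eventually.of_forall fun n h' => absurd h h'
      · rcases eq_or_ne (lin l w) (lin l' w) with h2 | h2
        · refine Eventually.of_forall fun n _ h3 => ?_
          change lin l (w + t n • e) = lin l' (w + t n • e) at h3
          rw [lin_add_right, lin_add_right, lin_smul_right, lin_smul_right, h2] at h3
          have h4 : t n * lin l e = t n * lin l' e := by linarith
          exact he l hl l' hl' h (mul_left_cancel₀ (ht0 n) h4)
        · exact (((hlin l).sub (hlin l')).eventually_ne (sub_ne_zero.2 h2)).mono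
            fun n hn _ => sub_ne_zero.1 hn
    have h2 := (Filter.eventually_all_finset (Λ ×ˢ Λ)).2 h1
    filter_upwards [h2] with n hn l hl l' hl' hne
    exact hn (l, l') (Finset.mk_mem_product hl hl') hne
  let 𝒰 : Ultrafilter ℕ := Ultrafilter.of atTop
  have hle : (𝒰 : Filter ℕ) ≤ atTop := Ultrafilter.of_le atTop
  obtain ⟨u, hu, hul⟩ := exists_lift hi hF 𝒰 hv (hws.mono_left hle)
  have hex : ∀ q ∈ T, ∃ l ∈ Λ, ∀ᶠ n in (𝒰 : Filter ℕ), Real.log (u n q) = lin l (ws n) := by
    intro q hq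
    have h1 : ∀ᶠ n in (𝒰 : Filter ℕ), ∃ l ∈ (Λ : Set (Fin d → ℝ)),
        Real.log (u n q) = lin l (ws n) :=
      Eventually.of_forall fun n => hΛ (ws n) (u n) (hu n) q hq
    exact (Ultrafilter.eventually_exists_mem_iff Λ.finite_toSet).1 h1
  choose! l hlΛ hl using hex
  have hord : ∀ᶠ m in (𝒰 : Filter ℕ), ∀ p ∈ Λ ×ˢ Λ, lin p.1 (ws m) < lin p.2 (ws m) →
      ∀ᶠ n in (𝒰 : Filter ℕ), lin p.1 (ws n) < lin p.2 (ws n) := by
    refine (Filter.eventually_all_finset _).2 fun p _ => ?_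
    by_cases h : ∀ᶠ n in (𝒰 : Filter ℕ), lin p.1 (ws n) < lin p.2 (ws n)
    · exact Eventually.of_forall fun _ _ => h
    · exact (Ultrafilter.eventually_not.2 h).mono fun m hm hm' => absurd hm' hm
  have hall : ∀ᶠ m in (𝒰 : Filter ℕ), ∀ q ∈ T, Real.log (u m q) = lin (l q) (ws m) :=
    (Filter.eventually_all_finset _).2 hl
  have hgen' : ∀ᶠ n in (𝒰 : Filter ℕ), Gnc Λ (ws n) := hle hgen
  obtain ⟨m, h1, h2, h3⟩ := (hgen'.and (hord.and hall)).exists
  refine ⟨ws m, fun q => if q ∈ T then l q else 0, h1, fun q hq => ?_, fun q hq => if_neg hq,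
    ⟨u m, hu m, fun q hq => ?_⟩, fun p hp => ?_, fun q hq => ?_⟩
  · show (if q ∈ T then l q else 0) ∈ Λ
    rw [if_pos hq]
    exact hlΛ q hq
  · show Real.log (u m q) = lin (if q ∈ T then l q else 0) (ws m)
    rw [if_pos hq]
    exact h3 q hq
  · obtain ⟨hp1, hp2⟩ := Finset.mem_filter.1 hp
    exact le_of_tendsto_of_tendsto ((hlin p.1).mono_left hle) ((hlin p.2).mono_left hle)
      ((h2 p hp1 hp2).mono fun n hn => hn.le)
  · show Real.log (v q) = lin (if q ∈ T then l q else 0) w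
    rw [if_pos hq]
    have hq0 : q ≠ 0 := fun h => hT (h ▸ hq)
    refine tendsto_nhds_unique (hul q hq0) ?_
    refine ((hlin (l q)).mono_left hle).congr' ?_
    exact (hl q hq).mono fun n hn => hn.symm

end Pool.Agent.DAE
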