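import Pool.Agent.DAE.S.SepDefs

/-!
# Block S, part (c): peaking elements
-/

set_option autoImplicit false

namespace Pool.Agent.DAE

variable {F L : Type*} [Field F] [Field L] [Algebra F L] [FiniteDimensional F L] {v : L → ℝ}

omit [FiniteDimensional F L] in
private lemma peak_sum (T : Finset L) (t : L ≃ₐ[F] L) (hT : ∀ c ∈ T, t c ∈ T) (f : L → ℝ) :
    ∑ c ∈ T, f (t c) = ∑ c ∈ T, f c := by
  classical
  have h1 : T.image t = T := by
    apply Finset.eq_of_subset_of_card_le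
    · intro x hx
      obtain ⟨c, hc, rfl⟩ := Finset.mem_image.1 hx
      exact hT c hc
    · rw [Finset.card_image_of_injective _ t.injective]
  conv_rhs => rw [← h1]
  rw [Finset.sum_image fun a _ b _ h => t.injective h]

omit [FiniteDimensional F L] in
private lemma peak_log (hv : NAbs v) (T : Finset L) (t : L ≃ₐ[F] L) (h0 : (0 : L) ∉ T)
    (n : L → ℤ) :
    Real.log (v (t (∏ c ∈ T, c ^ n c))) = ∑ c ∈ T, (n c : ℝ) * Real.log (v (t c)) := by
  have h1 : ∀ c ∈ T, t c ≠ 0 := fun c hc h => h0 (by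
    rw [(map_eq_zero_iff t t.injective).1 h] at hc
    exact hc)
  rw [map_prod, hv.prod, Real.log_prod]
  · refine Finset.sum_congr rfl fun c _ => ?_
    rw [map_zpow₀, hv.zpow, Real.log_zpow]
  · intro c hc
    rw [map_zpow₀]
    exact hv.ne_zero (zpow_ne_zero _ (h1 c hc))

omit [FiniteDimensional F L] in
private lemma peak_pos (hv : NAbs v) (T : Finset L) (t : L ≃ₐ[F] L) (h0 : (0 : L) ∉ T)
    (hT : ∀ c ∈ T, t c ∈ T) (h : ∃ c ∈ T, v (t c) ≠ v c) :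
    0 < ∑ c ∈ T, Real.log (v c) * (Real.log (v c) - Real.log (v (t c))) := by
  have h1 : ∀ c ∈ T, c ≠ 0 := fun c hc hc0 => h0 (hc0 ▸ hc)
  have h2 : ∑ c ∈ T, Real.log (v (t c)) ^ 2 = ∑ c ∈ T, Real.log (v c) ^ 2 :=
    peak_sum T t hT fun c => Real.log (v c) ^ 2
  have h3 : ∑ c ∈ T, (Real.log (v c) - Real.log (v (t c))) ^ 2 =
      2 * ∑ c ∈ T, Real.log (v c) * (Real.log (v c) - Real.log (v (t c))) := by
    have e1 : ∑ c ∈ T, (Real.log (v c) - Real.log (v (t c))) ^ 2 =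
        ∑ c ∈ T, Real.log (v c) ^ 2 - 2 * ∑ c ∈ T, Real.log (v c) * Real.log (v (t c)) +
          ∑ c ∈ T, Real.log (v (t c)) ^ 2 := by
      rw [Finset.mul_sum, ← Finset.sum_sub_distrib, ← Finset.sum_add_distrib]
      exact Finset.sum_congr rfl fun c _ => by ring
    have e2 : ∑ c ∈ T, Real.log (v c) * (Real.log (v c) - Real.log (v (t c))) =
        ∑ c ∈ T, Real.log (v c) ^ 2 - ∑ c ∈ T, Real.log (v c) * Real.log (v (t c)) := by
      rw [← Finset.sum_sub_distrib]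
      exact Finset.sum_congr rfl fun c _ => by ring
    rw [e1, e2, h2]
    ring
  have h4 : 0 < ∑ c ∈ T, (Real.log (v c) - Real.log (v (t c))) ^ 2 := by
    refine Finset.sum_pos' (fun c _ => sq_nonneg _) ?_
    obtain ⟨c, hc, hne⟩ := h
    refine ⟨c, hc, ?_⟩
    have h5 : Real.log (v c) ≠ Real.log (v (t c)) := by
      intro h6
      exact hne (Real.log_injOn_pos (Set.mem_Ioi.2 (hv.pos (h1 _ (hT c hc))))
        (Set.mem_Ioi.2 (hv.pos (h1 c hc))) h6.symm)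
    exact sq_pos_of_ne_zero (sub_ne_zero.2 h5)
  rw [h3] at h4
  linarith

/-- Peaking. Let `x c = Real.log (v c)` for `c ∈ T`. Every `t` permutes `T`, so
`∑ x (t c) ^ 2 = ∑ x c ^ 2`, and if `x (t c) ≠ x c` for some `c ∈ T` then
`0 < ∑ (x c - x (t c)) ^ 2 = 2 * ∑ x c * (x c - x (t c))`. For `N : ℕ` put
`n c = ⌊N * x c⌋`: `∑ n c * (x c - x (t c)) ≥ N * ∑ x c * (x c - x (t c)) - ∑ |x c - x (t c)| > 0`
for `N` large enough (for all the finitely many `t`). And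
`log v (∏ c ^ n c) = ∑ n c * x c`, `log v (t (∏ c ^ n c)) = ∑ n c * x (t c)`. -/
theorem exists_peak (hv : NAbs v) (T : Finset L) (h0 : (0 : L) ∉ T)
    (hT : ∀ (s : L ≃ₐ[F] L), ∀ c ∈ T, s c ∈ T) :
    ∃ n : L → ℤ, ∀ t : L ≃ₐ[F] L, (∃ c ∈ T, v (t c) ≠ v c) →
      v (t (∏ c ∈ T, c ^ n c)) < v (∏ c ∈ T, c ^ n c) := by
  classical
  have h1 : ∀ c ∈ T, c ≠ 0 := fun c hc hc0 => h0 (hc0 ▸ hc)
  let A : (L ≃ₐ[F] L) → ℝ := fun t =>
    ∑ c ∈ T, Real.log (v c) * (Real.log (v c) - Real.log (v (t c)))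
  let B : (L ≃ₐ[F] L) → ℝ := fun t => ∑ c ∈ T, |Real.log (v c) - Real.log (v (t c))|
  have h2 : ∃ N : ℕ, ∀ t, 0 < A t → B t < N * A t := by
    have h3 : ∀ t, ∃ N : ℕ, 0 < A t → B t < N * A t := by
      intro t
      by_cases hA : 0 < A t
      · obtain ⟨N, hN⟩ := exists_nat_gt (B t / A t)
        exact ⟨N, fun _ => (div_lt_iff₀ hA).1 hN⟩
      · exact ⟨0, fun h => absurd h hA⟩
    choose M hM using h3
    refine ⟨Finset.univ.sup M, fun t hA => (hM t hA).trans_le ?_⟩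
    have h4 : M t ≤ Finset.univ.sup M := Finset.le_sup (Finset.mem_univ t)
    exact mul_le_mul_of_nonneg_right (by exact_mod_cast h4) hA.le
  obtain ⟨N, hN⟩ := h2
  refine ⟨fun c => ⌊(N : ℝ) * Real.log (v c)⌋, fun t ht => ?_⟩
  have hA : 0 < A t := peak_pos hv T t h0 (hT t) ht
  have hX : (∏ c ∈ T, c ^ ⌊(N : ℝ) * Real.log (v c)⌋) ≠ 0 :=
    Finset.prod_ne_zero_iff.2 fun c hc => zpow_ne_zero _ (h1 c hc)
  have hX' : t (∏ c ∈ T, c ^ ⌊(N : ℝ) * Real.log (v c)⌋) ≠ 0 :=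
    (map_ne_zero_iff t t.injective).2 hX
  rw [← Real.log_lt_log_iff (hv.pos hX') (hv.pos hX), peak_log hv T t h0]
  have h5 : Real.log (v (∏ c ∈ T, c ^ ⌊(N : ℝ) * Real.log (v c)⌋)) =
      ∑ c ∈ T, (⌊(N : ℝ) * Real.log (v c)⌋ : ℝ) * Real.log (v c) :=
    peak_log hv T (AlgEquiv.refl : L ≃ₐ[F] L) h0 fun c => ⌊(N : ℝ) * Real.log (v c)⌋
  rw [h5, ← sub_pos, ← Finset.sum_sub_distrib]
  have h6 : (N : ℝ) * A t - B t ≤ ∑ c ∈ T, ((⌊(N : ℝ) * Real.log (v c)⌋ : ℝ) *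
      Real.log (v c) - (⌊(N : ℝ) * Real.log (v c)⌋ : ℝ) * Real.log (v (t c))) := by
    simp only [A, B]
    rw [Finset.mul_sum, ← Finset.sum_sub_distrib]
    refine Finset.sum_le_sum fun c _ => ?_
    set x := Real.log (v c)
    set y := Real.log (v (t c))
    have e1 := Int.floor_le ((N : ℝ) * x)
    have e2 := Int.lt_floor_add_one ((N : ℝ) * x)
    have e3 : ((N : ℝ) * x - ⌊(N : ℝ) * x⌋) * (x - y) ≤ |x - y| := by
      calc ((N : ℝ) * x - ⌊(N : ℝ) * x⌋) * (x - y)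
          ≤ |((N : ℝ) * x - ⌊(N : ℝ) * x⌋) * (x - y)| := le_abs_self _
        _ = |(N : ℝ) * x - ⌊(N : ℝ) * x⌋| * |x - y| := abs_mul _ _
        _ ≤ 1 * |x - y| := by
          refine mul_le_mul_of_nonneg_right ?_ (abs_nonneg _)
          rw [abs_of_nonneg (by linarith)]
          linarith
        _ = |x - y| := one_mul _
    linarith
  have h7 := hN t hA
  linarith

end Pool.Agent.DAE
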