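import Pool.Agent.DAE.S.Spec
import Pool.Agent.DAE.S.SepPeak

/-!
# Block S, package d5: local convexity on open chambers

SETTING. `T` finite, `0 ∉ T`, elements integral, stable under the Galois group, separating. `u w` (`w ∈ Γ`)
is a continuous section over the open set `Γ` with constant exponents `l q` on `T`; different exponents
have different values on `Γ`.

PROOF. Let `G' = {s | ∀ q ∈ T, l (s q) = l q}`.
(1) If `s ∈ G'` then for every `w ∈ Γ`: `log (u w (s q)) = lin (l (s q)) w = log (u w q)` for `q ∈ T`, so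
`u w ∘ s = u w` by `hsep` (`InX.conj`). If `s ∉ G'` there is `q ∈ T` with `l (s q) ≠ l q`, so
`u w₀ (s q) ≠ u w₀ q` by `hne` (`s q ∈ T`).
(2) `exists_peak` for `u w₀` and `T`: `n : L → ℤ`, `b = ∏_{c ∈ T} c^(n c)`, `u w₀ (s b) < u w₀ b` for
`s ∉ G'`.
(3) For `c ∈ T` let `N c = ∏_{t : L ≃ₐ[F] L} t c`: integral (`GInt.conj`, `GInt.prod`), `≠ 0`, fixed by
every `s`, and `c⁻¹ * N c` is integral (product over `t ≠ 1`). `b' = b * ∏_{c ∈ T} (N c)^(|n c|)` is
integral and `≠ 0` (`c^(n c) (N c)^|n c|` is `(c * N c)^(n c)` or `(c⁻¹ * N c)^(- n c)`), and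
`s b' = s b * ∏ (N c)^|n c|`, so `u w₀ (s b') < u w₀ b'` for `s ∉ G'`. For `w ∈ Γ`
`log (u w b') = ∑_c n c * lin (l c) w + ∑_c |n c| ∑_t lin (l (t c)) w =: m w` is linear in `w`.
(4) Choose `k` so large that `u w₀ (s q) * u w₀ (s b')^k < u w₀ q * u w₀ b'^k` for the finitely many
`s ∉ G'`. `z = q * b'^k ≠ 0` is integral and `u w₀ (s z) < u w₀ z` for `s ∉ G'`. By continuity of
`w ↦ log (u w (s z))`, `log (u w z)` on the open set `Γ` there is a ball around `w₀` inside `Γ` on which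
this is still true. For `s ∈ G'` `u w (s z) = u w z`. So on the ball `u w (s z) ≤ u w z` for all `s`, and
`exists_spectral` gives `log (u w z) = c w`, `c` convex.
(5) `log (u w q) = c w - k * m w` on the ball: convex minus linear.
-/

set_option autoImplicit false

namespace Pool.Agent.DAE

variable {F L : Type*} [Field F] [Field L] [Algebra ℂ F] [Algebra ℂ L] [Algebra F L]
  [IsScalarTower ℂ F L] {d : ℕ} {g : Fin d → F}

private lemma cl_lin_add (l l' w : Fin d → ℝ) : lin (l + l') w = lin l w + lin l' w := by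
  simp [lin, add_mul, Finset.sum_add_distrib]

private lemma cl_lin_smul (c : ℝ) (l w : Fin d → ℝ) : lin (c • l) w = c * lin l w := by
  simp only [lin, Pi.smul_apply, smul_eq_mul, Finset.mul_sum]
  exact Finset.sum_congr rfl fun i _ => by ring

private lemma cl_lin_sum {ι : Type*} (s : Finset ι) (f : ι → Fin d → ℝ) (w : Fin d → ℝ) :
    lin (∑ i ∈ s, f i) w = ∑ i ∈ s, lin (f i) w := by
  classical
  induction s using Finset.induction_on with
  | empty => simp [lin]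
  | insert a s ha ih => rw [Finset.sum_insert ha, Finset.sum_insert ha, cl_lin_add, ih]

/-- the norm of `c` -/
private noncomputable def clN (F : Type*) {L : Type*} [Field F] [Field L] [Algebra F L]
    [FiniteDimensional F L] (c : L) : L := ∏ t : L ≃ₐ[F] L, t c

omit [Algebra ℂ F] [Algebra ℂ L] [IsScalarTower ℂ F L] in
private lemma clN_fix [FiniteDimensional F L] (s : L ≃ₐ[F] L) (c : L) :
    s (clN F c) = clN F c := by
  unfold clN
  rw [map_prod]
  exact Fintype.prod_equiv (Equiv.mulLeft s) _ _ fun t => rfl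

omit [Algebra ℂ F] [Algebra ℂ L] [IsScalarTower ℂ F L] in
private lemma clN_ne [FiniteDimensional F L] {c : L} (hc : c ≠ 0) : clN F c ≠ 0 :=
  Finset.prod_ne_zero_iff.2 fun t _ => (map_ne_zero_iff t t.injective).2 hc

private lemma clN_int [FiniteDimensional F L] {c : L} (hc : GInt g c) : GInt g (clN F c) :=
  GInt.prod _ fun t _ => hc.conj t

private lemma clN_inv_int [FiniteDimensional F L] {c : L} (hc0 : c ≠ 0) (hc : GInt g c) :
    GInt g (c⁻¹ * clN F c) := by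
  classical
  have h1 : clN F c = c * ∏ t ∈ Finset.univ.erase (1 : L ≃ₐ[F] L), t c := by
    unfold clN
    rw [← Finset.mul_prod_erase Finset.univ (fun t : L ≃ₐ[F] L => t c)
      (Finset.mem_univ (1 : L ≃ₐ[F] L)), AlgEquiv.one_apply]
  rw [h1, ← mul_assoc, inv_mul_cancel₀ hc0, one_mul]
  exact GInt.prod _ fun t _ => hc.conj t

private lemma cl_factor_int [FiniteDimensional F L] {c : L} (hc0 : c ≠ 0) (hc : GInt g c)
    (n : ℤ) : GInt g (c ^ n * clN F c ^ n.natAbs) := by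
  rcases Int.natAbs_eq n with h | h
  · have h1 : c ^ n = c ^ n.natAbs := by
      conv_lhs => rw [h]
      exact zpow_natCast _ _
    rw [h1]
    exact (hc.pow _).mul ((clN_int hc).pow _)
  · have h1 : c ^ n = c⁻¹ ^ n.natAbs := by
      conv_lhs => rw [h]
      rw [zpow_neg, zpow_natCast, inv_pow]
    rw [h1, ← mul_pow]
    exact (clN_inv_int hc0 hc).pow _

theorem local_convex [FiniteDimensional F L] [IsGalois F L] (hi : AlgebraicIndependent ℂ g)
    (hF : Gen g) {T : Finset L} (hT0 : (0 : L) ∉ T) (hTi : ∀ q ∈ T, GInt g q)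
    (hTs : ∀ s : L ≃ₐ[F] L, ∀ q ∈ T, s q ∈ T) (hsep : Separates g T)
    {Γ : Set (Fin d → ℝ)} (hΓ : IsOpen Γ) {l : L → Fin d → ℝ} {u : (Fin d → ℝ) → L → ℝ}
    (hu : ∀ w ∈ Γ, Over g w (u w)) (hl : ∀ w ∈ Γ, ∀ q ∈ T, Real.log (u w q) = lin (l q) w)
    (hne : ∀ w ∈ Γ, ∀ q ∈ T, ∀ q' ∈ T, l q ≠ l q' → lin (l q) w ≠ lin (l q') w)
    (hcont : ∀ x, x ≠ 0 → ContinuousOn (fun w => Real.log (u w x)) Γ)
    {q : L} (hq : q ≠ 0) (hqi : GInt g q) {w₀ : Fin d → ℝ} (hw₀ : w₀ ∈ Γ) :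
    ∃ ε > 0, Metric.ball w₀ ε ⊆ Γ ∧
      ConvexOn ℝ (Metric.ball w₀ ε) fun w => Real.log (u w q) := by
  classical
  have hT1 : ∀ c ∈ T, c ≠ 0 := fun c hc h => hT0 (h ▸ hc)
  have hsne : ∀ (s : L ≃ₐ[F] L) {c : L}, c ≠ 0 → s c ≠ 0 := fun s c hc =>
    (map_ne_zero_iff s s.injective).2 hc
  have hv : ∀ w ∈ Γ, NAbs (u w) := fun w hw => (hu w hw).inX.nabs
  let P : (L ≃ₐ[F] L) → Prop := fun s => ∀ c ∈ T, l (s c) = l c
  -- (1)
  have h1 : ∀ s, P s → ∀ w ∈ Γ, ∀ x, u w (s x) = u w x := by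
    intro s hs w hw x
    have e1 := hsep (fun x => u w (s x)) (u w) ((hu w hw).inX.conj s) (hu w hw).inX
      (fun c hc => by
        have e2 : Real.log (u w (s c)) = Real.log (u w c) := by
          rw [hl w hw _ (hTs s c hc), hl w hw c hc, hs c hc]
        exact Real.log_injOn_pos (Set.mem_Ioi.2 ((hv w hw).pos (hsne s (hT1 c hc))))
          (Set.mem_Ioi.2 ((hv w hw).pos (hT1 c hc))) e2)
    exact congrFun e1 x
  have h2 : ∀ s, ¬ P s → ∃ c ∈ T, u w₀ (s c) ≠ u w₀ c := by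
    intro s hs
    simp only [P] at hs
    push Not at hs
    obtain ⟨c, hc, hne1⟩ := hs
    refine ⟨c, hc, fun h => ?_⟩
    have e1 := hne w₀ hw₀ _ (hTs s c hc) c hc hne1
    rw [← hl w₀ hw₀ _ (hTs s c hc), ← hl w₀ hw₀ c hc] at e1
    exact e1 (by rw [h])
  -- (2)
  obtain ⟨n, hn⟩ := exists_peak (F := F) (hv w₀ hw₀) T hT0 hTs
  -- (3)
  set B : L := ∏ c ∈ T, c ^ n c with hB
  set A : L := ∏ c ∈ T, clN F c ^ (n c).natAbs with hA
  have hB0 : B ≠ 0 := Finset.prod_ne_zero_iff.2 fun c hc => zpow_ne_zero _ (hT1 c hc)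
  have hA0 : A ≠ 0 := Finset.prod_ne_zero_iff.2 fun c hc => pow_ne_zero _ (clN_ne (hT1 c hc))
  have hAs : ∀ s : L ≃ₐ[F] L, s A = A := by
    intro s
    rw [hA, map_prod]
    exact Finset.prod_congr rfl fun c _ => by rw [map_pow, clN_fix]
  have hBA0 : B * A ≠ 0 := mul_ne_zero hB0 hA0
  have hBAi : GInt g (B * A) := by
    rw [hB, hA, ← Finset.prod_mul_distrib]
    exact GInt.prod _ fun c hc => cl_factor_int (hT1 c hc) (hTi c hc) _
  have h3 : ∀ s, ¬ P s → u w₀ (s (B * A)) < u w₀ (B * A) := by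
    intro s hs
    rw [map_mul, hAs, (hv w₀ hw₀).mul, (hv w₀ hw₀).mul]
    exact mul_lt_mul_of_pos_right (hn s (h2 s hs)) ((hv w₀ hw₀).pos hA0)
  have hM : ∃ M : Fin d → ℝ, ∀ w ∈ Γ, Real.log (u w (B * A)) = lin M w := by
    refine ⟨∑ c ∈ T, ((n c : ℝ) • l c + ((n c).natAbs : ℝ) • ∑ t : L ≃ₐ[F] L, l (t c)),
      fun w hw => ?_⟩
    rw [cl_lin_sum, hB, hA, ← Finset.prod_mul_distrib, (hv w hw).prod, Real.log_prod]
    · refine Finset.sum_congr rfl fun c hc => ?_
      have hpos1 : u w (c ^ n c) ≠ 0 := (hv w hw).ne_zero (zpow_ne_zero _ (hT1 c hc))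
      have hpos2 : u w (clN F c ^ (n c).natAbs) ≠ 0 :=
        (hv w hw).ne_zero (pow_ne_zero _ (clN_ne (hT1 c hc)))
      rw [(hv w hw).mul, Real.log_mul hpos1 hpos2, (hv w hw).zpow, (hv w hw).pow, Real.log_zpow,
        Real.log_pow, cl_lin_add, cl_lin_smul, cl_lin_smul, cl_lin_sum, hl w hw c hc]
      have e1 : Real.log (u w (clN F c)) = ∑ t : L ≃ₐ[F] L, lin (l (t c)) w := by
        unfold clN
        rw [(hv w hw).prod, Real.log_prod]
        · exact Finset.sum_congr rfl fun t _ => hl w hw _ (hTs t c hc)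
        · exact fun t _ => (hv w hw).ne_zero (hsne t (hT1 c hc))
      rw [e1]
    · intro c hc
      exact (hv w hw).ne_zero (mul_ne_zero (zpow_ne_zero _ (hT1 c hc))
        (pow_ne_zero _ (clN_ne (hT1 c hc))))
  obtain ⟨M, hM⟩ := hM
  -- (4)
  have h4 : ∀ᶠ k : ℕ in Filter.atTop, ∀ s : L ≃ₐ[F] L, ¬ P s →
      u w₀ (s q) * u w₀ (s (B * A)) ^ k < u w₀ q * u w₀ (B * A) ^ k := by
    rw [Filter.eventually_all]
    intro s
    by_cases hs : P s
    · exact Filter.Eventually.of_forall fun k h => absurd hs h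
    · have hb : 0 < u w₀ (B * A) := (hv w₀ hw₀).pos hBA0
      have hr0 : 0 ≤ u w₀ (s (B * A)) / u w₀ (B * A) := div_nonneg ((hv w₀ hw₀).nonneg _) hb.le
      have hr1 : u w₀ (s (B * A)) / u w₀ (B * A) < 1 := (div_lt_one hb).2 (h3 s hs)
      have ht := (tendsto_pow_atTop_nhds_zero_of_lt_one hr0 hr1).const_mul (u w₀ (s q))
      rw [mul_zero] at ht
      filter_upwards [ht.eventually_lt_const ((hv w₀ hw₀).pos hq)] with k hk _
      have hbk : 0 < u w₀ (B * A) ^ k := pow_pos hb k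
      have e1 := mul_lt_mul_of_pos_right hk hbk
      rw [div_pow] at e1
      have e2 : u w₀ (s q) * (u w₀ (s (B * A)) ^ k / u w₀ (B * A) ^ k) * u w₀ (B * A) ^ k =
          u w₀ (s q) * u w₀ (s (B * A)) ^ k := by
        rw [mul_assoc, div_mul_cancel₀ _ hbk.ne']
      rwa [e2] at e1
  obtain ⟨k, hk⟩ := h4.exists
  set z : L := q * (B * A) ^ k with hz
  have hz0 : z ≠ 0 := mul_ne_zero hq (pow_ne_zero _ hBA0)
  have hzi : GInt g z := hqi.mul (hBAi.pow _)
  have h5 : ∀ s, ¬ P s → Real.log (u w₀ (s z)) < Real.log (u w₀ z) := by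
    intro s hs
    refine Real.log_lt_log ((hv w₀ hw₀).pos (hsne s hz0)) ?_
    rw [hz, map_mul, map_pow, (hv w₀ hw₀).mul, (hv w₀ hw₀).pow, (hv w₀ hw₀).mul,
      (hv w₀ hw₀).pow]
    exact hk s hs
  have h6 : ∀ᶠ w in nhds w₀, w ∈ Γ ∧ ∀ s : L ≃ₐ[F] L, ¬ P s →
      Real.log (u w (s z)) < Real.log (u w z) := by
    have hΓn : Γ ∈ nhds w₀ := hΓ.mem_nhds hw₀
    refine Filter.Eventually.and hΓn ?_
    rw [Filter.eventually_all]
    intro s
    by_cases hs : P s
    · exact Filter.Eventually.of_forall fun k h => absurd hs h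
    · filter_upwards [ContinuousAt.eventually_lt ((hcont _ (hsne s hz0)).continuousAt hΓn)
        ((hcont _ hz0).continuousAt hΓn) (h5 s hs)] with w hw _
      exact hw
  obtain ⟨ε, hε, hball⟩ := Metric.nhds_basis_ball.eventually_iff.1 h6
  obtain ⟨c, hc, hcz⟩ := exists_spectral hi hF hz0 hzi
  refine ⟨ε, hε, fun w hw => (hball hw).1, ?_⟩
  -- (5)
  have h7 : ConvexOn ℝ (Metric.ball w₀ ε) (fun w => c w + (-(k : ℝ)) * lin M w) := by
    refine (hc.subset (Set.subset_univ _) (convex_ball _ _)).add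
      ⟨convex_ball _ _, fun x _ y _ a b _ _ _ => le_of_eq ?_⟩
    show -(k : ℝ) * lin M (a • x + b • y) =
      a * (-(k : ℝ) * lin M x) + b * (-(k : ℝ) * lin M y)
    rw [lin_add_right, lin_smul_right, lin_smul_right]
    ring
  refine h7.congr fun w hw => ?_
  have hwΓ : w ∈ Γ := (hball hw).1
  have e1 : Real.log (u w z) = c w := by
    refine hcz w (u w) (hu w hwΓ) fun s => ?_
    by_cases hs : P s
    · exact (h1 s hs w hwΓ z).le
    · exact ((Real.log_lt_log_iff ((hv w hwΓ).pos (hsne s hz0)) ((hv w hwΓ).pos hz0)).1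
        ((hball hw).2 s hs)).le
  have e2 : Real.log (u w z) = Real.log (u w q) + k * lin M w := by
    rw [hz, (hv w hwΓ).mul, (hv w hwΓ).pow, Real.log_mul ((hv w hwΓ).ne_zero hq)
      (pow_ne_zero _ ((hv w hwΓ).ne_zero hBA0)), Real.log_pow, hM w hwΓ]
  show c w + (-(k : ℝ)) * lin M w = Real.log (u w q)
  rw [← e1, e2]
  ring

end Pool.Agent.DAE
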