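import Pool.Agent.DAE.S.Lin
import Pool.Agent.DAE.X.Tame
import Pool.Agent.DAE.X.Frac

/-!
# Block S, package b2: existence of monomial absolute values with given weights

PROOF of `exists_nabs_poly`. `r i > 0`. `W m = ∏ r i ^ m i` (positive, `W (m + m') = W m * W m'`).
`u P = 0` for `P = 0` and the maximum of `W m` over `m ∈ P.support` for `P ≠ 0` (`Finset.sup'`).
Ultrametric: `support_add`. Nonneg, definite, `nat`: clear (`(n : Poly d) = C n`). Multiplicative:
`u (P Q) ≤ u P * u Q` is clear from `support_mul`. `≥`: let `P'`, `Q'` be the sums of the terms of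
maximal weight `α = u P`, `β = u Q`; `P' Q' ≠ 0` (domain); take `m ∈ (P' Q').support`, `W m = α β`. The
coefficient of `m` in `P Q` equals that in `P' Q'`: the other pairs `(a, b)`, `a + b = m`, have
`W a * W b = α β` with `W a ≤ α`, `W b ≤ β`, so `W a = α`, `W b = β` and `a, b` are monomials of `P'`, `Q'`.
So `m ∈ (P Q).support`. (`cmp`, `coeff_cmp`, `isHomW_cmp` of `SepDefs` may help.)

PROOF of `exists_over`. `r i = exp (w i)`. `aeval g : Poly d → F` is injective (`hi`) and makes `F` the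
fraction field of `Poly d` (`hF`): introduce `Algebra (Poly d) F := (aeval g).toAlgebra` and prove
`IsFractionRing (Poly d) F` locally. `NAbs.exists_frac` extends `u` to `F` and `NAbs.exists_ext` to `L`
(algebraic over `F`). `InX.mono` : `v (F(g)) = u F ≥ W m`; `const`: `u (C c) = 1` (from `mono` for `c` and
`c⁻¹`).
-/

set_option autoImplicit false

namespace Pool.Agent.DAE

open MvPolynomial

open Classical in
/-- the maximum of the weights of the monomials -/
private noncomputable def exUu {d : ℕ} (r : Fin d → ℝ) (P : Poly d) : ℝ :=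
  if h : P.support.Nonempty then P.support.sup' h (wt r) else 0

private lemma exUu_zero {d : ℕ} (r : Fin d → ℝ) : exUu r 0 = 0 := by
  unfold exUu
  rw [dif_neg]
  simp

private lemma exUu_le_of {d : ℕ} {r : Fin d → ℝ} {P : Poly d} {C : ℝ} (hC : 0 ≤ C)
    (h : ∀ m ∈ P.support, wt r m ≤ C) : exUu r P ≤ C := by
  unfold exUu
  split_ifs with h0
  · exact Finset.sup'_le h0 _ h
  · exact hC

private lemma le_exUu {d : ℕ} {r : Fin d → ℝ} {P : Poly d} {m : Fin d →₀ ℕ}
    (hm : m ∈ P.support) : wt r m ≤ exUu r P := by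
  unfold exUu
  rw [dif_pos ⟨m, hm⟩]
  exact Finset.le_sup' _ hm

private lemma exUu_eq {d : ℕ} (r : Fin d → ℝ) {P : Poly d} (hP : P ≠ 0) :
    ∃ m ∈ P.support, exUu r P = wt r m := by
  have h : P.support.Nonempty := support_nonempty.2 hP
  unfold exUu
  rw [dif_pos h]
  obtain ⟨m, hm, h1⟩ := Finset.exists_mem_eq_sup' h (wt r)
  exact ⟨m, hm, h1⟩

private lemma exUu_pos {d : ℕ} {r : Fin d → ℝ} (hr : ∀ i, 0 < r i) {P : Poly d} (hP : P ≠ 0) :
    0 < exUu r P := by
  obtain ⟨m, -, h⟩ := exUu_eq r hP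
  rw [h]
  exact wt_pos hr m

private lemma exUu_nonneg {d : ℕ} {r : Fin d → ℝ} (hr : ∀ i, 0 < r i) (P : Poly d) :
    0 ≤ exUu r P := by
  rcases eq_or_ne P 0 with rfl | hP
  · rw [exUu_zero]
  · exact (exUu_pos hr hP).le

private lemma exUu_C {d : ℕ} (r : Fin d → ℝ) {c : ℂ} (hc : c ≠ 0) : exUu r (C c) = 1 := by
  have h0 : (C c : Poly d) ≠ 0 := (map_ne_zero_iff _ (C_injective _ _)).2 hc
  obtain ⟨m, hm, h⟩ := exUu_eq r h0
  rw [h]
  have hm0 : m = 0 := by
    rw [mem_support_iff, coeff_C] at hm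
    by_contra hne
    exact hm (if_neg fun h => hne h.symm)
  rw [hm0, wt_zero]

private lemma exUu_X {d : ℕ} (r : Fin d → ℝ) (i : Fin d) : exUu r (X i) = r i := by
  obtain ⟨m, hm, h⟩ := exUu_eq r (X_ne_zero i : (X i : Poly d) ≠ 0)
  rw [h]
  rw [support_X, Finset.mem_singleton] at hm
  rw [hm, wt_single, pow_one]

private lemma exUu_add {d : ℕ} {r : Fin d → ℝ} (hr : ∀ i, 0 < r i) (P Q : Poly d) :
    exUu r (P + Q) ≤ max (exUu r P) (exUu r Q) := by
  classical
  refine exUu_le_of (le_max_of_le_left (exUu_nonneg hr P)) fun m hm => ?_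
  rcases Finset.mem_union.1 (support_add hm) with h | h
  · exact le_max_of_le_left (le_exUu h)
  · exact le_max_of_le_right (le_exUu h)

private lemma exUu_mul_le {d : ℕ} {r : Fin d → ℝ} (hr : ∀ i, 0 < r i) (P Q : Poly d) :
    exUu r (P * Q) ≤ exUu r P * exUu r Q := by
  classical
  refine exUu_le_of (mul_nonneg (exUu_nonneg hr P) (exUu_nonneg hr Q)) fun m hm => ?_
  obtain ⟨a, ha, b, hb, rfl⟩ := Finset.mem_add.1 (support_mul P Q hm)
  rw [wt_add]
  exact mul_le_mul (le_exUu ha) (le_exUu hb) (wt_pos hr b).le (exUu_nonneg hr P)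

private lemma exUu_mul_ge {d : ℕ} {r : Fin d → ℝ} (hr : ∀ i, 0 < r i) {P Q : Poly d}
    (hP : P ≠ 0) (hQ : Q ≠ 0) : exUu r P * exUu r Q ≤ exUu r (P * Q) := by
  classical
  set α := exUu r P with hα
  set β := exUu r Q with hβ
  have hα0 : 0 < α := exUu_pos hr hP
  have hβ0 : 0 < β := exUu_pos hr hQ
  obtain ⟨p, hp, hp1⟩ := exUu_eq r hP
  obtain ⟨q, hq, hq1⟩ := exUu_eq r hQ
  have hP' : cmp r α P ≠ 0 := by
    intro h
    have h1 := coeff_cmp r α P p
    rw [h, coeff_zero, if_pos (hp1.symm.trans hα.symm)] at h1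
    exact mem_support_iff.1 hp h1.symm
  have hQ' : cmp r β Q ≠ 0 := by
    intro h
    have h1 := coeff_cmp r β Q q
    rw [h, coeff_zero, if_pos (hq1.symm.trans hβ.symm)] at h1
    exact mem_support_iff.1 hq h1.symm
  obtain ⟨m, hm⟩ := support_nonempty.2 (mul_ne_zero hP' hQ')
  obtain ⟨a, ha, b, hb, hab⟩ := Finset.mem_add.1 (support_mul _ _ hm)
  have hwm : wt r m = α * β := by
    rw [← hab, wt_add, isHomW_cmp r α P a ha, isHomW_cmp r β Q b hb]
  have hco : coeff m (P * Q) = coeff m (cmp r α P * cmp r β Q) := by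
    rw [coeff_mul, coeff_mul]
    refine Finset.sum_congr rfl fun x hx => ?_
    rw [Finset.HasAntidiagonal.mem_antidiagonal] at hx
    rw [coeff_cmp, coeff_cmp]
    by_cases hx1 : coeff x.1 P = 0
    · rw [hx1]
      simp
    by_cases hx2 : coeff x.2 Q = 0
    · rw [hx2]
      simp
    have h1 : wt r x.1 ≤ α := le_exUu (mem_support_iff.2 hx1)
    have h2 : wt r x.2 ≤ β := le_exUu (mem_support_iff.2 hx2)
    have h3 : wt r x.1 * wt r x.2 = α * β := by
      rw [← wt_add, hx, hwm]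
    have p1 := wt_pos hr x.1
    have p2 := wt_pos hr x.2
    have h4 : wt r x.1 = α := by
      refine le_antisymm h1 ?_
      by_contra hlt
      push Not at hlt
      have : wt r x.1 * wt r x.2 < α * β := by
        calc wt r x.1 * wt r x.2 < α * wt r x.2 := mul_lt_mul_of_pos_right hlt p2
          _ ≤ α * β := mul_le_mul_of_nonneg_left h2 hα0.le
      exact this.ne h3
    have h5 : wt r x.2 = β := by
      rw [h4] at h3
      exact mul_left_cancel₀ hα0.ne' h3
    rw [if_pos h4, if_pos h5]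
  have hm' : m ∈ (P * Q).support := by
    rw [mem_support_iff, hco]
    exact mem_support_iff.1 hm
  rw [← hwm]
  exact le_exUu hm'

theorem exists_nabs_poly {d : ℕ} (r : Fin d → ℝ) (hr : ∀ i, 0 < r i) :
    ∃ u : Poly d → ℝ, NAbs u ∧ (∀ i, u (X i) = r i) ∧
      ∀ P : Poly d, ∀ m ∈ P.support, ∏ i, r i ^ m i ≤ u P := by
  refine ⟨exUu r, ⟨exUu_nonneg hr, fun P h => ?_, exUu_zero r, fun P Q => ?_, exUu_add hr,
    fun n hn => ?_⟩, exUu_X r, fun P m hm => le_exUu hm⟩
  · by_contra h0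
    exact (exUu_pos hr h0).ne' h
  · rcases eq_or_ne P 0 with rfl | hP
    · rw [zero_mul, exUu_zero, zero_mul]
    rcases eq_or_ne Q 0 with rfl | hQ
    · rw [mul_zero, exUu_zero, mul_zero]
    exact le_antisymm (exUu_mul_le hr P Q) (exUu_mul_ge hr hP hQ)
  · have h1 : (n : Poly d) = C (n : ℂ) := by simp
    rw [h1]
    exact exUu_C r (Nat.cast_ne_zero.2 hn)

variable {F L : Type*} [Field F] [Field L] [Algebra ℂ F] [Algebra ℂ L] [Algebra F L]
  [IsScalarTower ℂ F L] {d : ℕ} {g : Fin d → F}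

theorem exists_over [Algebra.IsAlgebraic F L] (hi : AlgebraicIndependent ℂ g) (hF : Gen g)
    (w : Fin d → ℝ) : ∃ v : L → ℝ, Over g w v := by
  obtain ⟨u, hu, huX, hum⟩ := exists_nabs_poly (fun i => Real.exp (w i)) fun i => Real.exp_pos _
  let f : Poly d →ₐ[ℂ] F := aeval g
  have hf : Function.Injective f := hi
  let _ : Algebra (Poly d) F := (f : Poly d →+* F).toAlgebra
  have hmap : ∀ P : Poly d, algebraMap (Poly d) F P = aeval g P := fun P => rfl
  have hfaith : FaithfulSMul (Poly d) F := (faithfulSMul_iff_algebraMap_injective _ _).2 hf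
  have hfrac : IsFractionRing (Poly d) F := by
    refine IsFractionRing.of_field (Poly d) F fun z => ?_
    obtain ⟨P, Q, -, h⟩ := hF z
    exact ⟨P, Q, h⟩
  obtain ⟨u1, hu1, hu1v⟩ := hu.exists_frac (K := F)
  obtain ⟨v, hv, hvv⟩ := hu1.exists_ext (E := L)
  have key : ∀ P : Poly d, v (algebraMap F L (aeval g P)) = u P := fun P => by
    rw [hvv, ← hmap, hu1v]
  have hg : ∀ i, v (algebraMap F L (g i)) = Real.exp (w i) := fun i => by
    rw [← huX i, ← key, aeval_X]
  have hle : ∀ c : ℂ, c ≠ 0 → 1 ≤ u (C c) := by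
    intro c hc
    have h1 := hum (C c) 0 (by rw [mem_support_iff, coeff_C, if_pos rfl]; exact hc)
    simpa using h1
  have hC : ∀ c : ℂ, c ≠ 0 → u (C c) = 1 := by
    intro c hc
    have h1 := hle c hc
    have h2 := hle c⁻¹ (inv_ne_zero hc)
    have h3 : u (C c) * u (C c⁻¹) = 1 := by
      rw [← hu.mul, ← C_mul, mul_inv_cancel₀ hc, C_1, hu.one]
    nlinarith
  refine ⟨v, ⟨hv, fun c hc => ?_, fun P m hm => ?_⟩, fun i => ?_⟩
  · rw [IsScalarTower.algebraMap_apply ℂ F L, ← hC c hc, ← key, aeval_C]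
  · rw [key]
    simp only [hg]
    exact hum P m hm
  · rw [hg, Real.log_exp]

end Pool.Agent.DAE
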