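import Pool.Agent.DAE.S.Lin

/-!
# Block S, package b1: finitely many exponents

PROOF of `exists_exponents`. `q ≠ 0` is algebraic over `F` (`L/F` finite) and every element of `F` is a
fraction `aeval g P / aeval g Q` (`hF`); clearing denominators there are `B_0, ..., B_n ∈ Poly d`, not all
zero, with `∑ aeval g (B_j) q^j = 0` in `L`; by `hi`, `B_j = 0 ↔ aeval g B_j = 0`. Let `v` be over `w`.
Among the nonzero terms the maximal value is attained at least twice (else the sum would not be 0: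
`NAbs.sum_eq_of_dominated`; a single nonzero term is impossible): there are `j ≠ k` with
`v (B_j(g)) v(q)^j = v (B_k(g)) v(q)^k`. By `InX.exists_mono_eq` `v (B_j(g)) = ∏ v (g i)^(m i)`,
`v (B_k(g)) = ∏ v (g i)^(m' i)` with `m ∈ B_j.support`, `m' ∈ B_k.support`. So
`log v q = ∑_i (m i - m' i)/(k - j) * w i`. `Λ` = the finite set of all vectors
`i ↦ (m i - m' i)/(k - j)`, `j, k ≤ n`, `m ∈ B_j.support`, `m' ∈ B_k.support`.
`exists_expSet`: union over `T`.
-/

set_option autoImplicit false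
set_option linter.unusedSectionVars false

namespace Pool.Agent.DAE

open MvPolynomial

variable {F L : Type*} [Field F] [Field L] [Algebra ℂ F] [Algebra ℂ L] [Algebra F L]
  [IsScalarTower ℂ F L] {d : ℕ} {g : Fin d → F}

/-- an algebraic relation with coefficients in `ℂ[g]` -/
private lemma exists_relation [FiniteDimensional F L] (hF : Gen g) (q : L) :
    ∃ (n : ℕ) (B : ℕ → Poly d), (∃ j ∈ Finset.range (n + 1), aeval g (B j) ≠ 0) ∧
      ∑ j ∈ Finset.range (n + 1), algebraMap F L (aeval g (B j)) * q ^ j = 0 := by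
  classical
  have hq : IsIntegral F q := Algebra.IsIntegral.isIntegral q
  set p := minpoly F q with hp
  have hmon : p.Monic := minpoly.monic hq
  choose P Q hQ hPQ using fun j : ℕ => hF (p.coeff j)
  set s := Finset.range (p.natDegree + 1) with hs
  set D : F := ∏ i ∈ s, aeval g (Q i) with hD
  have hD0 : D ≠ 0 := Finset.prod_ne_zero_iff.2 fun i _ => hQ i
  have key : ∀ j ∈ s, aeval g (P j * ∏ i ∈ s.erase j, Q i) = p.coeff j * D := by
    intro j hj
    rw [map_mul, map_prod, hD, ← Finset.mul_prod_erase s _ hj, ← mul_assoc]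
    congr 1
    conv_rhs => rw [hPQ j]
    rw [div_mul_cancel₀ _ (hQ j)]
  refine ⟨p.natDegree, fun j => P j * ∏ i ∈ s.erase j, Q i, ⟨p.natDegree, ?_, ?_⟩, ?_⟩
  · exact Finset.self_mem_range_succ _
  · change aeval g (P p.natDegree * ∏ i ∈ s.erase p.natDegree, Q i) ≠ 0
    rw [key _ (Finset.self_mem_range_succ _), hmon.coeff_natDegree, one_mul]
    exact hD0
  · have h1 : ∑ j ∈ s, algebraMap F L (aeval g (P j * ∏ i ∈ s.erase j, Q i)) * q ^ j =
        algebraMap F L D * Polynomial.aeval q p := by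
      rw [Polynomial.aeval_eq_sum_range, Finset.mul_sum]
      refine Finset.sum_congr rfl fun j hj => ?_
      rw [key j hj, map_mul, Algebra.smul_def]
      ring
    rw [h1, hp, minpoly.aeval, mul_zero]

/-- logarithm of the value of a monomial -/
private lemma log_mono {g : Fin d → F} {w : Fin d → ℝ} {v : L → ℝ} (hg : ∀ i, g i ≠ 0)
    (h : Over g w v) (m : Fin d →₀ ℕ) :
    Real.log (∏ i, v (algebraMap F L (g i)) ^ m i) = ∑ i, (m i : ℝ) * w i := by
  rw [Real.log_prod fun i _ => pow_ne_zero _ (h.inX.gpos hg i).ne']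
  refine Finset.sum_congr rfl fun i _ => ?_
  rw [Real.log_pow, h.log i]

theorem exists_exponents [FiniteDimensional F L] (hi : AlgebraicIndependent ℂ g) (hF : Gen g)
    {q : L} (hq : q ≠ 0) : ∃ Λ : Finset (Fin d → ℝ), ∀ w (v : L → ℝ), Over g w v →
      ∃ l ∈ Λ, Real.log (v q) = lin l w := by
  classical
  have hg : ∀ i, g i ≠ 0 := fun i => hi.ne_zero i
  obtain ⟨n, B, ⟨j₀, hj₀, hne⟩, hsum⟩ := exists_relation hF q
  set t : ℕ → L := fun j => algebraMap F L (aeval g (B j)) * q ^ j with ht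
  have hinj : ∀ j, B j ≠ 0 → aeval g (B j) ≠ 0 := by
    intro j hj h0
    exact hj (hi (by rw [h0, map_zero]))
  set J := (Finset.range (n + 1)).filter fun j => B j ≠ 0 with hJ
  have hsumJ : ∑ j ∈ J, t j = 0 := by
    rw [hJ, Finset.sum_filter_of_ne]
    · exact hsum
    · intro j _ h hB
      apply h
      rw [ht]
      simp [hB]
  have hJne : J.Nonempty := by
    refine ⟨j₀, Finset.mem_filter.2 ⟨hj₀, fun h => hne ?_⟩⟩
    rw [h, map_zero]
  refine ⟨(J ×ˢ J).biUnion fun jk => ((B jk.1).support ×ˢ (B jk.2).support).image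
    fun mm => fun i => ((mm.1 i : ℝ) - mm.2 i) / ((jk.2 : ℝ) - jk.1), fun w v hv => ?_⟩
  have hn := hv.inX.nabs
  obtain ⟨j, hj, hmax⟩ := Finset.exists_max_image J (fun j => v (t j)) hJne
  have htpos : ∀ i ∈ J, 0 < v (t i) := by
    intro i hi'
    refine hn.pos (mul_ne_zero ?_ (pow_ne_zero _ hq))
    exact (map_ne_zero_iff _ (algebraMap F L).injective).2 (hinj i (Finset.mem_filter.1 hi').2)
  have hk : ∃ k ∈ J, k ≠ j ∧ v (t j) ≤ v (t k) := by
    by_contra hcon
    push Not at hcon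
    have h1 := hn.sum_eq_of_dominated hj fun i hi' hij => hcon i hi' hij
    rw [hsumJ, hn.zero] at h1
    exact absurd h1 (htpos j hj).ne
  obtain ⟨k, hk, hkj, hle⟩ := hk
  have heq : v (t j) = v (t k) := le_antisymm hle (hmax k hk)
  obtain ⟨m, hm, hvm, -⟩ := hv.inX.exists_mono_eq (Finset.mem_filter.1 hj).2
  obtain ⟨m', hm', hvm', -⟩ := hv.inX.exists_mono_eq (Finset.mem_filter.1 hk).2
  refine ⟨fun i => ((m i : ℝ) - m' i) / ((k : ℝ) - j), ?_, ?_⟩
  · refine Finset.mem_biUnion.2 ⟨(j, k), Finset.mk_mem_product hj hk, ?_⟩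
    exact Finset.mem_image.2 ⟨(m, m'), Finset.mk_mem_product hm hm', rfl⟩
  · have hlog : ∀ i ∈ J, Real.log (v (t i)) =
        Real.log (v (algebraMap F L (aeval g (B i)))) + i * Real.log (v q) := by
      intro i hi'
      rw [ht]
      simp only
      rw [hn.mul, hn.pow, Real.log_mul, Real.log_pow]
      · exact hn.ne_zero ((map_ne_zero_iff _ (algebraMap F L).injective).2
          (hinj i (Finset.mem_filter.1 hi').2))
      · exact pow_ne_zero _ (hn.ne_zero hq)
    have h1 := hlog j hj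
    have h2 := hlog k hk
    rw [hvm, log_mono hg hv m] at h1
    rw [hvm', log_mono hg hv m'] at h2
    rw [heq, h2] at h1
    have hkj' : ((k : ℝ) - j) ≠ 0 := by
      rw [sub_ne_zero]
      exact_mod_cast hkj
    have h3 : ((k : ℝ) - j) * Real.log (v q) = ∑ i, (m i : ℝ) * w i - ∑ i, (m' i : ℝ) * w i := by
      linarith
    have h4 : lin (fun i => ((m i : ℝ) - m' i) / ((k : ℝ) - j)) w =
        (∑ i, (m i : ℝ) * w i - ∑ i, (m' i : ℝ) * w i) / ((k : ℝ) - j) := by
      rw [lin, ← Finset.sum_sub_distrib, Finset.sum_div]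
      refine Finset.sum_congr rfl fun i _ => ?_
      ring
    rw [h4, ← h3, mul_div_cancel_left₀ _ hkj']

theorem exists_expSet [FiniteDimensional F L] (hi : AlgebraicIndependent ℂ g) (hF : Gen g)
    (T : Finset L) (hT : (0 : L) ∉ T) : ∃ Λ : Finset (Fin d → ℝ), ExpSet g T Λ := by
  classical
  have h : ∀ q : L, ∃ Λ : Finset (Fin d → ℝ), q ≠ 0 → ∀ w (v : L → ℝ), Over g w v →
      ∃ l ∈ Λ, Real.log (v q) = lin l w := by
    intro q
    by_cases hq : q = 0
    · exact ⟨∅, fun h => absurd hq h⟩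
    · obtain ⟨Λ, hΛ⟩ := exists_exponents hi hF hq
      exact ⟨Λ, fun _ => hΛ⟩
  choose Λ hΛ using h
  refine ⟨T.biUnion Λ, fun w v hv q hq => ?_⟩
  obtain ⟨l, hl, h1⟩ := hΛ q (fun h0 => hT (h0 ▸ hq)) w v hv
  exact ⟨l, Finset.mem_biUnion.2 ⟨q, hq, hl⟩, h1⟩

end Pool.Agent.DAE
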