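import Pool.Agent.DAE.R.FrameD
import Pool.Agent.DAE.X.Tame

/-!
# Block S, package d7: the Jacobian inequality for monomial valuations

PROOF. Let `u = ext h : KK d → ℝ` (`DAE/R/Basic`), `u (ι P) = mv h P`, `NAbs u` (`IsVal.nabs_ext`).
`D_k = dd g k` (`DAE/R/FrameD`: the derivation `∂/∂g_k` of `KK d`).
BOUND: `u (D_k y) * u (ι (g k)) ≤ u y`: for `y = ι (aeval g P)` every monomial `m` of `pderiv k P`
comes from the monomial `m + e_k` of `P`, so its value times `u (ι (g k))` is at most
`u (ι (aeval g P))` (`IsMono`); for `y ∈ FF g` by the quotient rule; for `KK d` by the tame lemma.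
DETERMINANTS: `det_pdK` gives `ι (jac P) = ι (jac g) * det (D_k (ι (P j)))`, and by the ultrametric
inequality over the permutations `u (det) * ∏_k u (ι (g k)) ≤ ∏_j u (ι (P j))`. Take logarithms.
-/

set_option autoImplicit false

namespace Pool.Agent.DAE

open MvPolynomial Pool.Agent.H17Dyn

variable {d : ℕ}

/-- a bound for a derivation on the numerators and denominators of a subfield gives a bound on
every algebraic extension -/
private lemma d7_core {F K : Type*} [Field F] [Field K] [Algebra F K] [Algebra.IsAlgebraic F K]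
    {u : K → ℝ} (hu : NAbs u) (D : Derivation ℤ K K) {c : ℝ}
    (hx : ∀ x : F, ∃ a b a' b' : F, b ≠ 0 ∧ x = a / b ∧
      D (algebraMap F K a) = algebraMap F K a' ∧ D (algebraMap F K b) = algebraMap F K b' ∧
      u (D (algebraMap F K a)) ≤ c * u (algebraMap F K a) ∧
      u (D (algebraMap F K b)) ≤ c * u (algebraMap F K b)) :
    ∀ y : K, u (D y) ≤ c * u y := by
  have hmul : ∀ a b : F, b ≠ 0 → algebraMap F K b * D (algebraMap F K (a / b)) =
      D (algebraMap F K a) - algebraMap F K (a / b) * D (algebraMap F K b) := by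
    intro a b hb
    have h1 : D (algebraMap F K a) = D (algebraMap F K (a / b) * algebraMap F K b) := by
      rw [← map_mul, div_mul_cancel₀ _ hb]
    rw [h1, D.leibniz, smul_eq_mul, smul_eq_mul]
    ring
  have hD : ∀ x : F, ∃ z : F, D (algebraMap F K x) = algebraMap F K z := by
    intro x
    obtain ⟨a, b, a', b', hb, rfl, ha', hb', -, -⟩ := hx x
    have hb1 : algebraMap F K b ≠ 0 := (map_ne_zero_iff _ (algebraMap F K).injective).2 hb
    refine ⟨(a' - a / b * b') / b, mul_left_cancel₀ hb1 ?_⟩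
    rw [hmul a b hb, ← map_mul, mul_div_cancel₀ _ hb, map_sub, map_mul, ← ha', ← hb']
  have hb : ∀ x : F, u (D (algebraMap F K x)) ≤ c * u (algebraMap F K x) := by
    intro x
    obtain ⟨a, b, a', b', hb, rfl, ha', hb', h1, h2⟩ := hx x
    have hb1 : algebraMap F K b ≠ 0 := (map_ne_zero_iff _ (algebraMap F K).injective).2 hb
    have hab : algebraMap F K (a / b) * algebraMap F K b = algebraMap F K a := by
      rw [← map_mul, div_mul_cancel₀ _ hb]
    have p := hu.pos hb1
    refine le_of_mul_le_mul_left ?_ p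
    rw [← hu.mul, hmul a b hb]
    refine (hu.sub _ _).trans (max_le (h1.trans (le_of_eq ?_)) ?_)
    · rw [← hab, hu.mul]
      ring
    · rw [hu.mul]
      calc u (algebraMap F K (a / b)) * u (D (algebraMap F K b))
          ≤ u (algebraMap F K (a / b)) * (c * u (algebraMap F K b)) :=
            mul_le_mul_of_nonneg_left h2 (hu.nonneg _)
        _ = _ := by ring
  choose f hf using hD
  have hi := (algebraMap F K).injective
  have ha : ∀ x y, f (x + y) = f x + f y := fun x y => hi (by
    rw [← hf, map_add, map_add, hf, hf, map_add])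
  have hm : ∀ x y, f (x * y) = x * f y + y * f x := fun x y => hi (by
    rw [← hf, map_mul, D.leibniz, smul_eq_mul, smul_eq_mul, hf, hf, map_add, map_mul, map_mul])
  let DF : Derivation ℤ F F := Derivation.mk' (AddMonoidHom.mk' f ha).toIntLinearMap fun x y => by
    rw [smul_eq_mul, smul_eq_mul]; exact hm x y
  refine tame hu D DF (fun x => hf x) fun x => ?_
  have h3 : algebraMap F K (DF x) = D (algebraMap F K x) := (hf x).symm
  rw [h3]
  exact hb x

private lemma d7_ne {g : Fin d → Poly d} (hfr : Frame g) (i : Fin d) : g i ≠ 0 := fun hi => by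
  have h1 := hfr.aeval_ne_zero (F := X i) (X_ne_zero i)
  rw [aeval_X] at h1
  exact h1 hi

/-- the bound on `ℂ[g]` -/
private lemma d7_poly {g : Fin d → Poly d} (hfr : Frame g) {h : Poly d → ℝ} (hh : IsVal h)
    (hm : IsMono g h) (k : Fin d) (F : Poly d) :
    ext h (dd g k (ι (aeval g F))) ≤ (mv h (g k))⁻¹ * ext h (ι (aeval g F)) := by
  classical
  have hv := hh.nabs_mv
  have hg0 := d7_ne hfr
  have hk : 0 < mv h (g k) := hv.pos (hg0 k)
  rw [dd_aeval hfr, ext_ι hh, ext_ι hh, le_inv_mul_iff₀ hk]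
  rcases eq_or_ne F 0 with rfl | hF0
  · simp only [map_zero, mv_zero, mul_zero, le_refl]
  have hF : aeval g F ≠ 0 := hfr.aeval_ne_zero hF0
  have h2 : aeval g (pderiv k F) =
      ∑ m ∈ (pderiv k F).support, C ((pderiv k F).coeff m) * ∏ i, g i ^ m i := by
    rw [aeval_def, eval₂_eq', algebraMap_eq]
  have h4 : mv h (aeval g (pderiv k F)) ≤ mv h (aeval g F) / mv h (g k) := by
    rw [h2]
    refine hv.sum_le (div_nonneg (mv_nonneg _ _) hk.le) fun m hmF => ?_
    have hc : (pderiv k F).coeff m ≠ 0 := mem_support_iff.1 hmF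
    rw [le_div_iff₀ hk, hv.mul, hh.mv_C hc, one_mul, hv.prod]
    have h3 : ∀ i ∈ Finset.univ, mv h (g i ^ m i) = Real.exp ((m i : ℝ) * h (g i)) :=
      fun i _ => by
        rw [hv.pow, mv_of_ne _ (hg0 i), ← Real.exp_nat_mul]
    rw [Finset.prod_congr rfl h3, ← Real.exp_sum, mv_of_ne _ hF, mv_of_ne _ (hg0 k),
      ← Real.exp_add]
    refine Real.exp_le_exp.2 ?_
    have hm' : m + Finsupp.single k 1 ∈ F.support := by
      rw [mem_support_iff]
      intro h0
      apply hc
      rw [coeff_pderiv, h0]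
      simp
    refine le_trans (le_of_eq ?_) (hm F _ hm')
    have h5 : ∀ i : Fin d, (((m + Finsupp.single k 1 : Fin d →₀ ℕ) i : ℕ) : ℝ) * h (g i) =
        (m i : ℝ) * h (g i) + if i = k then h (g k) else 0 := by
      intro i
      rw [Finsupp.add_apply, Nat.cast_add, add_mul]
      congr 1
      by_cases hik : i = k
      · subst hik
        rw [if_pos rfl, Finsupp.single_eq_same, Nat.cast_one, one_mul]
      · rw [if_neg hik, Finsupp.single_eq_of_ne hik, Nat.cast_zero, zero_mul]
    rw [Finset.sum_congr rfl fun i _ => h5 i, Finset.sum_add_distrib, Finset.sum_ite_eq' _ k,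
      if_pos (Finset.mem_univ k)]
  calc mv h (g k) * mv h (aeval g (pderiv k F))
      ≤ mv h (g k) * (mv h (aeval g F) / mv h (g k)) := mul_le_mul_of_nonneg_left h4 hk.le
    _ = mv h (aeval g F) := mul_div_cancel₀ _ hk.ne'

/-- the bound for `∂/∂g_k` -/
private lemma d7_bound {g : Fin d → Poly d} (hfr : Frame g) {h : Poly d → ℝ} (hh : IsVal h)
    (hm : IsMono g h) (k : Fin d) (y : KK d) :
    ext h (dd g k y) ≤ (mv h (g k))⁻¹ * ext h y := by
  have halg := hfr.isAlgebraic
  have hmem : ∀ F : Poly d, (ι (aeval g F) : KK d) ∈ FF g := fun F => mem_FF.2 ⟨F, 1, by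
    rw [map_one, map_one, div_one]⟩
  refine d7_core (F := FF g) (K := KK d) hh.nabs_ext (dd g k) (fun x => ?_) y
  have main : ∀ F G : Poly d, (ι (aeval g G) : KK d) ≠ 0 →
      (x : KK d) = ι (aeval g F) / ι (aeval g G) → ∃ a b a' b' : FF g, b ≠ 0 ∧ x = a / b ∧
      dd g k (algebraMap (FF g) (KK d) a) = algebraMap (FF g) (KK d) a' ∧
      dd g k (algebraMap (FF g) (KK d) b) = algebraMap (FF g) (KK d) b' ∧
      ext h (dd g k (algebraMap (FF g) (KK d) a)) ≤
        (mv h (g k))⁻¹ * ext h (algebraMap (FF g) (KK d) a) ∧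
      ext h (dd g k (algebraMap (FF g) (KK d) b)) ≤
        (mv h (g k))⁻¹ * ext h (algebraMap (FF g) (KK d) b) := by
    intro F G hG hx
    refine ⟨⟨_, hmem F⟩, ⟨_, hmem G⟩, ⟨_, hmem (pderiv k F)⟩, ⟨_, hmem (pderiv k G)⟩,
      fun h0 => hG (congrArg Subtype.val h0), Subtype.ext hx, dd_aeval hfr k F, dd_aeval hfr k G,
      d7_poly hfr hh hm k F, d7_poly hfr hh hm k G⟩
  obtain ⟨F, G, hFG⟩ := mem_FF.1 x.2
  by_cases hG : (ι (aeval g G) : KK d) = 0
  · refine main 0 1 (by rw [map_one, map_one]; exact one_ne_zero) ?_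
    rw [hFG, hG, div_zero, map_zero, map_zero, zero_div]
  · exact main F G hG hFG

theorem jac_ineq {g : Fin d → Poly d} (hfr : Frame g) {h : Poly d → ℝ} (hh : IsVal h)
    (hm : IsMono g h) (P : Fin d → Poly d) (hP : jac P ≠ 0) :
    h (jac P) + ∑ i, h (g i) ≤ (∑ i, h (P i)) + h (jac g) := by
  classical
  have hu := hh.nabs_ext
  have hv := hh.nabs_mv
  have hg0 := d7_ne hfr
  have hP0 : ∀ i, P i ≠ 0 := by
    intro i hi
    apply hP
    rw [jac]
    exact Matrix.det_eq_zero_of_column_eq_zero i fun j => by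
      rw [Matrix.of_apply, hi, map_zero]
  have hgp : ∀ i, 0 < mv h (g i) := fun i => hv.pos (hg0 i)
  have hprod : 0 < ∏ i, mv h (g i) := Finset.prod_pos fun i _ => hgp i
  have h1 : (ι (jac P) : KK d) =
      ι (jac g) * (Matrix.of fun i j => dd g i (ι (P j))).det := by
    rw [← det_pdK hfr, ← det_jmat]
    congr 1
    ext i j
    rw [Matrix.of_apply, pdK_ι]
    rfl
  have h2 : ext h (Matrix.of fun i j => dd g i (ι (P j))).det ≤
      (∏ j, mv h (P j)) / ∏ i, mv h (g i) := by
    rw [Matrix.det_apply']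
    refine hu.sum_le (div_nonneg (Finset.prod_nonneg fun i _ => mv_nonneg _ _) hprod.le)
      fun σ _ => ?_
    have hs : ext h (((Equiv.Perm.sign σ : ℤˣ) : ℤ) : KK d) = 1 := by
      rcases Int.units_eq_one_or (Equiv.Perm.sign σ) with h3 | h3
      · rw [h3, Units.val_one, Int.cast_one, hu.one]
      · rw [h3, Units.val_neg, Units.val_one, Int.cast_neg, Int.cast_one, hu.neg_one]
    rw [hu.mul, hs, one_mul, hu.prod]
    calc ∏ i, ext h ((Matrix.of fun i j => dd g i (ι (P j))) (σ i) i)
        ≤ ∏ i, ((mv h (g (σ i)))⁻¹ * mv h (P i)) := by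
          refine Finset.prod_le_prod (fun i _ => hu.nonneg _) fun i _ => ?_
          rw [Matrix.of_apply, ← ext_ι hh (P i)]
          exact d7_bound hfr hh hm (σ i) _
      _ = (∏ j, mv h (P j)) / ∏ i, mv h (g i) := by
          rw [Finset.prod_mul_distrib, Finset.prod_inv_distrib,
            Equiv.prod_comp σ fun i => mv h (g i), mul_comm, div_eq_mul_inv]
  have h3 : mv h (jac P) * ∏ i, mv h (g i) ≤ (∏ j, mv h (P j)) * mv h (jac g) := by
    rw [← ext_ι hh (jac P), h1, hu.mul, ext_ι hh]
    rw [le_div_iff₀ hprod] at h2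
    calc mv h (jac g) * ext h (Matrix.of fun i j => dd g i (ι (P j))).det * ∏ i, mv h (g i)
        = mv h (jac g) * (ext h (Matrix.of fun i j => dd g i (ι (P j))).det *
          ∏ i, mv h (g i)) := by ring
      _ ≤ mv h (jac g) * ∏ j, mv h (P j) := mul_le_mul_of_nonneg_left h2 (mv_nonneg _ _)
      _ = _ := mul_comm _ _
  rw [mv_of_ne _ hP, mv_of_ne _ hfr.jac_ne_zero,
    Finset.prod_congr rfl fun i _ => mv_of_ne h (hg0 i),
    Finset.prod_congr rfl fun i _ => mv_of_ne h (hP0 i), ← Real.exp_sum, ← Real.exp_sum,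
    ← Real.exp_add, ← Real.exp_add] at h3
  exact Real.exp_le_exp.1 h3

end Pool.Agent.DAE
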