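import Pool.Agent.DAE.S.Tower
import Pool.Agent.DAE.X.Tame

/-!
# Block S, package d9: points of `X` and monomial valuations of the polynomial ring

SETTING. `FF g ⊂ KK d ⊂ L`. `em P` is the image of `P : Poly d` in `L`.

PROOFS. (`isVal_of_inX`) `fun P => v (em P)` is `NAbs` (`NAbs.comp`), `isVal_log`; `IsMono`: `InX.mono` and
logarithms (`em (g i) = algebraMap (FF g) L (gF g i)`, `em (aeval g P) = algebraMap (FF g) L (aeval (gF g) P)`
by the scalar tower, `coe_aeval_gF`).
(`exists_inX`) `ext h` is an `NAbs` on `KK d` (`IsVal.nabs_ext`), extend it to `L` (`NAbs.exists_ext`);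
`const`: `ext h (ι (C c)) = 1`; `mono`: exponentiate `IsMono` (`aeval g P ≠ 0` for `P ≠ 0` by
`Frame.algInd`, `Frame.aeval_ne_zero`; `g i ≠ 0`).
(`gInt_em`) `Frame g` gives a monic equation of `P` over the image of `aeval g`; map it to `L`.
-/

set_option autoImplicit false
set_option linter.unusedSectionVars false

namespace Pool.Agent.DAE

open MvPolynomial Pool.Agent.H17Dyn

variable {d : ℕ} {g : Fin d → Poly d} {L : Type} [Field L] [Algebra ℂ L] [Algebra (KK d) L]
  [IsScalarTower ℂ (KK d) L]

/-- the image of a polynomial in `L` -/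
noncomputable def em (L : Type) [Field L] [Algebra (KK d) L] (P : Poly d) : L :=
  algebraMap (KK d) L (ι P)

theorem em_inj (L : Type) [Field L] [Algebra (KK d) L] :
    Function.Injective (em L : Poly d → L) :=
  (algebraMap (KK d) L).injective.comp ι_inj

theorem em_g (i : Fin d) : em L (g i) = algebraMap (FF g) L (gF g i) := by
  rw [IsScalarTower.algebraMap_apply (FF g) (KK d) L]
  rfl

private lemma pts_em_aeval (P : Poly d) :
    em L (aeval g P) = algebraMap (FF g) L (aeval (gF g) P) := by
  rw [IsScalarTower.algebraMap_apply (FF g) (KK d) L]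
  exact congrArg (algebraMap (KK d) L) (coe_aeval_gF g P).symm

private lemma pts_em_C (c : ℂ) : em L (C c : Poly d) = algebraMap ℂ L c := by
  rw [IsScalarTower.algebraMap_apply ℂ (KK d) L]
  rfl

/-- the ring homomorphism underlying `em` -/
private noncomputable def ptsHom (L : Type) [Field L] [Algebra (KK d) L] : Poly d →+* L :=
  (algebraMap (KK d) L).comp ι

private lemma ptsHom_inj (L : Type) [Field L] [Algebra (KK d) L] :
    Function.Injective (ptsHom L : Poly d → L) := em_inj L

private lemma pts_frame_ne (hfr : Frame g) (i : Fin d) : g i ≠ 0 := by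
  have h := hfr.aeval_ne_zero (F := (X i : Poly d)) (X_ne_zero i)
  rwa [aeval_X] at h

private lemma pts_em_ne (L : Type) [Field L] [Algebra (KK d) L] {P : Poly d} (hP : P ≠ 0) :
    em L P ≠ 0 := fun h => hP (em_inj L (by
      rw [h]
      exact (map_zero (ptsHom L)).symm))

/-- a point of `X` restricts to a monomial valuation of the polynomial ring. The hypothesis
`Frame g` is needed (all `g i` have to be nonzero). -/
theorem isVal_of_inX (hfr : Frame g) {v : L → ℝ} (hv : InX (gF g) v) :
    IsVal (fun P : Poly d => Real.log (v (em L P))) ∧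
      IsMono g (fun P : Poly d => Real.log (v (em L P))) := by
  refine ⟨isVal_log (hv.nabs.comp (ptsHom L) (ptsHom_inj L)) fun c hc => ?_, fun F m hm => ?_⟩
  · have h : v (em L (C c : Poly d)) = 1 := by
      rw [pts_em_C]
      exact hv.const c hc
    exact h
  · have h1 := hv.mono F m hm
    have hpos : ∀ i, 0 < v (em L (g i)) := fun i =>
      hv.nabs.pos (pts_em_ne L (pts_frame_ne hfr i))
    have h2 : ∑ i, (m i : ℝ) * Real.log (v (em L (g i))) =
        Real.log (∏ i, v (algebraMap (FF g) L (gF g i)) ^ m i) := by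
      rw [Real.log_prod fun i _ => by
        rw [← em_g]
        exact (pow_pos (hpos i) _).ne']
      refine Finset.sum_congr rfl fun i _ => ?_
      rw [Real.log_pow, em_g]
    change ∑ i, (m i : ℝ) * Real.log (v (em L (g i))) ≤ Real.log (v (em L (aeval g F)))
    rw [h2, pts_em_aeval]
    refine Real.log_le_log (Finset.prod_pos fun i _ => ?_) h1
    rw [← em_g]
    exact pow_pos (hpos i) _

theorem exists_inX (hfr : Frame g) [Algebra.IsAlgebraic (FF g) L] {h : Poly d → ℝ} (hh : IsVal h)
    (hm : IsMono g h) : ∃ v : L → ℝ, InX (gF g) v ∧ ∀ P, h P = Real.log (v (em L P)) := by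
  have hKL : Algebra.IsAlgebraic (KK d) L := Algebra.IsAlgebraic.tower_top (K := FF g) (KK d)
  obtain ⟨v, hv, hvx⟩ := hh.nabs_ext.exists_ext (E := L)
  have hem : ∀ P : Poly d, v (em L P) = mv h P := fun P => by
    unfold em
    rw [hvx, ext_ι hh]
  have hlog : ∀ P, h P = Real.log (v (em L P)) := fun P => by rw [hem, hh.log_mv]
  have hposg : ∀ i, 0 < v (em L (g i)) := fun i => hv.pos (pts_em_ne L (pts_frame_ne hfr i))
  refine ⟨v, ⟨hv, fun c hc => ?_, fun P m hm' => ?_⟩, hlog⟩
  · rw [← pts_em_C (d := d), hem]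
    exact hh.mv_C hc
  · have hP : P ≠ 0 := by
      rintro rfl
      simp at hm'
    have h1 := hm P m hm'
    have hne := hfr.aeval_ne_zero hP
    have h3 : ∏ i, v (algebraMap (FF g) L (gF g i)) ^ m i =
        Real.exp (∑ i, (m i : ℝ) * h (g i)) := by
      rw [Real.exp_sum]
      refine Finset.prod_congr rfl fun i _ => ?_
      rw [← em_g, Real.exp_nat_mul, hlog, Real.exp_log (hposg i)]
    rw [h3, ← pts_em_aeval, hem, mv_of_ne h hne]
    exact Real.exp_le_exp.2 h1

theorem gInt_em (hfr : Frame g) (P : Poly d) : GInt (gF g) (em L P) := by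
  obtain ⟨p, hp, h0⟩ := hfr P
  refine ⟨p, hp, ?_⟩
  have h1 : ((aeval fun i => algebraMap (FF g) L (gF g i) : Poly d →ₐ[ℂ] L) : Poly d →+* L) =
      (ptsHom L).comp (aeval g : Poly d →ₐ[ℂ] Poly d).toRingHom := by
    refine RingHom.ext fun F => ?_
    change aeval (fun i => algebraMap (FF g) L (gF g i)) F = em L (aeval g F)
    rw [pts_em_aeval, algebraMap_aeval]
  rw [h1]
  change Polynomial.eval₂ ((ptsHom L).comp (aeval g : Poly d →ₐ[ℂ] Poly d).toRingHom)
    (ptsHom L P) p = 0
  rw [← Polynomial.hom_eval₂, h0, map_zero]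

/-- **a finite Galois extension `L` of `ℂ(g)` which contains the rational functions**; the
structure of `FF g`-algebra on `L` is the one induced by `Algebra (KK d) L`
(`IntermediateField.instAlgebraSubtypeMem`). -/
theorem exists_tower (hfr : Frame g) :
    ∃ (L : Type) (_ : Field L) (_ : Algebra ℂ L) (_ : Algebra (KK d) L)
      (_ : IsScalarTower ℂ (KK d) L), FiniteDimensional (FF g) L ∧ IsGalois (FF g) L := by
  have hfin := finDim hfr
  have halg : Algebra.IsAlgebraic (FF g) (AlgebraicClosure (KK d)) :=
    Algebra.IsAlgebraic.trans (FF g) (KK d) (AlgebraicClosure (KK d))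
  have hN : Normal (FF g) (AlgebraicClosure (KK d)) := by
    have : IsAlgClosure (FF g) (AlgebraicClosure (KK d)) := ⟨inferInstance, halg⟩
    exact IsAlgClosure.normal (FF g) (AlgebraicClosure (KK d))
  let N := IntermediateField.normalClosure (FF g) (KK d) (AlgebraicClosure (KK d))
  have h2 : IsScalarTower ℂ (KK d) N := by
    refine IsScalarTower.of_algebraMap_eq fun c => ?_
    apply (algebraMap N (AlgebraicClosure (KK d))).injective
    rfl
  have h3 : @FiniteDimensional (FF g) N _ _ N.module' :=
    normalClosure.is_finiteDimensional (FF g) (KK d) (AlgebraicClosure (KK d))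
  have h4 : @Normal (FF g) N _ _ N.algebra' :=
    normalClosure.normal (FF g) (KK d) (AlgebraicClosure (KK d))
  have hA : (N.algebra' : Algebra (FF g) N) =
      (FF g).instAlgebraSubtypeMem (E := N) := by
    refine Algebra.algebra_ext _ _ fun r => ?_
    apply (algebraMap N (AlgebraicClosure (KK d))).injective
    rfl
  have h5 : @FiniteDimensional (FF g) N _ _
      ((FF g).instAlgebraSubtypeMem (E := N)).toModule := by
    rw [← hA]
    exact h3
  have h6 : @Normal (FF g) N _ _ ((FF g).instAlgebraSubtypeMem (E := N)) := by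
    rw [← hA]
    exact h4
  refine ⟨N, inferInstance, inferInstance, inferInstance, h2, h5, ?_⟩
  have h7 : @Algebra.IsSeparable (FF g) N _ _ ((FF g).instAlgebraSubtypeMem (E := N)) :=
    inferInstance
  exact { to_isSeparable := h7, to_normal := h6 }

end Pool.Agent.DAE
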