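import Pool.Agent.DAE.S.SepIdeal

/-!
# Block S, part (c): algebraic relations modulo the ideal of the initial forms
-/

set_option autoImplicit false

namespace Pool.Agent.DAE

open MvPolynomial

variable {F L : Type*} [Field F] [Field L] [Algebra ℂ F] [Algebra ℂ L] [Algebra F L]
  [IsScalarTower ℂ F L] [FiniteDimensional F L] {d : ℕ} {g : Fin d → F}
  {κ : Type*} [Fintype κ] {δ : κ → L}

omit [Algebra ℂ L] [IsScalarTower ℂ F L] [FiniteDimensional F L] [Field L] [Algebra F L] in
/-- a common denominator -/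
private theorem sepRel_denom (hF : Gen g) (s : Finset ℕ) (f : ℕ → F) :
    ∃ (Q : MvPolynomial (Fin d) ℂ) (P : ℕ → MvPolynomial (Fin d) ℂ), aeval g Q ≠ 0 ∧
      ∀ j ∈ s, aeval g (P j) = aeval g Q * f j := by
  classical
  induction s using Finset.induction_on with
  | empty => exact ⟨1, fun _ => 0, by rw [map_one]; exact one_ne_zero, fun j hj => by simp at hj⟩
  | insert a s ha ih =>
    obtain ⟨Q, P, hQ, hP⟩ := ih
    obtain ⟨P₁, Q₁, hQ₁, h₁⟩ := hF (f a)
    refine ⟨Q * Q₁, fun j => if j = a then Q * P₁ else P j * Q₁, ?_, fun j hj => ?_⟩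
    · rw [map_mul]
      exact mul_ne_zero hQ hQ₁
    · rcases Finset.mem_insert.1 hj with h | h
      · subst h
        simp only [if_true]
        rw [map_mul, map_mul, h₁]
        field_simp
      · have hja : j ≠ a := fun h' => ha (h' ▸ h)
        simp only [if_neg hja]
        rw [map_mul, map_mul, hP j h]
        ring

/-- the exponent of the image of a pair -/
private noncomputable def sepMu (gi : Fin d → κ) (k : κ) (t : Σ _ : ℕ, Fin d →₀ ℕ) : κ →₀ ℕ :=
  Finsupp.mapDomain gi t.2 + Finsupp.single k t.1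

omit [Fintype κ] in
private theorem sepRel_eval (gi : Fin d → κ) (k : κ) (U : Finset (Σ _ : ℕ, Fin d →₀ ℕ))
    (c : (Σ _ : ℕ, Fin d →₀ ℕ) → ℂ) :
    Polynomial.eval₂ ((rename gi : MvPolynomial (Fin d) ℂ →ₐ[ℂ] MvPolynomial κ ℂ) :
          MvPolynomial (Fin d) ℂ →+* MvPolynomial κ ℂ) (X k)
      (∑ t ∈ U, Polynomial.monomial t.1 (monomial t.2 (c t))) =
      ∑ t ∈ U, monomial (sepMu gi k t) (c t) := by
  rw [Polynomial.eval₂_finsetSum]
  refine Finset.sum_congr rfl fun t _ => ?_
  rw [Polynomial.eval₂_monomial]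
  change rename gi (monomial t.2 (c t)) * X k ^ t.1 = _
  rw [rename_monomial, X_pow_eq_monomial, monomial_mul, mul_one]
  rfl

/-- Relations. `x = δ k` is algebraic over `F`; clear the denominators (`Gen g`): a nonzero
`R : Polynomial (MvPolynomial (Fin d) ℂ)` with `∑ j, (R.coeff j)(g) * x ^ j = 0`. `S` is the set of
all polynomials which one gets by restricting `R` to a subset of the finite set of pairs `(m, j)`,
`m ∈ (R.coeff j).support`. For `v` let `γ` be the largest weight `wt m * v x ^ j` of the pairs and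
`R'` the restriction to the pairs with weight `γ`: nonzero, its image in `MvPolynomial κ ℂ` is
homogeneous of weight `γ`, and its value is less than `γ` because it is minus the value of the
restriction to the other pairs; `inI_iff`. -/
theorem exists_relation (hg : ∀ i, g i ≠ 0) (hF : Gen g) (hδ : ∀ k, δ k ≠ 0) {gi : Fin d → κ}
    (hgi : ∀ i, δ (gi i) = algebraMap F L (g i)) (k : κ) :
    ∃ S : Finset (Polynomial (MvPolynomial (Fin d) ℂ)), ∀ v : L → ℝ, InX g v →
      ∃ R ∈ S, R ≠ 0 ∧ InI v δ (Polynomial.eval₂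
        ((rename gi : MvPolynomial (Fin d) ℂ →ₐ[ℂ] MvPolynomial κ ℂ) :
          MvPolynomial (Fin d) ℂ →+* MvPolynomial κ ℂ) (X k) R) := by
  classical
  obtain ⟨p, hp0, hp⟩ := (Algebra.IsAlgebraic.isAlgebraic (R := F) (δ k))
  obtain ⟨Q, P, hQ, hP⟩ := sepRel_denom hF p.support p.coeff
  set T : Finset (Σ _ : ℕ, Fin d →₀ ℕ) := p.support.sigma fun j => (P j).support with hT
  set c : (Σ _ : ℕ, Fin d →₀ ℕ) → ℂ := fun t => coeff t.2 (P t.1) with hc
  have hcT : ∀ t ∈ T, c t ≠ 0 := by
    intro t ht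
    rw [hT, Finset.mem_sigma] at ht
    exact mem_support_iff.1 ht.2
  have hTne : T.Nonempty := by
    obtain ⟨j, hj⟩ := Polynomial.nonempty_support_iff.2 hp0
    have h1 : P j ≠ 0 := by
      intro h
      have h2 := hP j hj
      rw [h, map_zero] at h2
      exact mul_ne_zero hQ (Polynomial.mem_support_iff.1 hj) h2.symm
    obtain ⟨m, hm⟩ := support_nonempty.2 h1
    exact ⟨⟨j, m⟩, Finset.mem_sigma.2 ⟨hj, hm⟩⟩
  let rel : Finset (Σ _ : ℕ, Fin d →₀ ℕ) → Polynomial (MvPolynomial (Fin d) ℂ) := fun U =>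
    ∑ t ∈ U, Polynomial.monomial t.1 (monomial t.2 (c t))
  have hrelT : rel T = ∑ j ∈ p.support, Polynomial.monomial j (P j) := by
    change ∑ t ∈ T, _ = _
    rw [hT, Finset.sum_sigma]
    refine Finset.sum_congr rfl fun j _ => ?_
    change ∑ m ∈ (P j).support, Polynomial.monomial j (monomial m (coeff m (P j))) = _
    rw [← map_sum, support_sum_monomial_coeff]
  have hval : ∑ t ∈ T, aeval δ (monomial (sepMu gi k t) (c t)) = 0 := by
    rw [← map_sum, ← sepRel_eval, show ∑ t ∈ T, Polynomial.monomial t.1 (monomial t.2 (c t)) =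
      rel T from rfl, hrelT, Polynomial.eval₂_finsetSum, map_sum]
    have h1 : ∀ j ∈ p.support, aeval δ (Polynomial.eval₂
        ((rename gi : MvPolynomial (Fin d) ℂ →ₐ[ℂ] MvPolynomial κ ℂ) :
          MvPolynomial (Fin d) ℂ →+* MvPolynomial κ ℂ) (X k) (Polynomial.monomial j (P j))) =
        algebraMap F L (aeval g Q) * (algebraMap F L (p.coeff j) * δ k ^ j) := by
      intro j hj
      rw [Polynomial.eval₂_monomial, map_mul, map_pow, aeval_X]
      change aeval δ (rename gi (P j)) * δ k ^ j = _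
      rw [aeval_rename]
      have h2 : (δ ∘ gi) = fun i => algebraMap F L (g i) := funext hgi
      rw [h2]
      have h3 : aeval (fun i => algebraMap F L (g i)) (P j) = algebraMap F L (aeval g (P j)) :=
        MvPolynomial.aeval_algebraMap_apply _ _ _
      rw [h3, hP j hj, map_mul]
      ring
    rw [Finset.sum_congr rfl h1, ← Finset.mul_sum]
    have h2 : ∑ j ∈ p.support, algebraMap F L (p.coeff j) * δ k ^ j =
        Polynomial.aeval (δ k) p := by
      rw [Polynomial.aeval_def, Polynomial.eval₂_eq_sum, Polynomial.sum]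
    rw [h2, hp, mul_zero]
  refine ⟨T.powerset.image rel, fun v hv => ?_⟩
  set w : κ → ℝ := fun k => v (δ k) with hw
  have hwpos : ∀ k, 0 < w k := fun k => hv.nabs.pos (hδ k)
  set ω : (Σ _ : ℕ, Fin d →₀ ℕ) → ℝ := fun t => wt w (sepMu gi k t) with hω
  have hterm : ∀ t ∈ T, v (aeval δ (monomial (sepMu gi k t) (c t))) = ω t := fun t ht =>
    hv.cabs.aeval_monomial δ _ (hcT t ht)
  obtain ⟨t₀, ht₀, hmax⟩ := T.exists_max_image ω hTne
  set γ := ω t₀ with hγ
  have hγ0 : 0 < γ := wt_pos hwpos _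
  set U := T.filter (fun t => ω t = γ) with hU
  have hUT : U ⊆ T := Finset.filter_subset _ _
  refine ⟨rel U, Finset.mem_image.2 ⟨U, Finset.mem_powerset.2 hUT, rfl⟩, ?_, ?_⟩
  · intro h0
    have h1 := congrArg (fun R : Polynomial (MvPolynomial (Fin d) ℂ) =>
      coeff t₀.2 (R.coeff t₀.1)) h0
    simp only [rel, Polynomial.finsetSum_coeff, coeff_sum, Polynomial.coeff_zero,
      coeff_zero] at h1
    rw [Finset.sum_eq_single t₀] at h1
    · rw [Polynomial.coeff_monomial, if_pos rfl, coeff_monomial, if_pos rfl] at h1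
      exact hcT t₀ ht₀ h1
    · intro t _ hne
      rw [Polynomial.coeff_monomial]
      by_cases h2 : t.1 = t₀.1
      · rw [if_pos h2, coeff_monomial, if_neg]
        intro h3
        apply hne
        exact Sigma.ext h2 (heq_of_eq h3)
      · rw [if_neg h2, coeff_zero]
    · intro h2
      exact absurd (Finset.mem_filter.2 ⟨ht₀, hγ.symm⟩) h2
  · change InI v δ (Polynomial.eval₂ _ (X k) (∑ t ∈ U, _))
    rw [sepRel_eval, inI_iff hv.cabs hγ0]
    · rw [map_sum]
      have h1 : ∑ t ∈ U, aeval δ (monomial (sepMu gi k t) (c t)) =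
          -∑ t ∈ T \ U, aeval δ (monomial (sepMu gi k t) (c t)) := by
        rw [eq_neg_iff_add_eq_zero, add_comm, Finset.sum_sdiff hUT, hval]
      rw [h1, hv.nabs.neg]
      refine hv.nabs.sum_lt hγ0 fun t ht => ?_
      obtain ⟨ht1, ht2⟩ := Finset.mem_sdiff.1 ht
      rw [hterm t ht1]
      refine lt_of_le_of_ne (hmax t ht1) fun h => ht2 (Finset.mem_filter.2 ⟨ht1, h⟩)
    · intro m hm
      obtain ⟨t, ht, hmt⟩ := Finset.mem_biUnion.1 (support_sum hm)
      have h2 := support_monomial_subset hmt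
      rw [Finset.mem_singleton] at h2
      rw [h2]
      exact (Finset.mem_filter.1 ht).2

end Pool.Agent.DAE
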