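import Pool.Agent.DAE.S.SepLim
import Pool.Agent.DAE.S.SepRel

/-!
# Block S, part (c): the ideals of the initial forms are constant almost everywhere
-/

set_option autoImplicit false

namespace Pool.Agent.DAE

open MvPolynomial

variable {F L : Type*} [Field F] [Field L] [Algebra ℂ F] [Algebra ℂ L] [Algebra F L]
  [IsScalarTower ℂ F L] [FiniteDimensional F L] {d : ℕ} {g : Fin d → F}
  {κ : Type*} [Fintype κ] {δ : κ → L}

/-- (S5). For almost all `i` the ideal of `v i` is the limit ideal `J`. Proof. `J` is finitely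
generated (`Ideal.fg_of_isNoetherianRing`), the generators are in the ideal of `v i` for
almost all `i`; so `J ≤ J i` almost everywhere. `J` contains no nonzero `rename gi P`
(`InX.not_inI_rename` for one `i`). By `exists_relation` and
`Ultrafilter.eventually_exists_mem_iff` for every `k` there is one `R ≠ 0` with
`eval₂ (rename gi) (X k) R ∈ J`, so the class of `X k` in `MvPolynomial κ ℂ ⧸ J` is algebraic over
`MvPolynomial (Fin d) ℂ`, so all classes are (`Subalgebra.algebraicClosure`,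
`MvPolynomial.induction_on`). If `P ∈ J i` and `P ∉ J` then
`Ideal.exists_coeff_mem_comap_sdiff_comap_of_root_mem_sdiff` gives a nonzero polynomial `r` with
`rename gi r ∈ J i`, contradiction. -/
theorem eventually_inI {I : Type*} (U : Ultrafilter I) {v : I → L → ℝ} (hv : ∀ i, InX g (v i))
    (hg : ∀ i, g i ≠ 0) (hF : Gen g) (hδ : ∀ k, δ k ≠ 0) {gi : Fin d → κ}
    (hinj : Function.Injective gi) (hgi : ∀ i, δ (gi i) = algebraMap F L (g i))
    {J : Ideal (MvPolynomial κ ℂ)} (hJp : J.IsPrime)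
    (hJ : ∀ P, P ∈ J ↔ ∀ᶠ i in (U : Filter I), InI (v i) δ P) :
    ∀ᶠ i in (U : Filter I), ∀ P, P ∈ J ↔ InI (v i) δ P := by
  classical
  have hJp' : J.IsPrime := hJp
  set f : MvPolynomial (Fin d) ℂ →+* MvPolynomial κ ℂ :=
    ((rename gi : MvPolynomial (Fin d) ℂ →ₐ[ℂ] MvPolynomial κ ℂ) :
      MvPolynomial (Fin d) ℂ →+* MvPolynomial κ ℂ) with hf
  have hfr : ∀ P, f P = rename gi P := fun P => rfl
  -- the ideal contains no polynomial in the variables of `g`
  have hbot : J.comap f = ⊥ := by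
    rw [eq_bot_iff]
    intro P hP
    rw [Ideal.mem_comap, hJ] at hP
    obtain ⟨i, hi⟩ := hP.exists
    rw [Ideal.mem_bot]
    by_contra hne
    exact (hv i).not_inI_rename hg hinj hgi hne hi
  -- algebraic relations
  have hrel : ∀ k : κ, ∃ R : Polynomial (MvPolynomial (Fin d) ℂ), R ≠ 0 ∧
      Polynomial.eval₂ f (X k) R ∈ J := by
    intro k
    obtain ⟨S, hS⟩ := exists_relation (F := F) (L := L) hg hF hδ hgi k
    have h1 : ∀ᶠ i in (U : Filter I), ∃ R ∈ (S : Set (Polynomial (MvPolynomial (Fin d) ℂ))),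
        R ≠ 0 ∧ InI (v i) δ (Polynomial.eval₂ f (X k) R) :=
      Filter.Eventually.of_forall fun i => by
        obtain ⟨R, hR, hR0, hRI⟩ := hS (v i) (hv i)
        exact ⟨R, Finset.mem_coe.2 hR, hR0, hRI⟩
    rw [Ultrafilter.eventually_exists_mem_iff (Finset.finite_toSet S)] at h1
    obtain ⟨R, -, hR⟩ := h1
    obtain ⟨i, hi⟩ := hR.exists
    exact ⟨R, hi.1, (hJ _).2 (hR.mono fun i hi => hi.2)⟩
  -- every class is algebraic
  have halg : ∀ P : MvPolynomial κ ℂ, ∃ R : Polynomial (MvPolynomial (Fin d) ℂ), R ≠ 0 ∧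
      Polynomial.eval₂ f P R ∈ J := by
    let _ : Algebra (MvPolynomial (Fin d) ℂ) (MvPolynomial κ ℂ ⧸ J) :=
      ((Ideal.Quotient.mk J).comp f).toAlgebra
    have hmap : algebraMap (MvPolynomial (Fin d) ℂ) (MvPolynomial κ ℂ ⧸ J) =
      (Ideal.Quotient.mk J).comp f := rfl
    have hiff : ∀ (P : MvPolynomial κ ℂ) (R : Polynomial (MvPolynomial (Fin d) ℂ)),
        Polynomial.aeval (Ideal.Quotient.mk J P) R = 0 ↔ Polynomial.eval₂ f P R ∈ J := by
      intro P R
      rw [Polynomial.aeval_def, hmap, ← Polynomial.hom_eval₂, Ideal.Quotient.eq_zero_iff_mem]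
    have hall : ∀ P : MvPolynomial κ ℂ, Ideal.Quotient.mk J P ∈
        Subalgebra.algebraicClosure (MvPolynomial (Fin d) ℂ) (MvPolynomial κ ℂ ⧸ J) := by
      intro P
      induction P using MvPolynomial.induction_on with
      | C c =>
        have h : Ideal.Quotient.mk J (C c) =
            algebraMap (MvPolynomial (Fin d) ℂ) (MvPolynomial κ ℂ ⧸ J) (C c) := by
          rw [hmap, RingHom.comp_apply, hfr, rename_C]
        rw [h]
        exact Subalgebra.algebraMap_mem _ _
      | add p q hp hq =>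
        rw [map_add]
        exact Subalgebra.add_mem _ hp hq
      | mul_X p k hp =>
        rw [map_mul]
        refine Subalgebra.mul_mem _ hp ?_
        obtain ⟨R, hR0, hR⟩ := hrel k
        rw [Subalgebra.mem_algebraicClosure]
        exact ⟨R, hR0, (hiff _ _).2 hR⟩
    intro P
    have h := hall P
    rw [Subalgebra.mem_algebraicClosure] at h
    obtain ⟨R, hR0, hR⟩ := h
    exact ⟨R, hR0, (hiff _ _).1 hR⟩
  -- the generators of `J`
  obtain ⟨s, hs⟩ := Ideal.fg_of_isNoetherianRing J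
  have hev : ∀ᶠ i in (U : Filter I), ∀ P ∈ s, InI (v i) δ P := by
    rw [Filter.eventually_all_finset]
    intro P hP
    rw [← hJ, ← hs]
    exact Ideal.subset_span hP
  filter_upwards [hev] with i hi
  obtain ⟨Ji, hJip, hJi⟩ := exists_ideal (δ := δ) (hv i).cabs hδ
  have hle : J ≤ Ji := by
    rw [← hs, Ideal.span_le]
    intro P hP
    exact (hJi P).2 (hi P hP)
  intro P
  refine ⟨fun h => (hJi P).1 (hle h), fun h => ?_⟩
  by_contra hPJ
  obtain ⟨R, hR0, hR⟩ := halg P
  have hmapne : R.map (Ideal.Quotient.mk (J.comap f)) ≠ 0 := by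
    rw [Ne, Polynomial.map_eq_zero_iff]
    · exact hR0
    · rw [RingHom.injective_iff_ker_eq_bot, Ideal.mk_ker, hbot]
  obtain ⟨n, hn1, hn2⟩ := Ideal.exists_coeff_mem_comap_sdiff_comap_of_root_mem_sdiff (f := f) hle
    (r := P) ⟨(hJi P).2 h, hPJ⟩ hmapne hR
  have hne : R.coeff n ≠ 0 := by
    intro h0
    apply hn2
    rw [h0]
    exact Ideal.zero_mem _
  exact (hv i).not_inI_rename hg hinj hgi hne ((hJi _).1 hn1)

end Pool.Agent.DAE
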