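import Pool.Agent.DAE.X.NAbs

/-!
# Block S, part (c): an invariant polynomial which separates two points
-/

set_option autoImplicit false

namespace Pool.Agent.DAE

open MvPolynomial

section SfAux

variable {L H : Type*} [Field L] [Fintype H] {v : L → ℝ}

private def sf_Bd (v : L → ℝ) (x : H → L) (W : ℝ) (P : MvPolynomial H L) : Prop :=
  ∀ m, v (coeff m P) * ∏ t, v (x t) ^ m t ≤ W

private lemma sf_wt_pos (hv : NAbs v) {x : H → L} (hx : ∀ t, x t ≠ 0) (m : H →₀ ℕ) :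
    0 < ∏ t, v (x t) ^ m t :=
  Finset.prod_pos fun t _ => pow_pos (hv.pos (hx t)) _

private lemma sf_Bd_sum (hv : NAbs v) {x : H → L} (hx : ∀ t, x t ≠ 0) {W : ℝ} (hW : 0 ≤ W)
    {ι : Type*} (s : Finset ι) (P : ι → MvPolynomial H L) (h : ∀ i ∈ s, sf_Bd v x W (P i)) :
    sf_Bd v x W (∑ i ∈ s, P i) := by
  intro m
  have hw := sf_wt_pos hv hx m
  rw [coeff_sum, ← le_div_iff₀ hw]
  refine hv.sum_le (div_nonneg hW hw.le) fun i hi => ?_
  rw [le_div_iff₀ hw]
  exact h i hi m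

private lemma sf_Bd_mul (hv : NAbs v) {x : H → L} (hx : ∀ t, x t ≠ 0) {W W' : ℝ} (hW : 0 ≤ W)
    (hW' : 0 ≤ W') {P Q : MvPolynomial H L} (hP : sf_Bd v x W P) (hQ : sf_Bd v x W' Q) :
    sf_Bd v x (W * W') (P * Q) := by
  classical
  intro m
  have hw := sf_wt_pos hv hx m
  rw [coeff_mul, ← le_div_iff₀ hw]
  refine hv.sum_le (div_nonneg (mul_nonneg hW hW') hw.le) fun ab hab => ?_
  rw [le_div_iff₀ hw, hv.mul]
  have h1 := hP ab.1
  have h2 := hQ ab.2
  have h3 : ab.1 + ab.2 = m := Finset.HasAntidiagonal.mem_antidiagonal.1 hab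
  have h4 : ∏ t, v (x t) ^ m t = (∏ t, v (x t) ^ ab.1 t) * ∏ t, v (x t) ^ ab.2 t := by
    rw [← h3, ← Finset.prod_mul_distrib]
    exact Finset.prod_congr rfl fun t _ => by rw [Finsupp.add_apply, pow_add]
  rw [h4]
  have h5 := sf_wt_pos hv hx ab.2
  calc v (coeff ab.1 P) * v (coeff ab.2 Q) * ((∏ t, v (x t) ^ ab.1 t) * ∏ t, v (x t) ^ ab.2 t)
      = (v (coeff ab.1 P) * ∏ t, v (x t) ^ ab.1 t) *
          (v (coeff ab.2 Q) * ∏ t, v (x t) ^ ab.2 t) := by ring
    _ ≤ W * W' := mul_le_mul h1 h2 (mul_nonneg (hv.nonneg _) h5.le) hW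

private lemma sf_Bd_prod (hv : NAbs v) {x : H → L} (hx : ∀ t, x t ≠ 0) {ι : Type*}
    (s : Finset ι) (P : ι → MvPolynomial H L) (w : ι → ℝ) (hw : ∀ i ∈ s, 0 ≤ w i)
    (h : ∀ i ∈ s, sf_Bd v x (w i) (P i)) : sf_Bd v x (∏ i ∈ s, w i) (∏ i ∈ s, P i) := by
  classical
  induction s using Finset.induction_on with
  | empty =>
    rw [Finset.prod_empty, Finset.prod_empty]
    intro m
    rw [coeff_one]
    split_ifs with h0
    · rw [← h0, hv.one, one_mul]
      exact le_of_eq (Finset.prod_eq_one fun t _ => by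
        rw [Finsupp.zero_apply, pow_zero])
    · rw [hv.zero, zero_mul]
      exact zero_le_one
  | insert a s ha ih =>
    rw [Finset.prod_insert ha, Finset.prod_insert ha]
    exact sf_Bd_mul hv hx (hw a (Finset.mem_insert_self _ _))
      (Finset.prod_nonneg fun i hi => hw i (Finset.mem_insert_of_mem hi))
      (h a (Finset.mem_insert_self _ _))
      (ih (fun i hi => hw i (Finset.mem_insert_of_mem hi))
        fun i hi => h i (Finset.mem_insert_of_mem hi))

private lemma sf_Bd_factor (hv : NAbs v) {x : H → L} (t : H) {a : L} (ha : v a = v (x t)) :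
    sf_Bd v x (v (x t)) (X t - C a) := by
  classical
  intro m
  rw [coeff_sub, coeff_X, coeff_C]
  by_cases h0 : 0 = m
  · have h1 : ¬ Finsupp.single t 1 = m := by
      rw [← h0]
      exact Finsupp.single_ne_zero.2 one_ne_zero
    rw [if_neg h1, if_pos h0, zero_sub, hv.neg, ha, ← h0]
    have h2 : ∏ t', v (x t') ^ (0 : H →₀ ℕ) t' = 1 :=
      Finset.prod_eq_one fun t' _ => by rw [Finsupp.zero_apply, pow_zero]
    rw [h2, mul_one]
  · rw [if_neg h0, sub_zero]
    by_cases h1 : Finsupp.single t 1 = m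
    · rw [if_pos h1, hv.one, one_mul, ← h1, Finset.prod_eq_single t]
      · rw [Finsupp.single_eq_same, pow_one]
      · intro b _ hb
        rw [Finsupp.single_eq_of_ne hb, pow_zero]
      · intro h
        exact absurd (Finset.mem_univ t) h
    · rw [if_neg h1, hv.zero, zero_mul]
      exact hv.nonneg _

end SfAux

/-- A finite group `H` acts on `L` and preserves `v`. The polynomial: for `c : H → ℕ` let
`Φ c = ∑ τ with content c, ∏ ρ, (X (τ ρ) - C (φ ρ (x (τ ρ))))`, the sum over all functions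
`τ : H → H` such that `c t` is the number of `ρ` with `τ ρ = t`; `W = ∏ t, v (x t) ^ c t`.
Invariance: `φ h` maps the factor `ρ` to the factor `h * ρ`, and `τ` to the function
`ρ ↦ τ (h⁻¹ * ρ)` with the same content. Bound of the coefficients: every product is bounded
(the set of the polynomials with `v (coeff m P) * ∏ v (x t) ^ m t ≤ W` is closed under sums, and
the bounds multiply for products). `eval x Φ = 0`: the factor `ρ = 1` is zero.
`eval y`: for every `ρ` let `T ρ` be the set of all `t` with `v (y t - φ ρ (x t)) = v (x t)`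
(always `≤`), it contains `ρ`. Choose an injective `e : H → ℕ` and let `τ₀ ρ` be the element of
`T ρ` with the largest `e`; `c` is the content of `τ₀`. In
`eval y (Φ c) = ∑ τ, ∏ ρ, (y (τ ρ) - φ ρ (x (τ ρ)))` the term of `τ₀` has the value `W`, and every
other term has a smaller value: otherwise `τ ρ ∈ T ρ` for all `ρ`, so `e (τ ρ) ≤ e (τ₀ ρ)`, but
`∑ e (τ ρ) = ∑ t, c t * e t = ∑ e (τ₀ ρ)`, so `e (τ ρ) = e (τ₀ ρ)` for all `ρ`, `τ = τ₀`
(`NAbs.sum_eq_of_dominated`). -/
theorem exists_sepPoly {L H : Type*} [Field L] [Group H] [Fintype H] {v : L → ℝ}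
    (hv : NAbs v) (φ : H → L →+* L) (h1 : ∀ x, φ 1 x = x)
    (hmul : ∀ a b x, φ (a * b) x = φ a (φ b x)) (hφ : ∀ h x, v (φ h x) = v x) {x y : H → L}
    (hx : ∀ t, x t ≠ 0) (hy : ∀ t, v (y t) = v (x t))
    (hxy : ∀ ρ, v (y ρ - φ ρ (x ρ)) = v (x ρ)) :
    ∃ (Φ : MvPolynomial H L) (W : ℝ), 0 < W ∧ (∀ h m, φ h (coeff m Φ) = coeff m Φ) ∧
      (∀ m, v (coeff m Φ) * ∏ t, v (x t) ^ m t ≤ W) ∧ eval x Φ = 0 ∧ v (eval y Φ) = W := by
  classical
  -- the content of a function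
  let ct : (H → H) → Multiset H := fun τ => (Finset.univ : Finset H).val.map τ
  have hprod : ∀ (τ τ' : H → H) (f : H → ℝ), ct τ = ct τ' →
      ∏ ρ, f (τ ρ) = ∏ ρ, f (τ' ρ) := by
    intro τ τ' f h
    have h2 : ∀ σ : H → H, ∏ ρ, f (σ ρ) = ((ct σ).map f).prod := by
      intro σ
      change ((Finset.univ : Finset H).val.map fun ρ => f (σ ρ)).prod =
        (((Finset.univ : Finset H).val.map σ).map f).prod
      rw [Multiset.map_map]
      rfl
    rw [h2, h2, h]
  have hsum : ∀ (τ τ' : H → H) (f : H → ℕ), ct τ = ct τ' →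
      ∑ ρ, f (τ ρ) = ∑ ρ, f (τ' ρ) := by
    intro τ τ' f h
    have h2 : ∀ σ : H → H, ∑ ρ, f (σ ρ) = ((ct σ).map f).sum := by
      intro σ
      change ((Finset.univ : Finset H).val.map fun ρ => f (σ ρ)).sum =
        (((Finset.univ : Finset H).val.map σ).map f).sum
      rw [Multiset.map_map]
      rfl
    rw [h2, h2, h]
  obtain ⟨e, he⟩ : ∃ e : H → ℕ, Function.Injective e :=
    ⟨fun t => (Fintype.equivFin H t : ℕ),
      fun a b h => (Fintype.equivFin H).injective (Fin.ext h)⟩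
  have hle : ∀ ρ t, v (y t - φ ρ (x t)) ≤ v (x t) := by
    intro ρ t
    refine (hv.sub _ _).trans ?_
    rw [hy, hφ, max_self]
  have hmax : ∀ ρ, ∃ t, v (y t - φ ρ (x t)) = v (x t) ∧
      ∀ t', v (y t' - φ ρ (x t')) = v (x t') → e t' ≤ e t := by
    intro ρ
    obtain ⟨t, ht, ht'⟩ := Finset.exists_max_image
      (Finset.univ.filter fun t => v (y t - φ ρ (x t)) = v (x t)) e
      ⟨ρ, Finset.mem_filter.2 ⟨Finset.mem_univ _, hxy ρ⟩⟩
    exact ⟨t, (Finset.mem_filter.1 ht).2,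
      fun t' h => ht' t' (Finset.mem_filter.2 ⟨Finset.mem_univ _, h⟩)⟩
  choose τ₀ hτ hτm using hmax
  let A : Finset (H → H) := Finset.univ.filter fun τ => ct τ = ct τ₀
  have hA : ∀ τ, τ ∈ A ↔ ct τ = ct τ₀ := fun τ => by
    simp only [A, Finset.mem_filter, Finset.mem_univ, true_and]
  let P : (H → H) → MvPolynomial H L := fun τ => ∏ ρ, (X (τ ρ) - C (φ ρ (x (τ ρ))))
  have hW : 0 < ∏ ρ, v (x (τ₀ ρ)) := Finset.prod_pos fun ρ _ => hv.pos (hx _)
  refine ⟨∑ τ ∈ A, P τ, ∏ ρ, v (x (τ₀ ρ)), hW, ?_, ?_, ?_, ?_⟩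
  · intro h m
    rw [← coeff_map]
    congr 1
    rw [map_sum]
    refine Finset.sum_nbij' (fun τ ρ => τ (h⁻¹ * ρ)) (fun τ ρ => τ (h * ρ)) ?_ ?_ ?_ ?_ ?_
    · intro τ hτA
      rw [hA] at hτA ⊢
      rw [← hτA]
      change (Finset.univ : Finset H).val.map (τ ∘ fun ρ => h⁻¹ * ρ) =
        (Finset.univ : Finset H).val.map τ
      rw [← Multiset.map_map]
      congr 1
      exact Multiset.map_univ_val_equiv (Equiv.mulLeft h⁻¹)
    · intro τ hτA
      rw [hA] at hτA ⊢
      rw [← hτA]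
      change (Finset.univ : Finset H).val.map (τ ∘ fun ρ => h * ρ) =
        (Finset.univ : Finset H).val.map τ
      rw [← Multiset.map_map]
      congr 1
      exact Multiset.map_univ_val_equiv (Equiv.mulLeft h)
    · intro τ _
      funext ρ
      simp only [inv_mul_cancel_left]
    · intro τ _
      funext ρ
      simp only [mul_inv_cancel_left]
    · intro τ _
      simp only [P]
      rw [map_prod]
      refine Fintype.prod_equiv (Equiv.mulLeft h) _ _ fun ρ => ?_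
      rw [map_sub, map_X, map_C, Equiv.coe_mulLeft, inv_mul_cancel_left, hmul]
  · refine sf_Bd_sum hv hx hW.le A P fun τ hτA => ?_
    rw [← hprod τ τ₀ (fun t => v (x t)) ((hA τ).1 hτA)]
    exact sf_Bd_prod hv hx _ _ _ (fun ρ _ => hv.nonneg _)
      fun ρ _ => sf_Bd_factor hv (τ ρ) (hφ ρ _)
  · rw [map_sum]
    refine Finset.sum_eq_zero fun τ _ => ?_
    simp only [P]
    rw [map_prod]
    refine Finset.prod_eq_zero (Finset.mem_univ (1 : H)) ?_
    rw [map_sub, eval_X, eval_C, h1, sub_self]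
  · have hev : ∀ τ, v (eval y (P τ)) = ∏ ρ, v (y (τ ρ) - φ ρ (x (τ ρ))) := by
      intro τ
      simp only [P]
      rw [map_prod, hv.prod]
      refine Finset.prod_congr rfl fun ρ _ => ?_
      rw [map_sub, eval_X, eval_C]
    have hev0 : v (eval y (P τ₀)) = ∏ ρ, v (x (τ₀ ρ)) := by
      rw [hev]
      exact Finset.prod_congr rfl fun ρ _ => hτ ρ
    rw [map_sum, ← hev0]
    refine hv.sum_eq_of_dominated (i := τ₀) ((hA τ₀).2 rfl) fun τ hτA hne => ?_
    rw [hev0, hev, ← hprod τ τ₀ (fun t => v (x t)) ((hA τ).1 hτA)]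
    have hpos : 0 < ∏ ρ, v (x (τ ρ)) := Finset.prod_pos fun ρ _ => hv.pos (hx _)
    by_cases hz : ∀ ρ, 0 < v (y (τ ρ) - φ ρ (x (τ ρ)))
    · refine Finset.prod_lt_prod (fun ρ _ => hz ρ) (fun ρ _ => hle ρ _) ?_
      by_contra hno
      push Not at hno
      have h3 : ∀ ρ, e (τ ρ) ≤ e (τ₀ ρ) := fun ρ =>
        hτm ρ _ (le_antisymm (hle ρ _) (hno ρ (Finset.mem_univ _)))
      have h4 := hsum τ τ₀ e ((hA τ).1 hτA)
      have h5 := (Finset.sum_eq_sum_iff_of_le fun ρ _ => h3 ρ).1 h4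
      exact hne (funext fun ρ => he (h5 ρ (Finset.mem_univ _)))
    · push Not at hz
      obtain ⟨ρ, hρ⟩ := hz
      rw [Finset.prod_eq_zero (Finset.mem_univ ρ) (le_antisymm hρ (hv.nonneg _))]
      exact hpos

end Pool.Agent.DAE
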