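import Pool.Agent.DAE.S.SepDesc
import Pool.Agent.DAE.S.SepFun

/-!
# Block S, part (c): the stabilizer is determined by the ideal of the initial forms
-/

set_option autoImplicit false

namespace Pool.Agent.DAE

open MvPolynomial

variable {F L : Type*} [Field F] [Field L] [Algebra ℂ F] [Algebra ℂ L] [Algebra F L]
  [IsScalarTower ℂ F L] [FiniteDimensional F L] {d : ℕ} {g : Fin d → F} {v : L → ℝ}
  {κ : Type*} {δ : κ → L}

/-- (S1). If `s ≠ 1` let `δ k = s a - a` (`Sys.diff`), `d j = (s ^ j) (δ k)` (a member of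
the system by `Sys.stable`). By induction `v (d j - δ k) < v (δ k)`, so `v (d j) = v (δ k)`:
`d (j + 1) - δ k = (s (d j) - d j) + (d j - δ k)`. The sum of the `d j` over `j < n`, `n` the order
of `s`, is `(s ^ n) a - a = 0` (`Finset.sum_range_sub`), but it is
`n * δ k + ∑ (d j - δ k)` and `v (n * δ k) = v (δ k)` (`NAbs.nat_mul`). -/
theorem eq_one_of_small (hv : NAbs v) (hS : Sys g δ) {s : L ≃ₐ[F] L}
    (h : ∀ k, v (s (δ k) - δ k) < v (δ k)) : s = 1 := by
  by_contra hne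
  obtain ⟨a, k, hk⟩ := hS.diff s hne
  have hpos : 0 < v (δ k) := hv.pos (hS.ne k)
  have hstep : ∀ j : ℕ, v (s ((s ^ j) (δ k)) - (s ^ j) (δ k)) < v ((s ^ j) (δ k)) := by
    intro j
    obtain ⟨k', hk'⟩ := hS.stable (s ^ j) k
    rw [← hk']
    exact h k'
  have hd : ∀ j : ℕ, v ((s ^ j) (δ k) - δ k) < v (δ k) := by
    intro j
    induction j with
    | zero =>
      rw [pow_zero, AlgEquiv.one_apply, sub_self, hv.zero]
      exact hpos
    | succ j ih =>
      have h1 : v ((s ^ j) (δ k)) = v (δ k) := by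
        have h2 := hv.add_eq_left ih
        rwa [add_sub_cancel] at h2
      have h3 : (s ^ (j + 1)) (δ k) - δ k =
          (s ((s ^ j) (δ k)) - (s ^ j) (δ k)) + ((s ^ j) (δ k) - δ k) := by
        rw [pow_succ', AlgEquiv.mul_apply]
        ring
      rw [h3]
      refine (hv.add _ _).trans_lt (max_lt ?_ ih)
      rw [← h1]
      exact hstep j
  have hn : orderOf s ≠ 0 := (orderOf_pos s).ne'
  have hsum : ∑ j ∈ Finset.range (orderOf s), (s ^ j) (δ k) = 0 := by
    have h1 : ∀ j : ℕ, (s ^ j) (δ k) = (s ^ (j + 1)) a - (s ^ j) a := by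
      intro j
      rw [hk, map_sub, pow_succ, AlgEquiv.mul_apply]
    rw [Finset.sum_congr rfl fun j _ => h1 j, Finset.sum_range_sub (fun j => (s ^ j) a),
      pow_orderOf_eq_one, pow_zero, sub_self]
  have hsum' : ∑ j ∈ Finset.range (orderOf s), (s ^ j) (δ k) = (orderOf s : L) * δ k +
      ∑ j ∈ Finset.range (orderOf s), ((s ^ j) (δ k) - δ k) := by
    rw [Finset.sum_sub_distrib, Finset.sum_const, Finset.card_range, nsmul_eq_mul]
    ring
  have hlt : v (∑ j ∈ Finset.range (orderOf s), ((s ^ j) (δ k) - δ k)) < v (δ k) :=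
    hv.sum_lt hpos fun j _ => hd j
  have hval : v ((orderOf s : L) * δ k +
      ∑ j ∈ Finset.range (orderOf s), ((s ^ j) (δ k) - δ k)) = v (δ k) := by
    rw [hv.add_eq_left (by rwa [hv.nat_mul hn]), hv.nat_mul hn]
  rw [← hsum', hsum, hv.zero] at hval
  exact hpos.ne hval

/-- (S4). Suppose that for every `t ∈ Gv F v` there is `k` with
`v (s (δ k) - t (δ k)) = v (δ k)` (it is always `≤`); `exists_sepPoly` for the group `Gv F v`,
`x t = δ (kt t)`, `y t = s (δ (kt t))`, and `exists_descent` contradict `h`. So there is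
`t ∈ Gv F v` with `v (s (δ k) - t (δ k)) < v (δ k)` for all `k`; then
`v (t⁻¹ (s (δ k)) - δ k) < v (δ k)`, and `t⁻¹ * s = 1` by `eq_one_of_small`. -/
theorem mem_Gv_of_inI [IsGalois F L] [Fintype κ] (hv : InX g v) (hg : ∀ i, g i ≠ 0)
    (hF : Gen g) (hS : Sys g δ) {s : L ≃ₐ[F] L} (hs : ∀ k, v (s (δ k)) = v (δ k))
    (h : ∀ (P : MvPolynomial κ ℂ) (γ : ℝ), 0 < γ → IsHomW (fun k => v (δ k)) γ P →
      v (aeval δ P) < γ → v (aeval (fun k => s (δ k)) P) < γ) : s ∈ Gv F v := by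
  classical
  by_cases hex : ∃ t ∈ Gv F v, ∀ k, v (s (δ k) - t (δ k)) < v (δ k)
  · obtain ⟨t, ht, hk⟩ := hex
    have h1 : t⁻¹ * s = 1 := by
      refine eq_one_of_small hv.nabs hS fun k => ?_
      have h2 : (t⁻¹ * s) (δ k) - δ k = t⁻¹ (s (δ k) - t (δ k)) := by
        rw [map_sub, AlgEquiv.mul_apply, ← AlgEquiv.mul_apply t⁻¹ t, inv_mul_cancel,
          AlgEquiv.one_apply]
      rw [h2, mem_Gv.1 (inv_mem ht)]
      exact hk k
    have h3 : s = t := (inv_mul_eq_one.1 h1).symm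
    rw [h3]
    exact ht
  · exfalso
    push Not at hex
    have hex' : ∀ t : Gv F v, ∃ k, v (s (δ k) - (t : L ≃ₐ[F] L) (δ k)) = v (δ k) := by
      intro t
      obtain ⟨k, hk⟩ := hex t t.2
      refine ⟨k, le_antisymm ((hv.nabs.sub _ _).trans (max_le (hs k).le ?_)) hk⟩
      exact (mem_Gv.1 t.2 _).le
    choose kt hkt using hex'
    have : Finite (L ≃ₐ[F] L) := inferInstance
    let _ : Fintype (Gv F v) := Fintype.ofFinite _
    obtain ⟨Φ, W, hW, hinv, hΦ, h0, h1⟩ := exists_sepPoly (H := Gv F v) hv.nabs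
      (fun t => (((t : L ≃ₐ[F] L) : L →ₐ[F] L) : L →+* L)) (fun _ => rfl) (fun _ _ _ => rfl)
      (fun t x => mem_Gv.1 t.2 x) (x := fun t => δ (kt t)) (y := fun t => s (δ (kt t)))
      (fun t => hS.ne _) (fun t => hs _) hkt
    choose gi hgi using hS.gmem
    obtain ⟨Ψ, γ, hγ, hhom, hlt, heq⟩ := exists_descent hv hg hF hS.ne hgi kt hs hW
      (fun t ht m => hinv ⟨t, ht⟩ m) hΦ h0 h1
    exact (h Ψ γ hγ hhom hlt).ne heq

end Pool.Agent.DAE
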