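import Pool.Agent.DAE.S.SepRoot
import Pool.Agent.DAE.S.SepFour
import Pool.Agent.DAE.S.SepFive

/-!
# Block S, part (c): finitely many functions separate the points of `X`
-/

set_option autoImplicit false

namespace Pool.Agent.DAE

open MvPolynomial

variable {F L : Type*} [Field F] [Field L] [Algebra ℂ F] [Algebra ℂ L] [Algebra F L]
  [IsScalarTower ℂ F L] [FiniteDimensional F L] [IsGalois F L] {d : ℕ} {g : Fin d → F}

omit [Algebra ℂ F] [Algebra ℂ L] [IsScalarTower ℂ F L] [IsGalois F L] in
/-- existence of a finite system: for every `s ≠ 1` an element `a s` with `s (a s) ≠ a s`, all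
conjugates of the `g i` and of the differences `s (a s) - a s`, enumerated by `Fin n` -/
theorem exists_sys (hg : ∀ i, g i ≠ 0) : ∃ (n : ℕ) (δ : Fin n → L), Sys g δ := by
  have hex : ∀ s : L ≃ₐ[F] L, ∃ a : L, s ≠ 1 → s a ≠ a := by
    intro s
    by_cases hs : s = 1
    · exact ⟨0, fun h => absurd hs h⟩
    · by_contra hcon
      push Not at hcon
      exact hs (AlgEquiv.ext fun a => (hcon a).2)
  choose a ha using hex
  let B : Set L := Set.range (fun i => algebraMap F L (g i)) ∪
    (fun s : L ≃ₐ[F] L => s (a s) - a s) '' {s | s ≠ 1}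
  let D : Set L := Set.range fun p : (L ≃ₐ[F] L) × B => p.1 (p.2 : L)
  have hB : B.Finite := (Set.finite_range _).union ((Set.toFinite _).image _)
  have hBf : Finite B := hB
  have hD : Finite D := Set.finite_range _
  obtain ⟨n, ⟨e⟩⟩ := Finite.exists_equiv_fin D
  have hBD : ∀ b ∈ B, ∃ k, ((e.symm k : D) : L) = b := by
    intro b hb
    refine ⟨e ⟨b, (1, ⟨b, hb⟩), rfl⟩, ?_⟩
    rw [Equiv.symm_apply_apply]
  refine ⟨n, fun k => ((e.symm k : D) : L), ?_, ?_, ?_, ?_⟩
  · intro k
    obtain ⟨⟨t, b, hb⟩, h⟩ := (e.symm k).2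
    rw [← h]
    change t b ≠ 0
    rw [Ne, map_eq_zero_iff t t.injective]
    rcases hb with ⟨i, rfl⟩ | ⟨s, hs, rfl⟩
    · exact (map_ne_zero_iff _ (algebraMap F L).injective).2 (hg i)
    · exact sub_ne_zero.2 (ha s hs)
  · intro s k
    obtain ⟨⟨t, b⟩, h⟩ := (e.symm k).2
    refine ⟨e ⟨(s * t) (b : L), (s * t, b), rfl⟩, ?_⟩
    rw [Equiv.symm_apply_apply, ← h]
    rfl
  · intro i
    exact hBD _ (Or.inl ⟨i, rfl⟩)
  · intro s hs
    obtain ⟨k, hk⟩ := hBD _ (Or.inr ⟨s, hs, rfl⟩)
    exact ⟨a s, k, hk⟩

/-- The separation theorem for families. Proof: the two families agree at the `g i` almost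
everywhere, so (`InX.eq_base`, `exists_conj`) `v' i = v i ∘ s i` almost everywhere, and
`s i = s` almost everywhere. So `v i (s x) = v i x` almost everywhere for every `x`. Take a system
`δ` (`exists_sys`), `J` the limit ideal of `v` (`exists_limIdeal`); by `inI_congr_ae` it is also the
limit ideal of the family `fun i x => v i (s x)` (`InX.conj`). By `eventually_inI` for both families
the two ideals of `v i` and of its conjugate are the same for almost all `i`; `mem_Gv_of_inI`
(with `inI_iff`, `s (aeval δ P) = aeval (s ∘ δ) P`) gives `s ∈ Gv F (v i)`, so `v' i = v i`. -/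
theorem sep_ae (hi : AlgebraicIndependent ℂ g) (hF : Gen g) {I : Type*} (U : Ultrafilter I)
    {v v' : I → L → ℝ} (hv : ∀ i, InX g (v i)) (hv' : ∀ i, InX g (v' i))
    (h : ∀ x, ∀ᶠ i in (U : Filter I), v i x = v' i x) :
    ∀ᶠ i in (U : Filter I), v i = v' i := by
  have hg : ∀ i, g i ≠ 0 := fun i => hi.ne_zero i
  have h1 : ∀ᶠ i in (U : Filter I), ∀ j, v i (algebraMap F L (g j)) =
      v' i (algebraMap F L (g j)) := Filter.eventually_all.2 fun j => h _
  have h2 : ∀ᶠ i in (U : Filter I), ∃ s : L ≃ₐ[F] L, ∀ x, v i (s x) = v' i x :=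
    h1.mono fun i hi' => exists_conj (hv i).nabs (hv' i).nabs ((hv i).eq_base (hv' i) hF hi')
  obtain ⟨s, hs⟩ := Ultrafilter.eventually_exists_iff.1 h2
  have h3 : ∀ x, ∀ᶠ i in (U : Filter I), v i x = v i (s x) := fun x => by
    filter_upwards [hs, h x] with i h4 h5
    rw [h4, h5]
  obtain ⟨n, δ, hS⟩ := exists_sys (L := L) hg
  choose gi hgi using hS.gmem
  have hinj : Function.Injective gi := by
    intro i j hij
    have h4 : algebraMap F L (g i) = algebraMap F L (g j) := by rw [← hgi, ← hgi, hij]
    exact hi.injective ((algebraMap F L).injective h4)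
  obtain ⟨J, hJp, hJ⟩ := exists_limIdeal (δ := δ) U (fun i => (hv i).cabs) hS.ne
  have hw : ∀ i, InX g (fun x => v i (s x)) := fun i => (hv i).conj s
  have hJ' : ∀ P, P ∈ J ↔ ∀ᶠ i in (U : Filter I), InI (fun x => v i (s x)) δ P := by
    intro P
    rw [hJ]
    have h4 := inI_congr_ae (δ := δ) U (v := v) (v' := fun i x => v i (s x)) h3 P
    constructor
    · intro h5
      filter_upwards [h4, h5] with i h6 h7
      exact h6.1 h7
    · intro h5
      filter_upwards [h4, h5] with i h6 h7
      exact h6.2 h7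
  have e1 := eventually_inI U hv hg hF hS.ne hinj hgi hJp hJ
  have e2 := eventually_inI U hw hg hF hS.ne hinj hgi hJp hJ'
  have e3 : ∀ᶠ i in (U : Filter I), ∀ k, v i (δ k) = v i (s (δ k)) :=
    Filter.eventually_all.2 fun k => h3 _
  filter_upwards [e1, e2, e3, hs] with i a1 a2 a3 a4
  have hmem : s ∈ Gv F (v i) := by
    refine mem_Gv_of_inI (hv i) hg hF hS (fun k => (a3 k).symm) fun P γ hγ hP hlt => ?_
    have b1 : InI (v i) δ P := (inI_iff (hv i).cabs hγ hP).2 hlt
    have b2 : InI (fun x => v i (s x)) δ P := (a2 P).1 ((a1 P).2 b1)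
    have hP' : IsHomW (fun k => v i (s (δ k))) γ P := by
      have h4 : (fun k => v i (s (δ k))) = fun k => v i (δ k) := funext fun k => (a3 k).symm
      rw [h4]
      exact hP
    have b3 := (inI_iff (v := fun x => v i (s x)) (hw i).cabs hγ hP').1 b2
    have h5 : s (aeval δ P) = aeval (fun k => s (δ k)) P :=
      MvPolynomial.comp_aeval_apply δ ((s.restrictScalars ℂ : L ≃ₐ[ℂ] L) : L →ₐ[ℂ] L) P
    rw [← h5]
    exact b3
  funext x
  rw [← a4, hmem x]

/-- **Separation.** Otherwise for every finite set `D` there are `v D ≠ v' D` which agree on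
`D`; an ultrafilter on the finite subsets which is finer than `Filter.atTop`; `sep_ae`. -/
theorem sep (hi : AlgebraicIndependent ℂ g) (hF : Gen g) :
    ∃ D : Finset L, ∀ v v' : L → ℝ, InX g v → InX g v' → (∀ q ∈ D, v q = v' q) → v = v' := by
  by_contra hcon
  push Not at hcon
  choose v v' hv hv' h hne using hcon
  let U : Ultrafilter (Finset L) := Ultrafilter.of Filter.atTop
  have h1 : ∀ᶠ D in (U : Filter (Finset L)), v D = v' D := by
    refine sep_ae hi hF U hv hv' fun x => ?_
    have h2 : ∀ᶠ D in (U : Filter (Finset L)), {x} ≤ D :=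
      (Filter.eventually_ge_atTop ({x} : Finset L)).filter_mono (Ultrafilter.of_le _)
    filter_upwards [h2] with D hD
    exact h D x (hD (Finset.mem_singleton_self x))
  obtain ⟨D, hD⟩ := h1.exists
  exact hne D hD

/-- **Separation of the restrictions to a subring `A` of an intermediate field `K`** whose
field of fractions is `K`. Otherwise for every finite subset `D` of `A` there are `v D`, `v' D`
which agree on `D` but not on `A`; ultrafilter; they agree almost everywhere on every element of
`A`, so on every element of `K`; `exists_conj_ae` over `K` gives `s : L ≃ₐ[K] L`, and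
`sep_ae` for the family `fun i x => v i (s x)` (`InX.conj`, `s.restrictScalars F`) and `v'`:
`v i (s x) = v' i x` for all `x`, almost everywhere; for `x ∈ K` `s x = x`. Contradiction. -/
theorem sepK {A K : Type*} [CommRing A] [Field K] [Algebra A K] [IsFractionRing A K]
    [Algebra F K] [Algebra K L] [IsScalarTower F K L] (hi : AlgebraicIndependent ℂ g)
    (hF : Gen g) :
    ∃ D : Finset A, ∀ v v' : L → ℝ, InX g v → InX g v' →
      (∀ q ∈ D, v (algebraMap K L (algebraMap A K q)) = v' (algebraMap K L (algebraMap A K q))) →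
      ∀ x : K, v (algebraMap K L x) = v' (algebraMap K L x) := by
  by_contra hcon
  push Not at hcon
  choose v v' hv hv' h y hne using hcon
  have : IsGalois K L := IsGalois.tower_top_of_isGalois F K L
  have : FiniteDimensional K L := FiniteDimensional.right F K L
  let U : Ultrafilter (Finset A) := Ultrafilter.of Filter.atTop
  have hA : ∀ q : A, ∀ᶠ D in (U : Filter (Finset A)),
      v D (algebraMap K L (algebraMap A K q)) = v' D (algebraMap K L (algebraMap A K q)) := by
    intro q
    have h2 : ∀ᶠ D in (U : Filter (Finset A)), {q} ≤ D :=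
      (Filter.eventually_ge_atTop ({q} : Finset A)).filter_mono (Ultrafilter.of_le _)
    filter_upwards [h2] with D hD
    exact h D q (hD (Finset.mem_singleton_self q))
  have hK : ∀ x : K, ∀ᶠ D in (U : Filter (Finset A)),
      v D (algebraMap K L x) = v' D (algebraMap K L x) := by
    intro x
    obtain ⟨p, q, -, rfl⟩ := IsFractionRing.div_surjective (A := A) x
    filter_upwards [hA p, hA q] with D h1 h2
    rw [map_div₀, (hv D).nabs.div, (hv' D).nabs.div, h1, h2]
  obtain ⟨s, hs⟩ := exists_conj_ae U (fun D => (hv D).nabs) (fun D => (hv' D).nabs) hK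
  have h1 : ∀ᶠ D in (U : Filter (Finset A)),
      (fun x => v D ((s.restrictScalars F : L ≃ₐ[F] L) x)) = v' D :=
    sep_ae hi hF U (fun D => (hv D).conj (s.restrictScalars F)) hv' hs
  obtain ⟨D, hD⟩ := h1.exists
  apply hne D
  have h2 := congrFun hD (algebraMap K L (y D))
  rw [← h2]
  change v D (algebraMap K L (y D)) = v D (s (algebraMap K L (y D)))
  rw [s.commutes]

end Pool.Agent.DAE
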