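import Pool.Agent.DAE.S.GIntg
import Pool.Agent.DAE.S.Sep

/-!
# Block S, package d4: a separating set of integral elements, stable under the Galois group

PROOF. `sep hi hF` gives a finite `D` which separates. Every `q ∈ D` is `a_q / b_q` with `a_q, b_q`
integral, `b_q ≠ 0` (`exists_quot`). `T` = the set of all `s x`, `s ∈ L ≃ₐ[F] L` (finite group), where `x`
runs through the nonzero `a_q, b_q` (`q ∈ D`) and the given nonzero integral elements `x ∈ E`.
Agreement on `T` implies agreement on `D` (`NAbs.div`; if `a_q = 0` then `q = 0`).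
-/

set_option autoImplicit false

namespace Pool.Agent.DAE

variable {F L : Type*} [Field F] [Field L] [Algebra ℂ F] [Algebra ℂ L] [Algebra F L]
  [IsScalarTower ℂ F L] {d : ℕ} {g : Fin d → F}

theorem exists_sepSet [FiniteDimensional F L] [IsGalois F L] (hi : AlgebraicIndependent ℂ g)
    (hF : Gen g) (E : Finset L) (hE : ∀ x ∈ E, x ≠ 0 ∧ GInt g x) :
    ∃ T : Finset L, E ⊆ T ∧ (0 : L) ∉ T ∧ (∀ q ∈ T, GInt g q) ∧
      (∀ s : L ≃ₐ[F] L, ∀ q ∈ T, s q ∈ T) ∧ Separates g T := by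
  classical
  obtain ⟨D, hD⟩ := sep (L := L) hi hF
  have hex : ∀ q : L, ∃ a b : L, GInt g a ∧ GInt g b ∧ b ≠ 0 ∧ q = a / b := fun q =>
    exists_quot hF q
  choose a b ha hb hb0 hq using hex
  let X : Finset L := (E ∪ D.image a ∪ D.image b).filter (· ≠ 0)
  have hX : ∀ x ∈ X, x ≠ 0 ∧ GInt g x := by
    intro x hx
    obtain ⟨hx1, hx0⟩ := Finset.mem_filter.1 hx
    refine ⟨hx0, ?_⟩
    rcases Finset.mem_union.1 hx1 with h | h
    · rcases Finset.mem_union.1 h with h | h
      · exact (hE x h).2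
      · obtain ⟨q, -, rfl⟩ := Finset.mem_image.1 h
        exact ha q
    · obtain ⟨q, -, rfl⟩ := Finset.mem_image.1 h
      exact hb q
  let T : Finset L := ((Finset.univ : Finset (L ≃ₐ[F] L)) ×ˢ X).image fun p => p.1 p.2
  have hXT : ∀ x ∈ X, x ∈ T := fun x hx =>
    Finset.mem_image.2 ⟨(1, x), Finset.mk_mem_product (Finset.mem_univ _) hx, rfl⟩
  refine ⟨T, ?_, ?_, ?_, ?_, ?_⟩
  · intro x hx
    exact hXT x (Finset.mem_filter.2 ⟨Finset.mem_union_left _ (Finset.mem_union_left _ hx),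
      (hE x hx).1⟩)
  · intro h
    obtain ⟨p, hp, hp0⟩ := Finset.mem_image.1 h
    exact (hX p.2 (Finset.mem_product.1 hp).2).1 ((map_eq_zero_iff p.1 p.1.injective).1 hp0)
  · intro q hq
    obtain ⟨p, hp, rfl⟩ := Finset.mem_image.1 hq
    exact (hX p.2 (Finset.mem_product.1 hp).2).2.conj p.1
  · intro s q hq
    obtain ⟨p, hp, rfl⟩ := Finset.mem_image.1 hq
    exact Finset.mem_image.2 ⟨(s * p.1, p.2),
      Finset.mk_mem_product (Finset.mem_univ _) (Finset.mem_product.1 hp).2, rfl⟩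
  · intro v v' hv hv' h
    refine hD v v' hv hv' fun q hqD => ?_
    have hbT : b q ∈ T := hXT _ (Finset.mem_filter.2
      ⟨Finset.mem_union_right _ (Finset.mem_image_of_mem b hqD), hb0 q⟩)
    have h1 : v (a q) = v' (a q) := by
      rcases eq_or_ne (a q) 0 with h0 | h0
      · rw [h0, hv.nabs.zero, hv'.nabs.zero]
      · exact h _ (hXT _ (Finset.mem_filter.2 ⟨Finset.mem_union_left _
          (Finset.mem_union_right _ (Finset.mem_image_of_mem a hqD)), h0⟩))
    rw [hq q, hv.nabs.div, hv'.nabs.div, h1, h _ hbT]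

end Pool.Agent.DAE
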