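import Pool.Agent.DAE.S.CellConv
import Pool.Agent.DAE.S.CellEx
import Pool.Agent.DAE.S.SepInt
import Pool.Agent.DAE.S.JacIneq
import Pool.Agent.DAE.S.Pts

/-!
# Block S, package d10: the cells of `Sig g`

PROOF. Let `Frame g`. `hi = algInd_gF`, `hF = gen_gF`, `L` from `exists_L`.
1. `sepK` (with `A = Poly d`, `K = KK d`) gives `D0 : Finset (Poly d)` such that points of `X`
which agree on
`em L '' D0` agree on `KK d`. `D` = the nonzero elements of
`D0 ∪ {X i} ∪ {g i} ∪ {jac g}` (`jac g ≠ 0` by `Frame.jac_ne_zero`).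
2. `exists_sepSet` with `E = em L '' D` (nonzero, integral by `gInt_em`): `T`. `exists_expSet`: `Λ`.
3. INJECTIVITY of `ev D` on `Sig g`: `h, h'` with the same `ev D`; `v, v'` from `exists_inX`; `v
= v'` on
`em L '' D` (both positive, same logarithm) so on `KK d`, so `h = h'`. `s` = an inverse function
on the
image (`Function.invFunOn`).
4. CELLS are indexed by the pairs `(E, l)` with `E ⊆ Λ ×ˢ Λ` a finite set, `l : L → Fin d → ℝ`
with values in
`Λ` on `T` and `0` outside `T` (finitely many), such that there is `w₀` with `Gnc Λ w₀`,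
`ordRel Λ w₀ = E`, `Rlz (gF g) T l w₀`. For `z : D → ℝ` put `w z = fun i => z (g i)`. The
functionals of
the cell `(E, l)`: (a) for `p ∈ E`: `lin p.2 (w z) - lin p.1 (w z)`; (b) for `P ∈ D`: `± (z P -
lin (l (em L P)) (w z))`;
(c) `∑ z (g i) - z (jac g)`. They are indexed by the finite type
`(Λ ×ˢ Λ) ⊕ D ⊕ D ⊕ Unit` (functional `0` for `p ∉ E`), re-indexed by `Fin m`.
5. `⊆`: `h ∈ Sig g`, `v` from `exists_inX`, `w = fun i => h (g i)`, `Over (gF g) w v`.
`exists_cell` gives `w₀, l`: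
(a) `w ∈ closedCh`; (b) `h P = log (v (em L P)) = lin (l (em L P)) w`; (c) `IsFat` for `P = g`.
6. `⊇`: `z` in the cell `(E, l)`. `w z ∈ closedCh (ordRel Λ w₀)`; `rlz_closure`: `v` over `w z`
with exponents
`l`. `h P = log (v (em L P))` is `IsVal`, `IsMono` (`isVal_of_inX`), `h P = z P` for `P ∈ D` by
(b); fat:
`jac_ineq` and (c). So `h ∈ Sig g`, `ev D h = z`.
7. CONVEXITY. Fix a cell; choose `u w` for `w ∈ closedCh (ordRel Λ w₀)` by `rlz_closure`. For `z`
in the cell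
`fun P => log (u (w z) (em L P))` is in `Sig g` with `ev D = z` (step 6), so it is `s z`.
`cell_convex` for
`q = em L P` (`P ≠ 0`) composed with the linear map `z ↦ w z` (`ConvexOn.comp_linearMap`,
`ConvexOn.subset`); the cell is convex. For `P = 0`: `s z 0 = 0`.
-/

set_option autoImplicit false

namespace Pool.Agent.DAE

open MvPolynomial Pool.Agent.H17Dyn

/-- the statement with arbitrary finite index types -/
theorem cells_aux {d : ℕ} [NeZero d] {g : Fin d → Poly d} (hfr : Frame g) :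
    ∃ (D : Finset (Poly d)) (s : (D → ℝ) → (Poly d → ℝ)) (α β : Type) (_ : Finite α)
      (_ : Finite β) (ℓ : α → β → ((D → ℝ) →ₗ[ℝ] ℝ)),
      (∀ i, (X i : Poly d) ∈ D) ∧
      (∀ h ∈ Sig g, s (ev D h) = h) ∧
      (ev D '' Sig g = ⋃ c, {w : D → ℝ | ∀ k, 0 ≤ ℓ c k w}) ∧
      ∀ c, ∀ P : Poly d, ConvexOn ℝ {w : D → ℝ | ∀ k, 0 ≤ ℓ c k w} (fun w => s w P) := by
  classical
  have hi := algInd_gF hfr
  have hF := gen_gF g
  obtain ⟨L, iF, iC, iKK, hs3, hfd, hgal⟩ := exists_tower hfr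
  obtain ⟨D0, hD0⟩ := sepK (A := Poly d) (K := KK d) (L := L) hi hF
  have hj : jac g ≠ 0 := hfr.jac_ne_zero
  have hg0 : ∀ i, g i ≠ 0 := by
    intro i
    have h := hfr.aeval_ne_zero (F := (X i : Poly d)) (X_ne_zero i)
    rwa [aeval_X] at h
  have hem0 : em L (0 : Poly d) = 0 := by
    unfold em
    rw [map_zero, map_zero]
  have hem : ∀ {P : Poly d}, P ≠ 0 → em L P ≠ 0 := fun {P} hP h =>
    hP (em_inj L (h.trans hem0.symm))
  obtain ⟨D, hDdef⟩ : ∃ D : Finset (Poly d), D = (D0 ∪ Finset.univ.image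
    (fun i : Fin d => (X i : Poly d)) ∪ Finset.univ.image g ∪ {jac g}).filter (· ≠ 0) := ⟨_, rfl⟩
  have hDX : ∀ i, (X i : Poly d) ∈ D := by
    intro i
    rw [hDdef, Finset.mem_filter]
    refine ⟨?_, X_ne_zero i⟩
    simp
  have hDg : ∀ i, g i ∈ D := by
    intro i
    rw [hDdef, Finset.mem_filter]
    refine ⟨?_, hg0 i⟩
    simp
  have hDj : jac g ∈ D := by
    rw [hDdef, Finset.mem_filter]
    refine ⟨?_, hj⟩
    simp
  have hDD0 : ∀ q ∈ D0, q ≠ 0 → q ∈ D := by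
    intro q hq h0
    rw [hDdef, Finset.mem_filter]
    refine ⟨?_, h0⟩
    simp [hq]
  have hDne : ∀ q ∈ D, q ≠ 0 := by
    intro q hq
    rw [hDdef, Finset.mem_filter] at hq
    exact hq.2
  obtain ⟨T, hET, hT0, hTi, hTs, hsep⟩ := exists_sepSet (L := L) hi hF (D.image (em L)) (by
    intro x hx
    obtain ⟨P, hP, rfl⟩ := Finset.mem_image.1 hx
    exact ⟨hem (hDne P hP), gInt_em hfr P⟩)
  have hDT : ∀ P ∈ D, em L P ∈ T := fun P hP => hET (Finset.mem_image_of_mem _ hP)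
  obtain ⟨Λ, hΛ⟩ := exists_expSet (L := L) hi hF T hT0
  -- injectivity
  have hinj : ∀ h ∈ Sig g, ∀ h' ∈ Sig g, ev D h = ev D h' → h = h' := by
    intro h hh h' hh' he
    obtain ⟨v, hv, hvP⟩ := exists_inX (L := L) hfr hh.1.1 hh.2
    obtain ⟨v', hv', hvP'⟩ := exists_inX (L := L) hfr hh'.1.1 hh'.2
    have h1 : ∀ q ∈ D0, v (algebraMap (KK d) L (algebraMap (Poly d) (KK d) q)) =
        v' (algebraMap (KK d) L (algebraMap (Poly d) (KK d) q)) := by
      intro q hq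
      rcases eq_or_ne q 0 with rfl | h0
      · rw [map_zero, map_zero, hv.nabs.zero, hv'.nabs.zero]
      · have h2 : h q = h' q := congrFun he ⟨q, hDD0 q hq h0⟩
        rw [hvP, hvP'] at h2
        exact Real.log_injOn_pos (hv.nabs.pos (hem h0)) (hv'.nabs.pos (hem h0)) h2
    have h2 := hD0 v v' hv hv' h1
    funext P
    rw [hvP, hvP']
    exact congrArg Real.log (h2 (ι P))
  -- the linear map of the weights
  let wl : (D → ℝ) →ₗ[ℝ] (Fin d → ℝ) :=
    { toFun := fun z i => z ⟨g i, hDg i⟩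
      map_add' := fun _ _ => rfl
      map_smul' := fun _ _ => rfl }
  let lf : (Fin d → ℝ) → ((D → ℝ) →ₗ[ℝ] ℝ) := fun l =>
    { toFun := fun z => lin l (wl z)
      map_add' := fun x y => by rw [map_add, lin_add_right]
      map_smul' := fun c x => by rw [map_smul, lin_smul_right]; rfl }
  let C : Set (Finset ((Fin d → ℝ) × (Fin d → ℝ)) × (L → Fin d → ℝ)) :=
    {c | ∃ w₀, Gnc Λ w₀ ∧ ordRel Λ w₀ = c.1 ∧ (∀ q ∈ T, c.2 q ∈ Λ) ∧ (∀ q, q ∉ T → c.2 q = 0) ∧
      Rlz (gF g) T c.2 w₀}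
  have hCfin : C.Finite := by
    have h1 : {l : L → Fin d → ℝ | (∀ q ∈ T, l q ∈ Λ) ∧ ∀ q, q ∉ T → l q = 0}.Finite := by
      let F : (T → Λ) → (L → Fin d → ℝ) := fun f q =>
        if h : q ∈ T then (f ⟨q, h⟩ : Fin d → ℝ) else 0
      refine (Set.finite_range F).subset ?_
      rintro l ⟨hl1, hl2⟩
      refine ⟨fun q => ⟨l q, hl1 q q.2⟩, ?_⟩
      funext q
      change (if h : q ∈ T then _ else _) = _
      split_ifs with h
      · rfl
      · exact (hl2 q h).symm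
    refine ((Finset.finite_toSet (Λ ×ˢ Λ).powerset).prod h1).subset ?_
    rintro ⟨E, l⟩ ⟨w₀, -, hE, hl1, hl2, -⟩
    refine ⟨?_, hl1, hl2⟩
    rw [Finset.mem_coe, Finset.mem_powerset]
    change E ⊆ _
    rw [← show ordRel Λ w₀ = E from hE]
    exact Finset.filter_subset _ _
  let ℓ : C → (((Λ ×ˢ Λ : Finset _) ⊕ D) ⊕ (D ⊕ Unit)) → ((D → ℝ) →ₗ[ℝ] ℝ) := fun c k =>
    match k with
    | Sum.inl (Sum.inl p) =>
      if (p : (Fin d → ℝ) × (Fin d → ℝ)) ∈ c.1.1 then lf p.1.2 - lf p.1.1 else 0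
    | Sum.inl (Sum.inr P) => LinearMap.proj P - lf (c.1.2 (em L (P : Poly d)))
    | Sum.inr (Sum.inl P) => lf (c.1.2 (em L (P : Poly d))) - LinearMap.proj P
    | Sum.inr (Sum.inr _) =>
      (∑ i, LinearMap.proj (⟨g i, hDg i⟩ : D)) - LinearMap.proj ⟨jac g, hDj⟩
  have hcell : ∀ (c : C) (z : D → ℝ), (∀ k, 0 ≤ ℓ c k z) ↔ wl z ∈ closedCh c.1.1 ∧
      (∀ P : D, z P = lin (c.1.2 (em L (P : Poly d))) (wl z)) ∧
        z ⟨jac g, hDj⟩ ≤ ∑ i, z ⟨g i, hDg i⟩ := by
    rintro ⟨⟨E, l⟩, hc⟩ z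
    obtain ⟨w₀, -, hE, -⟩ := id hc
    have hE' : E ⊆ Λ ×ˢ Λ := by
      rw [← show ordRel Λ w₀ = E from hE]
      exact Finset.filter_subset _ _
    constructor
    · intro h
      refine ⟨fun p hp => ?_, fun P => ?_, ?_⟩
      · have h1 := h (Sum.inl (Sum.inl ⟨p, hE' hp⟩))
        have h2 : ℓ ⟨(E, l), hc⟩ (Sum.inl (Sum.inl ⟨p, hE' hp⟩)) = lf p.2 - lf p.1 := if_pos hp
        rw [h2, LinearMap.sub_apply] at h1
        exact sub_nonneg.1 h1
      · have h1 : 0 ≤ z P - lin (l (em L (P : Poly d))) (wl z) := h (Sum.inl (Sum.inr P))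
        have h2 : 0 ≤ lin (l (em L (P : Poly d))) (wl z) - z P := h (Sum.inr (Sum.inl P))
        change z P = lin (l (em L (P : Poly d))) (wl z)
        linarith
      · have h1 := h (Sum.inr (Sum.inr ()))
        have h2 : ℓ ⟨(E, l), hc⟩ (Sum.inr (Sum.inr ())) z =
            (∑ i, z ⟨g i, hDg i⟩) - z ⟨jac g, hDj⟩ := by
          change ((∑ i, LinearMap.proj (⟨g i, hDg i⟩ : D)) - LinearMap.proj ⟨jac g, hDj⟩ :
            (D → ℝ) →ₗ[ℝ] ℝ) z = _
          rw [LinearMap.sub_apply, LinearMap.sum_apply]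
          rfl
        rw [h2] at h1
        linarith
    · rintro ⟨h1, h2, h3⟩ k
      match k with
      | Sum.inl (Sum.inl p) =>
        change 0 ≤ (if (p : (Fin d → ℝ) × (Fin d → ℝ)) ∈ E then lf p.1.2 - lf p.1.1 else 0 :
          (D → ℝ) →ₗ[ℝ] ℝ) z
        split_ifs with h
        · rw [LinearMap.sub_apply]
          exact sub_nonneg.2 (h1 p h)
        · exact le_rfl
      | Sum.inl (Sum.inr P) =>
        change 0 ≤ z P - lin (l (em L (P : Poly d))) (wl z)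
        rw [h2 P]
        exact (sub_self _).ge
      | Sum.inr (Sum.inl P) =>
        change 0 ≤ lin (l (em L (P : Poly d))) (wl z) - z P
        rw [h2 P]
        exact (sub_self _).ge
      | Sum.inr (Sum.inr _) =>
        change 0 ≤ ((∑ i, LinearMap.proj (⟨g i, hDg i⟩ : D)) - LinearMap.proj ⟨jac g, hDj⟩ :
            (D → ℝ) →ₗ[ℝ] ℝ) z
        rw [LinearMap.sub_apply, LinearMap.sum_apply]
        exact sub_nonneg.2 h3
  -- the points of a cell
  have hsec : ∀ c : C, ∃ (w₀ : Fin d → ℝ) (u : (Fin d → ℝ) → L → ℝ), Gnc Λ w₀ ∧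
      ordRel Λ w₀ = c.1.1 ∧ (∀ w ∈ closedCh c.1.1, Over (gF g) w (u w)) ∧
      ∀ w ∈ closedCh c.1.1, ∀ q ∈ T, Real.log (u w q) = lin (c.1.2 q) w := by
    rintro ⟨⟨E, l⟩, w₀, hw₀, hE, hl1, hl2, hR⟩
    have hE' : ordRel Λ w₀ = E := hE
    have h1 : ∀ w, ∃ v : L → ℝ, w ∈ closedCh E → Over (gF g) w v ∧
        ∀ q ∈ T, Real.log (v q) = lin (l q) w := by
      intro w
      by_cases hw : w ∈ closedCh E
      · obtain ⟨v, hv, hvl⟩ := rlz_closure hi hF hT0 hΛ hl1 hw₀ (by rw [hE']; exact hw) hR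
        exact ⟨v, fun _ => ⟨hv, hvl⟩⟩
      · exact ⟨fun _ => 0, fun h => absurd h hw⟩
    choose u hu using h1
    exact ⟨w₀, u, hw₀, hE, fun w hw => (hu w hw).1, fun w hw => (hu w hw).2⟩
  choose W₀ u hW₀ hW₀' hu hul using hsec
  have hpt : ∀ (c : C) (z : D → ℝ), (∀ k, 0 ≤ ℓ c k z) →
      (fun P => Real.log (u c (wl z) (em L P))) ∈ Sig g ∧
        ev D (fun P => Real.log (u c (wl z) (em L P))) = z := by
    intro c z hz
    obtain ⟨h1, h2, h3⟩ := (hcell c z).1 hz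
    obtain ⟨hval, hmono⟩ := isVal_of_inX hfr (hu c _ h1).inX
    have hev : ∀ P : D, Real.log (u c (wl z) (em L (P : Poly d))) = z P := by
      intro P
      rw [hul c _ h1 _ (hDT P P.2), h2 P]
    refine ⟨⟨⟨hval, fun P hP => ?_⟩, hmono⟩, funext hev⟩
    have h4 := jac_ineq hfr hval hmono P hP
    have h5 : Real.log (u c (wl z) (em L (jac g))) ≤
        ∑ i, Real.log (u c (wl z) (em L (g i))) := by
      rw [hev ⟨jac g, hDj⟩, Finset.sum_congr rfl fun i _ => hev ⟨g i, hDg i⟩]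
      exact h3
    simp only at h4 ⊢
    linarith
  let s : (D → ℝ) → (Poly d → ℝ) := fun z => if h : ∃ h ∈ Sig g, ev D h = z then h.choose else 0
  have hs : ∀ h ∈ Sig g, s (ev D h) = h := by
    intro h hh
    have h1 : ∃ h' ∈ Sig g, ev D h' = ev D h := ⟨h, hh, rfl⟩
    have h2 : s (ev D h) = h1.choose := dif_pos h1
    rw [h2]
    exact hinj _ h1.choose_spec.1 _ hh h1.choose_spec.2
  have hspt : ∀ (c : C) (z : D → ℝ), (∀ k, 0 ≤ ℓ c k z) →
      s z = fun P => Real.log (u c (wl z) (em L P)) := by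
    intro c z hz
    obtain ⟨h1, h2⟩ := hpt c z hz
    have := hs _ h1
    rwa [h2] at this
  refine ⟨D, s, C, _, hCfin.to_subtype, inferInstance, ℓ, hDX, hs, ?_, ?_⟩
  · ext z
    rw [Set.mem_iUnion]
    constructor
    · rintro ⟨h, hh, rfl⟩
      obtain ⟨v, hv, hvP⟩ := exists_inX (L := L) hfr hh.1.1 hh.2
      have hover : Over (gF g) (fun i => h (g i)) v := ⟨hv, fun i => by rw [← em_g, hvP]⟩
      obtain ⟨w₀, l, hw₀, hl1, hl2, hR, hw, hl3⟩ := exists_cell hi hF hT0 hΛ hover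
      refine ⟨⟨(ordRel Λ w₀, l), w₀, hw₀, rfl, hl1, hl2, hR⟩, ?_⟩
      rw [Set.mem_ofPred_eq, hcell]
      refine ⟨hw, fun P => ?_, ?_⟩
      · change h P = _
        rw [hvP]
        exact hl3 _ (hDT P P.2)
      · exact hh.1.2 g hj
    · rintro ⟨c, hc⟩
      obtain ⟨h1, h2⟩ := hpt c z hc
      exact ⟨_, h1, h2⟩
  · intro c P
    have hconv : Convex ℝ {z : D → ℝ | ∀ k, 0 ≤ ℓ c k z} := by
      intro x hx y hy a b ha hb hab k
      rw [map_add, map_smul, map_smul, smul_eq_mul, smul_eq_mul]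
      exact add_nonneg (mul_nonneg ha (hx k)) (mul_nonneg hb (hy k))
    rcases eq_or_ne P 0 with rfl | hP
    · refine (convexOn_const (0 : ℝ) hconv).congr fun z hz => ?_
      change (0 : ℝ) = s z 0
      rw [hspt c z hz]
      exact ((hpt c z hz).1.1.1.zero).symm
    · have h1 := cell_convex hi hF hT0 hTi hTs hsep (Λ := Λ) (l := c.1.2)
        (w₀ := W₀ c) (u := u c) (q := em L P)
        (by
          obtain ⟨w, -, -, hl1, -⟩ := c.2
          exact hl1)
        (hW₀ c) (by rw [hW₀' c]; exact hu c) (by rw [hW₀' c]; exact hul c)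
        (hem hP) (gInt_em hfr P)
      rw [hW₀' c] at h1
      have h2 := h1.comp_linearMap wl
      refine (h2.subset ?_ hconv).congr fun z hz => ?_
      · intro z hz
        exact ((hcell c z).1 hz).1
      · change Real.log (u c (wl z) (em L P)) = s z P
        rw [hspt c z hz]

theorem cellsStatement (d : ℕ) [NeZero d] : CellsStatement d := by
  intro g hfr
  obtain ⟨D, s, α, β, hα, hβ, ℓ, h1, h2, h3, h4⟩ := cells_aux hfr
  obtain ⟨n, ⟨e⟩⟩ := Finite.exists_equiv_fin α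
  obtain ⟨m, ⟨f⟩⟩ := Finite.exists_equiv_fin β
  have hset : ∀ c : Fin n, {w : D → ℝ | ∀ k, 0 ≤ ℓ (e.symm c) (f.symm k) w} =
      {w : D → ℝ | ∀ k, 0 ≤ ℓ (e.symm c) k w} := by
    intro c
    ext w
    constructor
    · intro h k
      have := h (f k)
      rwa [Equiv.symm_apply_apply] at this
    · exact fun h k => h _
  refine ⟨D, s, n, m, fun c k => ℓ (e.symm c) (f.symm k), h1, h2, ?_, fun c P => ?_⟩
  · rw [h3]
    ext w
    rw [Set.mem_iUnion, Set.mem_iUnion]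
    constructor
    · rintro ⟨c, hc⟩
      refine ⟨e c, ?_⟩
      rw [hset, Equiv.symm_apply_apply]
      exact hc
    · rintro ⟨c, hc⟩
      rw [hset] at hc
      exact ⟨_, hc⟩
  · rw [hset]
    exact h4 _ P

end Pool.Agent.DAE
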