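import Pool.Agent.DAE.S.Lin

/-!
# Block S, package d2: integral elements and their characteristic polynomials

PROOFS. `GInt g z` is `RingHom.IsIntegralElem` for the homomorphism `aeval (algebraMap ∘ g)`, so it is
closed under sums, products, contains the image of `aeval g` (`RingHom.IsIntegralElem.mul`, ...).
(`GInt.conj`) apply `s` to the monic equation (its coefficients come from `F`, fixed by `s`).
(`exists_aeval_of_gInt`) `Poly d` is a unique factorisation domain, so integrally closed, with fraction
field `F` (by `aeval g`, `hi`, `hF`): an element `f : F` with `GInt g (algebraMap F L f)` satisfies a monic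
equation over `Poly d` (injectivity of `F → L`), so `f = aeval g B`
(introduce `Algebra (Poly d) F := (aeval g).toAlgebra`, `IsFractionRing (Poly d) F`, and use
`IsIntegrallyClosed.isIntegral_iff`).
(`exists_coeff`) The coefficients of `p = ∏_s (X - C (s z))` are fixed by the Galois group, so in the
image of `F` (`IsGalois`; e.g. `IsGalois.mem_bot_iff_fixed` or `IsGalois.mem_range_algebraMap_iff_fixed`),
and they are sums of products of conjugates of `z`, so integral (induction over the finite product:
all coefficients of `∏_{s ∈ S} (X - C (s z))` are `GInt`).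
(`exists_quot`) every `q : L` is `a / b` with `a, b` integral, `b ≠ 0`: `q` is algebraic over `Poly d`
(clear denominators), multiply by the leading coefficient (`exists_integral_multiple`-like, or
`IsAlgebraic.exists_integral_multiple`).
-/

set_option autoImplicit false
set_option linter.unusedSectionVars false
set_option linter.style.haveILetI false

namespace Pool.Agent.DAE

open Polynomial

variable {F L : Type*} [Field F] [Field L] [Algebra ℂ F] [Algebra ℂ L] [Algebra F L]
  [IsScalarTower ℂ F L] {d : ℕ} {g : Fin d → F}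

lemma GInt.mul {x y : L} (hx : GInt g x) (hy : GInt g y) : GInt g (x * y) :=
  RingHom.IsIntegralElem.mul _ hx hy

lemma GInt.add {x y : L} (hx : GInt g x) (hy : GInt g y) : GInt g (x + y) :=
  RingHom.IsIntegralElem.add _ hx hy

lemma gInt_one : GInt g (1 : L) := RingHom.isIntegralElem_one _

lemma GInt.pow {x : L} (hx : GInt g x) (n : ℕ) : GInt g (x ^ n) := by
  induction n with
  | zero => rw [pow_zero]; exact gInt_one
  | succ n ih => rw [pow_succ]; exact ih.mul hx

lemma GInt.prod {ι : Type*} (s : Finset ι) {f : ι → L} (h : ∀ i ∈ s, GInt g (f i)) :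
    GInt g (∏ i ∈ s, f i) := by
  classical
  induction s using Finset.induction_on with
  | empty => rw [Finset.prod_empty]; exact gInt_one
  | insert a s ha ih =>
    rw [Finset.prod_insert ha]
    exact (h _ (Finset.mem_insert_self _ _)).mul (ih fun i hi => h i (Finset.mem_insert_of_mem hi))

theorem gInt_aeval (P : Poly d) : GInt g (algebraMap F L (MvPolynomial.aeval g P)) := by
  rw [algebraMap_aeval]
  exact RingHom.isIntegralElem_map _

omit [Algebra ℂ F] [IsScalarTower ℂ F L] [Algebra ℂ L] in
/-- Galois conjugation of a root of a polynomial over `F` -/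
private theorem eval_conj {R : Type*} [CommRing R] (f : R →+* F) (z : L) (s : L ≃ₐ[F] L)
    (p : R[X]) : eval₂ ((algebraMap F L).comp f) (s z) p =
      s (eval₂ ((algebraMap F L).comp f) z p) := by
  have h := Polynomial.hom_eval₂ p ((algebraMap F L).comp f) ((s : L →ₐ[F] L) : L →+* L) z
  have e : (((s : L →ₐ[F] L) : L →+* L)).comp ((algebraMap F L).comp f) =
      (algebraMap F L).comp f := by
    ext x
    simp
  rw [e] at h
  exact h.symm

private theorem hom_eq : ((MvPolynomial.aeval fun i => algebraMap F L (g i) : Poly d →ₐ[ℂ] L) :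
    Poly d →+* L) = (algebraMap F L).comp
      ((MvPolynomial.aeval g : Poly d →ₐ[ℂ] F) : Poly d →+* F) := by
  ext x
  · simp [← IsScalarTower.algebraMap_apply]
  · simp

theorem GInt.conj {z : L} (hz : GInt g z) (s : L ≃ₐ[F] L) : GInt g (s z) := by
  obtain ⟨p, hp, h⟩ := hz
  refine ⟨p, hp, ?_⟩
  rw [hom_eq] at h ⊢
  rw [eval_conj, h, map_zero]

private theorem gInt_zero : GInt g (0 : L) := RingHom.isIntegralElem_zero _

private theorem gInt_neg {x : L} (hx : GInt g x) : GInt g (-x) :=
  RingHom.IsIntegralElem.neg _ hx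

private theorem gInt_sum {ι : Type*} (s : Finset ι) {f : ι → L} (h : ∀ i ∈ s, GInt g (f i)) :
    GInt g (∑ i ∈ s, f i) := by
  classical
  induction s using Finset.induction_on with
  | empty => rw [Finset.sum_empty]; exact gInt_zero
  | insert a s ha ih =>
    rw [Finset.sum_insert ha]
    exact (h _ (Finset.mem_insert_self _ _)).add (ih fun i hi => h i (Finset.mem_insert_of_mem hi))

private theorem gInt_coeff {ι : Type*} (s : Finset ι) {f : ι → L[X]}
    (h : ∀ i ∈ s, ∀ n, GInt g ((f i).coeff n)) : ∀ n, GInt g ((∏ i ∈ s, f i).coeff n) := by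
  classical
  induction s using Finset.induction_on with
  | empty =>
    intro n
    rw [Finset.prod_empty, coeff_one]
    split_ifs
    · exact gInt_one
    · exact gInt_zero
  | insert a s ha ih =>
    intro n
    rw [Finset.prod_insert ha, coeff_mul]
    exact gInt_sum _ fun q _ => (h _ (Finset.mem_insert_self _ _) _).mul
      (ih (fun i hi => h i (Finset.mem_insert_of_mem hi)) _)

theorem exists_aeval_of_gInt (hi : AlgebraicIndependent ℂ g) (hF : Gen g) {f : F}
    (h : GInt g (algebraMap F L f)) : ∃ B : Poly d, f = MvPolynomial.aeval g B := by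
  letI : Algebra (Poly d) F := (MvPolynomial.aeval g : Poly d →ₐ[ℂ] F).toRingHom.toAlgebra
  have hmap : ∀ P : Poly d, algebraMap (Poly d) F P = MvPolynomial.aeval g P := fun _ => rfl
  haveI : FaithfulSMul (Poly d) F := (faithfulSMul_iff_algebraMap_injective _ _).2 hi
  haveI : IsFractionRing (Poly d) F := by
    refine IsFractionRing.of_field (Poly d) F fun z => ?_
    obtain ⟨P, Q, -, hz⟩ := hF z
    exact ⟨P, Q, by rw [hmap, hmap]; exact hz⟩
  haveI : IsIntegrallyClosed (Poly d) := UniqueFactorizationMonoid.instIsIntegrallyClosed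
  have hf : IsIntegral (Poly d) f := by
    obtain ⟨p, hp, h1⟩ := h
    refine ⟨p, hp, ?_⟩
    rw [hom_eq, ← Polynomial.hom_eval₂] at h1
    exact (map_eq_zero_iff _ (algebraMap F L).injective).1 h1
  obtain ⟨B, hB⟩ := IsIntegrallyClosed.isIntegral_iff.1 hf
  exact ⟨B, hB.symm⟩

open Classical in
theorem exists_coeff [FiniteDimensional F L] [IsGalois F L] (hi : AlgebraicIndependent ℂ g)
    (hF : Gen g) {z : L} (hz : GInt g z) (k : ℕ) :
    ∃ B : Poly d, (∏ s : L ≃ₐ[F] L, (X - C (s z))).coeff k =
      algebraMap F L (MvPolynomial.aeval g B) := by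
  set p : L[X] := ∏ s : L ≃ₐ[F] L, (X - C (s z)) with hp
  have h1 : GInt g (p.coeff k) := by
    refine gInt_coeff _ (fun s _ n => ?_) k
    rw [coeff_sub, coeff_X, coeff_C, sub_eq_add_neg]
    refine GInt.add ?_ (gInt_neg ?_)
    · split_ifs
      · exact gInt_one
      · exact gInt_zero
    · split_ifs
      · exact hz.conj s
      · exact gInt_zero
  have h2 : ∀ t : L ≃ₐ[F] L, p.map ((t : L →ₐ[F] L) : L →+* L) = p := by
    intro t
    rw [hp, Polynomial.map_prod]
    refine Fintype.prod_equiv (Equiv.mulLeft t) _ _ fun s => ?_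
    rw [Polynomial.map_sub, Polynomial.map_X, Polynomial.map_C]
    rfl
  obtain ⟨f, hf⟩ := (IsGalois.mem_range_algebraMap_iff_fixed (F := F) (p.coeff k)).2 fun t => by
    conv_rhs => rw [← h2 t]
    rw [coeff_map]
    rfl
  rw [← hf] at h1
  obtain ⟨B, hB⟩ := exists_aeval_of_gInt hi hF h1
  exact ⟨B, by rw [← hf, hB]⟩

theorem exists_quot [Algebra.IsAlgebraic F L] (hF : Gen g) (q : L) :
    ∃ a b : L, GInt g a ∧ GInt g b ∧ b ≠ 0 ∧ q = a / b := by
  classical
  have hq : IsIntegral F q := (Algebra.IsAlgebraic.isAlgebraic q).isIntegral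
  set p := minpoly F q with hp
  have hpm : p.Monic := minpoly.monic hq
  have hpq : aeval q p = 0 := minpoly.aeval F q
  choose P Q hQ hPQ using fun f : F => hF f
  set D : Poly d := ∏ i ∈ Finset.range p.natDegree, Q (p.coeff i) with hD
  set e : F := MvPolynomial.aeval g D with he
  have he0 : e ≠ 0 := by
    rw [he, hD, map_prod]
    exact Finset.prod_ne_zero_iff.2 fun i _ => hQ _
  have hlift : p.scaleRoots e ∈ lifts ((MvPolynomial.aeval g : Poly d →ₐ[ℂ] F) : Poly d →+* F) := by
    rw [lifts_iff_coeff_lifts]
    intro n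
    rw [coeff_scaleRoots]
    rcases lt_trichotomy n p.natDegree with h | h | h
    · have h1 : p.natDegree - n = (p.natDegree - n - 1) + 1 := by omega
      have h2 : p.coeff n * e = MvPolynomial.aeval g (P (p.coeff n) *
          ∏ i ∈ (Finset.range p.natDegree).erase n, Q (p.coeff i)) := by
        have h3 : D = Q (p.coeff n) *
            ∏ i ∈ (Finset.range p.natDegree).erase n, Q (p.coeff i) :=
          (Finset.mul_prod_erase _ _ (Finset.mem_range.2 h)).symm
        rw [he, h3, map_mul, map_mul]
        have h4 := hPQ (p.coeff n)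
        have h5 := hQ (p.coeff n)
        rw [eq_div_iff h5] at h4
        rw [← h4]
        ring
      refine ⟨P (p.coeff n) * (∏ i ∈ (Finset.range p.natDegree).erase n, Q (p.coeff i)) *
        D ^ (p.natDegree - n - 1), ?_⟩
      rw [h1, pow_succ]
      change MvPolynomial.aeval g _ = _
      rw [map_mul, ← h2, map_pow, ← he]
      simp only [Nat.add_sub_cancel]
      ring
    · subst h
      rw [hpm.coeff_natDegree]
      exact ⟨1, by simp⟩
    · rw [coeff_eq_zero_of_natDegree_lt h]
      exact ⟨0, by simp⟩
  obtain ⟨p', hp'1, -, hp'2⟩ := lifts_and_natDegree_eq_and_monic hlift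
    ((monic_scaleRoots_iff e).2 hpm)
  have hL0 : algebraMap F L e ≠ 0 := (map_ne_zero_iff _ (algebraMap F L).injective).2 he0
  refine ⟨algebraMap F L e * q, algebraMap F L e, ⟨p', hp'2, ?_⟩, gInt_aeval D, hL0, ?_⟩
  · rw [hom_eq, ← Polynomial.eval₂_map, hp'1]
    exact scaleRoots_aeval_eq_zero hpq
  · rw [mul_div_cancel_left₀ _ hL0]

end Pool.Agent.DAE
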