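import Pool.Agent.DAE.S.Expo
import Pool.Agent.DAE.S.Exist
import Pool.Agent.DAE.S.Sep

/-!
# Block S, package b3: compactness and openness in `X`

PROOF of `exists_lim`. For `x ≠ 0` let `Λ` be as in `exists_exponents`. `𝒰` is an ultrafilter and `Λ`
finite, so there is one `l ∈ Λ` with `log (u i x) = lin l (w_i)`, `w_i = (log u i (g k))_k`, for almost all
`i` (`Ultrafilter.eventually_exists_iff` or `Ultrafilter.eventually_exists_mem_iff`), hence
`log (u i x) → lin l w =: ℓ x`. Put `v x = exp (ℓ x)` for `x ≠ 0`, `v 0 = 0`. Check `NAbs`: multiplicativity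
and the ultrametric inequality pass to the limit (`𝒰` is `NeBot`; `log` of `u i (x + y) ≤ max ..` when
`x, y, x + y ≠ 0`), `nat`, `const`: `u i c = 1`. `mono`: `∏ u i (g k)^(m k) ≤ u i (P(g))`, take logarithms
and limits (if `P(g) = 0` then by `hi` `P = 0` and there is no `m`). `log v (g k) = w k`.

PROOF of `exists_lift`. Choose `u₀ i` over `ws i` (`exists_over`). `log (u₀ i (g k)) = ws i k → w k`, so by
`exists_lim` `u₀` converges to some `v₀` over `w`; `v₀` and `v` agree at the `g k`, so on `F`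
(`InX.eq_base`), and `exists_conj` gives `σ` with `v₀ (σ x) = v x`. Put `u i = u₀ i ∘ σ` (`InX.conj`;
`σ` fixes `g k`): `log (u i x) = log (u₀ i (σ x)) → log (v₀ (σ x)) = log (v x)`.
-/

set_option autoImplicit false

namespace Pool.Agent.DAE

open MvPolynomial Filter Topology

variable {F L : Type*} [Field F] [Field L] [Algebra ℂ F] [Algebra ℂ L] [Algebra F L]
  [IsScalarTower ℂ F L] [FiniteDimensional F L] {d : ℕ} {g : Fin d → F} {I : Type*}

theorem exists_lim (hi : AlgebraicIndependent ℂ g) (hF : Gen g) (𝒰 : Ultrafilter I)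
    {u : I → L → ℝ} (hu : ∀ i, InX g (u i)) {w : Fin d → ℝ}
    (hw : ∀ k, Tendsto (fun i => Real.log (u i (algebraMap F L (g k)))) 𝒰 (𝓝 (w k))) :
    ∃ v : L → ℝ, Over g w v ∧
      ∀ x, x ≠ 0 → Tendsto (fun i => Real.log (u i x)) 𝒰 (𝓝 (Real.log (v x))) := by
  classical
  have hlim : ∀ x : L, ∃ l : ℝ, x ≠ 0 → Tendsto (fun i => Real.log (u i x)) 𝒰 (𝓝 l) := by
    intro x
    by_cases hx : x = 0
    · exact ⟨0, fun h => absurd hx h⟩
    · obtain ⟨Λ, hΛ⟩ := exists_exponents (L := L) hi hF hx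
      have h1 : ∀ᶠ i in (𝒰 : Filter I), ∃ l ∈ (Λ : Set (Fin d → ℝ)), Real.log (u i x) =
          lin l fun k => Real.log (u i (algebraMap F L (g k))) :=
        Eventually.of_forall fun i => hΛ _ _ (hu i).over
      obtain ⟨l, -, h2⟩ := (Ultrafilter.eventually_exists_mem_iff Λ.finite_toSet).1 h1
      refine ⟨lin l w, fun _ => ?_⟩
      have h3 : Tendsto (fun i => lin l fun k => Real.log (u i (algebraMap F L (g k)))) 𝒰
          (𝓝 (lin l w)) := ((continuous_lin l).tendsto w).comp (tendsto_pi_nhds.2 hw)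
      exact h3.congr' (h2.mono fun i hi' => hi'.symm)
  choose l hl using hlim
  have hn : ∀ i, NAbs (u i) := fun i => (hu i).nabs
  have hpos : ∀ i {x : L}, x ≠ 0 → 0 < u i x := fun i x hx => (hn i).pos hx
  have hC : CharZero L := charZero_of_injective_algebraMap (algebraMap ℂ L).injective
  obtain ⟨v, hv⟩ : ∃ v : L → ℝ, v = fun x => if x = 0 then 0 else Real.exp (l x) := ⟨_, rfl⟩
  have hv0 : v 0 = 0 := by rw [hv]; exact if_pos rfl
  have hv1 : ∀ {x : L}, x ≠ 0 → v x = Real.exp (l x) := fun {x} hx => by rw [hv]; exact if_neg hx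
  have hlog : ∀ {x : L}, x ≠ 0 → Real.log (v x) = l x := fun {x} hx => by
    rw [hv1 hx, Real.log_exp]
  have hconst : ∀ {x : L}, x ≠ 0 → (∀ i, u i x = 1) → v x = 1 := by
    intro x hx h
    have h1 : l x = 0 := by
      refine tendsto_nhds_unique (hl x hx) ?_
      simp only [h, Real.log_one]
      exact tendsto_const_nhds
    rw [hv1 hx, h1, Real.exp_zero]
  have hg : ∀ k, algebraMap F L (g k) ≠ 0 := fun k =>
    (map_ne_zero_iff _ (algebraMap F L).injective).2 (hi.ne_zero k)
  have hlg : ∀ k, l (algebraMap F L (g k)) = w k := fun k =>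
    tendsto_nhds_unique (hl _ (hg k)) (hw k)
  have hnabs : NAbs v := by
    refine ⟨fun x => ?_, fun x h => ?_, hv0, fun x y => ?_, fun x y => ?_, fun n h => ?_⟩
    · by_cases hx : x = 0
      · rw [hx, hv0]
      · rw [hv1 hx]
        exact (Real.exp_pos _).le
    · by_contra hx
      rw [hv1 hx] at h
      exact (Real.exp_pos _).ne' h
    · by_cases hx : x = 0
      · rw [hx, zero_mul, hv0, zero_mul]
      by_cases hy : y = 0
      · rw [hy, mul_zero, hv0, mul_zero]
      rw [hv1 (mul_ne_zero hx hy), hv1 hx, hv1 hy, ← Real.exp_add]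
      congr 1
      refine tendsto_nhds_unique (hl _ (mul_ne_zero hx hy)) ?_
      have h1 := (hl x hx).add (hl y hy)
      refine h1.congr fun i => ?_
      rw [(hn i).mul, Real.log_mul (hpos i hx).ne' (hpos i hy).ne']
    · have hnn : ∀ z, 0 ≤ v z := fun z => by
        by_cases hz : z = 0
        · rw [hz, hv0]
        · rw [hv1 hz]
          exact (Real.exp_pos _).le
      by_cases hx : x = 0
      · rw [hx, zero_add]
        exact le_max_right _ _
      by_cases hy : y = 0
      · rw [hy, add_zero]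
        exact le_max_left _ _
      by_cases hxy : x + y = 0
      · rw [hxy, hv0]
        exact le_max_of_le_left (hnn x)
      rw [hv1 hxy, hv1 hx, hv1 hy, ← Real.exp_monotone.map_max]
      refine Real.exp_le_exp.2 ?_
      refine le_of_tendsto_of_tendsto' (hl _ hxy) ((hl x hx).max (hl y hy)) fun i => ?_
      rw [← (Real.strictMonoOn_log.monotoneOn.map_max (hpos i hx) (hpos i hy))]
      exact Real.log_le_log (hpos i hxy) ((hn i).add x y)
    · exact hconst (Nat.cast_ne_zero.2 h) fun i => (hn i).nat n h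
  refine ⟨v, ⟨⟨hnabs, fun c hc => ?_, fun P m hm => ?_⟩, fun k => ?_⟩, fun x hx => ?_⟩
  · exact hconst ((map_ne_zero_iff _ (algebraMap ℂ L).injective).2 hc) fun i =>
      (hu i).const c hc
  · have hP : P ≠ 0 := by
      rintro rfl
      simp at hm
    have hPg : algebraMap F L (aeval g P) ≠ 0 := by
      refine (map_ne_zero_iff _ (algebraMap F L).injective).2 fun h0 => hP (hi ?_)
      rw [h0, map_zero]
    have h1 : ∀ k, v (algebraMap F L (g k)) = Real.exp (w k) := fun k => by
      rw [hv1 (hg k), hlg]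
    have h2 : ∏ k, v (algebraMap F L (g k)) ^ m k = Real.exp (∑ k, (m k : ℝ) * w k) := by
      rw [Real.exp_sum]
      refine Finset.prod_congr rfl fun k _ => ?_
      rw [h1, ← Real.exp_nat_mul]
    rw [h2, hv1 hPg]
    refine Real.exp_le_exp.2 ?_
    have h3 : Tendsto (fun i => ∑ k, (m k : ℝ) * Real.log (u i (algebraMap F L (g k)))) 𝒰
        (𝓝 (∑ k, (m k : ℝ) * w k)) := tendsto_finsetSum _ fun k _ => (hw k).const_mul _
    refine le_of_tendsto_of_tendsto' h3 (hl _ hPg) fun i => ?_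
    have h4 : Real.log (∏ k, u i (algebraMap F L (g k)) ^ m k) =
        ∑ k, (m k : ℝ) * Real.log (u i (algebraMap F L (g k))) := by
      rw [Real.log_prod fun k _ => pow_ne_zero _ (hpos i (hg k)).ne']
      exact Finset.sum_congr rfl fun k _ => Real.log_pow _ _
    rw [← h4]
    exact Real.log_le_log (Finset.prod_pos fun k _ => pow_pos (hpos i (hg k)) _)
      ((hu i).mono P m hm)
  · rw [hlog (hg k), hlg]
  · rw [hlog hx]
    exact hl x hx

theorem exists_lift [IsGalois F L] (hi : AlgebraicIndependent ℂ g) (hF : Gen g)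
    (𝒰 : Ultrafilter I) {w : Fin d → ℝ} {v : L → ℝ} (hv : Over g w v) {ws : I → Fin d → ℝ}
    (hws : Tendsto ws 𝒰 (𝓝 w)) :
    ∃ u : I → L → ℝ, (∀ i, Over g (ws i) (u i)) ∧
      ∀ x, x ≠ 0 → Tendsto (fun i => Real.log (u i x)) 𝒰 (𝓝 (Real.log (v x))) := by
  have hg : ∀ k, g k ≠ 0 := fun k => hi.ne_zero k
  choose u₀ hu₀ using fun i => exists_over (L := L) hi hF (ws i)
  obtain ⟨v₀, hv₀, hl⟩ := exists_lim hi hF 𝒰 (fun i => (hu₀ i).inX) (w := w) fun k => by
    simp only [(hu₀ _).log]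
    exact (tendsto_pi_nhds.1 hws) k
  obtain ⟨σ, hσ⟩ := exists_conj hv₀.inX.nabs hv.inX.nabs (hv₀.inX.eq_base hv.inX hF fun k => by
    rw [hv₀.eq_exp hg, hv.eq_exp hg])
  refine ⟨fun i x => u₀ i (σ x), fun i => ⟨(hu₀ i).inX.conj σ, fun k => ?_⟩, fun x hx => ?_⟩
  · change Real.log (u₀ i (σ (algebraMap F L (g k)))) = ws i k
    rw [σ.commutes]
    exact (hu₀ i).log k
  · rw [← hσ x]
    exact hl (σ x) ((map_ne_zero_iff σ σ.injective).2 hx)

end Pool.Agent.DAE
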