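import Pool.Agent.DAE.X.Embed

/-!
# Block S, part (c), separation: definitions

`F = ℂ(g_1, ..., g_d)`, `L` a finite Galois extension of `F`. `InX g v`: `v` is a real valued
absolute value of `L` (multiplicative notation, `DAE/X/NAbs`) which is trivial on the constants and
monomial on `ℂ[g]`. A family `δ : κ → L` gives the ring `MvPolynomial κ ℂ` with the weights
`v (δ k)` and the ideal `inI v δ` of all polynomials all of whose weighted homogeneous components
`P_γ` satisfy `v (P_γ(δ)) < γ`.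
-/

set_option autoImplicit false

namespace Pool.Agent.DAE

open MvPolynomial

section InX

/-- `F` is the field of fractions of `ℂ[g]` -/
def Gen {F : Type*} [Field F] [Algebra ℂ F] {d : ℕ} (g : Fin d → F) : Prop :=
  ∀ f : F, ∃ P Q : MvPolynomial (Fin d) ℂ, aeval g Q ≠ 0 ∧ f = aeval g P / aeval g Q

variable {F L : Type*} [Field F] [Field L] [Algebra ℂ F] [Algebra ℂ L] [Algebra F L] {d : ℕ}

/-- `v` is an absolute value of `L`, trivial on `ℂ`, and monomial on `ℂ[g]` -/
structure InX (g : Fin d → F) (v : L → ℝ) : Prop where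
  nabs : NAbs v
  const : ∀ c : ℂ, c ≠ 0 → v (algebraMap ℂ L c) = 1
  mono : ∀ (P : MvPolynomial (Fin d) ℂ), ∀ m ∈ P.support,
    ∏ i, v (algebraMap F L (g i)) ^ m i ≤ v (algebraMap F L (aeval g P))

end InX

section Weights

variable {κ : Type*} [Fintype κ]

/-- the weight of the monomial `m` -/
noncomputable def wt (w : κ → ℝ) (m : κ →₀ ℕ) : ℝ := ∏ k, w k ^ m k

/-- all monomials of `P` have the weight `γ` -/
def IsHomW (w : κ → ℝ) (γ : ℝ) (P : MvPolynomial κ ℂ) : Prop := ∀ m ∈ P.support, wt w m = γ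

open scoped Classical in
/-- the component of weight `γ` -/
noncomputable def cmp (w : κ → ℝ) (γ : ℝ) (P : MvPolynomial κ ℂ) : MvPolynomial κ ℂ :=
  ∑ m ∈ P.support.filter (fun m => wt w m = γ), monomial m (coeff m P)

lemma wt_zero (w : κ → ℝ) : wt w 0 = 1 := by simp [wt]

lemma wt_add (w : κ → ℝ) (m n : κ →₀ ℕ) : wt w (m + n) = wt w m * wt w n := by
  simp only [wt, Finsupp.add_apply, pow_add, Finset.prod_mul_distrib]

lemma wt_pos {w : κ → ℝ} (hw : ∀ k, 0 < w k) (m : κ →₀ ℕ) : 0 < wt w m :=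
  Finset.prod_pos fun k _ => pow_pos (hw k) _

lemma wt_single [DecidableEq κ] (w : κ → ℝ) (k : κ) (n : ℕ) :
    wt w (Finsupp.single k n) = w k ^ n := by
  rw [wt, Finset.prod_eq_single k]
  · rw [Finsupp.single_eq_same]
  · intro b _ hb
    rw [Finsupp.single_eq_of_ne hb, pow_zero]
  · intro h
    exact absurd (Finset.mem_univ k) h

lemma coeff_cmp (w : κ → ℝ) (γ : ℝ) (P : MvPolynomial κ ℂ) (m : κ →₀ ℕ) :
    coeff m (cmp w γ P) = if wt w m = γ then coeff m P else 0 := by
  classical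
  rw [cmp, coeff_sum]
  simp only [coeff_monomial]
  rw [Finset.sum_ite_eq']
  simp only [Finset.mem_filter, mem_support_iff]
  by_cases h1 : coeff m P = 0
  · simp [h1]
  · simp [h1]

lemma isHomW_cmp (w : κ → ℝ) (γ : ℝ) (P : MvPolynomial κ ℂ) : IsHomW w γ (cmp w γ P) := by
  intro m hm
  rw [mem_support_iff, coeff_cmp] at hm
  by_contra h
  exact hm (if_neg h)

lemma IsHomW.cmp_eq {w : κ → ℝ} {γ : ℝ} {P : MvPolynomial κ ℂ} (h : IsHomW w γ P) :
    cmp w γ P = P := by
  ext m
  rw [coeff_cmp]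
  split_ifs with h1
  · rfl
  · by_contra hc
    exact h1 (h m (mem_support_iff.2 (Ne.symm hc)))

lemma IsHomW.cmp_eq_zero {w : κ → ℝ} {γ γ' : ℝ} {P : MvPolynomial κ ℂ} (h : IsHomW w γ P)
    (hne : γ ≠ γ') : cmp w γ' P = 0 := by
  ext m
  rw [coeff_cmp, coeff_zero]
  split_ifs with h1
  · by_contra hc
    exact hne ((h m (mem_support_iff.2 hc)).symm.trans h1)
  · rfl

end Weights

section Ideal

variable {L : Type*} [Field L] [Algebra ℂ L] {κ : Type*} [Fintype κ] {v : L → ℝ}

/-- `v` is an absolute value, trivial on the complex numbers -/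
structure CAbs (v : L → ℝ) : Prop where
  nabs : NAbs v
  const : ∀ c : ℂ, c ≠ 0 → v (algebraMap ℂ L c) = 1

lemma CAbs.const_le (hv : CAbs v) (c : ℂ) : v (algebraMap ℂ L c) ≤ 1 := by
  rcases eq_or_ne c 0 with rfl | hc
  · rw [map_zero, hv.nabs.zero]
    exact zero_le_one
  · exact (hv.const c hc).le

lemma CAbs.aeval_monomial (hv : CAbs v) (δ : κ → L) (m : κ →₀ ℕ) {c : ℂ} (hc : c ≠ 0) :
    v (aeval δ (monomial m c)) = wt (fun k => v (δ k)) m := by
  rw [MvPolynomial.aeval_monomial, hv.nabs.mul, hv.const c hc, one_mul, wt,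
    Finsupp.prod_fintype _ _ fun k => pow_zero _, hv.nabs.prod]
  exact Finset.prod_congr rfl fun k _ => hv.nabs.pow _ _

/-- the value of a homogeneous polynomial is at most its weight -/
lemma CAbs.aeval_le (hv : CAbs v) (δ : κ → L) {γ : ℝ} (hγ : 0 ≤ γ) {P : MvPolynomial κ ℂ}
    (hP : ∀ m ∈ P.support, wt (fun k => v (δ k)) m ≤ γ) : v (aeval δ P) ≤ γ := by
  rw [P.as_sum, map_sum]
  refine hv.nabs.sum_le hγ fun m hm => ?_
  rw [hv.aeval_monomial δ m (mem_support_iff.1 hm)]
  exact hP m hm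

/-- strict version -/
lemma CAbs.aeval_lt (hv : CAbs v) (δ : κ → L) {γ : ℝ} (hγ : 0 < γ) {P : MvPolynomial κ ℂ}
    (hP : ∀ m ∈ P.support, wt (fun k => v (δ k)) m < γ) : v (aeval δ P) < γ := by
  rw [P.as_sum, map_sum]
  refine hv.nabs.sum_lt hγ fun m hm => ?_
  rw [hv.aeval_monomial δ m (mem_support_iff.1 hm)]
  exact hP m hm

/-- `P` is in the ideal of the initial forms: all components have a small value -/
def InI (v : L → ℝ) (δ : κ → L) (P : MvPolynomial κ ℂ) : Prop :=
  ∀ γ : ℝ, 0 < γ → v (aeval δ (cmp (fun k => v (δ k)) γ P)) < γ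

end Ideal

lemma InX.cabs {F L : Type*} [Field F] [Field L] [Algebra ℂ F] [Algebra ℂ L] [Algebra F L]
    {d : ℕ} {g : Fin d → F} {v : L → ℝ} (hv : InX g v) : CAbs v := ⟨hv.nabs, hv.const⟩

section Galois

variable {F L : Type*} [Field F] [Field L] [Algebra ℂ F] [Algebra ℂ L] [Algebra F L]
  [IsScalarTower ℂ F L] {d : ℕ} {g : Fin d → F} {v : L → ℝ}

/-- the conjugate of a point of `X` -/
lemma InX.conj (hv : InX g v) (s : L ≃ₐ[F] L) : InX g fun x => v (s x) where
  nabs := hv.nabs.comp ((s : L →ₐ[F] L) : L →+* L) (RingHom.injective _)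
  const c hc := by
    have h : s (algebraMap ℂ L c) = algebraMap ℂ L c := by
      rw [IsScalarTower.algebraMap_apply ℂ F L, s.commutes]
    change v (s (algebraMap ℂ L c)) = 1
    rw [h]
    exact hv.const c hc
  mono P m hm := by
    simp only [s.commutes]
    exact hv.mono P m hm

/-- the stabilizer (decomposition group) of `v` -/
def Gv (F : Type*) {L : Type*} [Field F] [Field L] [Algebra F L] (v : L → ℝ) :
    Subgroup (L ≃ₐ[F] L) where
  carrier := {s | ∀ x, v (s x) = v x}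
  one_mem' := fun _ => rfl
  mul_mem' := by
    intro s t hs ht x
    rw [AlgEquiv.mul_apply, hs, ht]
  inv_mem' := by
    intro s hs x
    have h := hs (s⁻¹ x)
    rw [← AlgEquiv.mul_apply, mul_inv_cancel, AlgEquiv.one_apply] at h
    exact h.symm

omit [Algebra ℂ F] [Algebra ℂ L] [IsScalarTower ℂ F L] in
lemma mem_Gv {s : L ≃ₐ[F] L} : s ∈ Gv F v ↔ ∀ x, v (s x) = v x := Iff.rfl

/-- a finite system of elements of `L` which is stable under the Galois group, contains the
`g_i` and (nonzero) differences `s a - a` for all `s ≠ 1` -/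
structure Sys (g : Fin d → F) {κ : Type*} (δ : κ → L) : Prop where
  ne : ∀ k, δ k ≠ 0
  stable : ∀ (s : L ≃ₐ[F] L) (k : κ), ∃ k', δ k' = s (δ k)
  gmem : ∀ i, ∃ k, δ k = algebraMap F L (g i)
  diff : ∀ s : L ≃ₐ[F] L, s ≠ 1 → ∃ a : L, ∃ k, δ k = s a - a

end Galois

end Pool.Agent.DAE
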