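import Pool.Agent.DAE.Interface
import Pool.Agent.DAE.S.SepDefs

/-!
# Block S, parts (b), (d): logarithmic coordinates

`Over g w v` : `v` is in `X` with `log v (g i) = w i`. `lin l w = ∑ l i * w i`. `GInt g z`: `z` is
integral over `ℂ[g]`.
-/

set_option autoImplicit false
set_option linter.unusedSectionVars false

namespace Pool.Agent.DAE

open MvPolynomial

/-- linear forms -/
def lin {d : ℕ} (l w : Fin d → ℝ) : ℝ := ∑ i, l i * w i

section

variable {d : ℕ}

lemma lin_sub_left (l l' w : Fin d → ℝ) : lin (l - l') w = lin l w - lin l' w := by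
  simp [lin, sub_mul, Finset.sum_sub_distrib]

lemma lin_add_right (l w w' : Fin d → ℝ) : lin l (w + w') = lin l w + lin l w' := by
  simp [lin, mul_add, Finset.sum_add_distrib]

lemma lin_smul_right (l : Fin d → ℝ) (c : ℝ) (w : Fin d → ℝ) : lin l (c • w) = c * lin l w := by
  simp only [lin, Pi.smul_apply, smul_eq_mul, Finset.mul_sum]
  exact Finset.sum_congr rfl fun i _ => by ring

lemma continuous_lin (l : Fin d → ℝ) : Continuous (lin l) := by
  unfold lin
  fun_prop

end

variable {F L : Type*} [Field F] [Field L] [Algebra ℂ F] [Algebra ℂ L] [Algebra F L]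
  [IsScalarTower ℂ F L] {d : ℕ}

/-- points of `X` with given weights -/
structure Over (g : Fin d → F) (w : Fin d → ℝ) (v : L → ℝ) : Prop where
  inX : InX g v
  log : ∀ i, Real.log (v (algebraMap F L (g i))) = w i

/-- integral over `ℂ[g]` -/
def GInt (g : Fin d → F) (z : L) : Prop :=
  ((aeval fun i => algebraMap F L (g i) : Poly d →ₐ[ℂ] L) : Poly d →+* L).IsIntegralElem z

lemma algebraMap_aeval (g : Fin d → F) (P : Poly d) :
    algebraMap F L (aeval g P) = aeval (fun i => algebraMap F L (g i)) P := by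
  exact MvPolynomial.aeval_algebraMap_apply L g P |>.symm

/-- values at the `g i` are positive -/
lemma InX.gpos {g : Fin d → F} (hg : ∀ i, g i ≠ 0) {v : L → ℝ} (hv : InX g v) (i : Fin d) :
    0 < v (algebraMap F L (g i)) :=
  hv.nabs.pos ((map_ne_zero_iff _ (algebraMap F L).injective).2 (hg i))

lemma Over.eq_exp {g : Fin d → F} (hg : ∀ i, g i ≠ 0) {w : Fin d → ℝ} {v : L → ℝ}
    (h : Over g w v) (i : Fin d) : v (algebraMap F L (g i)) = Real.exp (w i) := by
  rw [← h.log i, Real.exp_log (h.inX.gpos hg i)]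

lemma InX.over {g : Fin d → F} {v : L → ℝ} (h : InX g v) :
    Over g (fun i => Real.log (v (algebraMap F L (g i)))) v := ⟨h, fun _ => rfl⟩

/-- value of a monomial -/
lemma InX.aeval_monomial {g : Fin d → F} {v : L → ℝ} (hv : InX g v) (m : Fin d →₀ ℕ) {c : ℂ}
    (hc : c ≠ 0) : v (algebraMap F L (aeval g (monomial m c))) =
      ∏ i, v (algebraMap F L (g i)) ^ m i := by
  rw [algebraMap_aeval, hv.cabs.aeval_monomial _ m hc]
  rfl

/-- upper bound by the monomials -/
lemma InX.aeval_le {g : Fin d → F} {v : L → ℝ} (hv : InX g v) (P : Poly d) {C : ℝ} (hC : 0 ≤ C)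
    (h : ∀ m ∈ P.support, ∏ i, v (algebraMap F L (g i)) ^ m i ≤ C) :
    v (algebraMap F L (aeval g P)) ≤ C := by
  rw [algebraMap_aeval]
  exact hv.cabs.aeval_le _ hC h

/-- the value of a nonzero polynomial is the value of one of its monomials -/
lemma InX.exists_mono_eq {g : Fin d → F} {v : L → ℝ} (hv : InX g v) {P : Poly d} (hP : P ≠ 0) :
    ∃ m ∈ P.support, v (algebraMap F L (aeval g P)) = ∏ i, v (algebraMap F L (g i)) ^ m i ∧
      ∀ m' ∈ P.support, ∏ i, v (algebraMap F L (g i)) ^ m' i ≤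
        ∏ i, v (algebraMap F L (g i)) ^ m i := by
  obtain ⟨m, hm, hmax⟩ := Finset.exists_max_image P.support
    (fun m => ∏ i, v (algebraMap F L (g i)) ^ m i) (support_nonempty.2 hP)
  exact ⟨m, hm, le_antisymm (hv.aeval_le P (Finset.prod_nonneg fun i _ =>
    pow_nonneg (hv.nabs.nonneg _) _) hmax) (hv.mono P m hm), hmax⟩

/-- `Λ` contains the exponents of all elements of `T` -/
def ExpSet (g : Fin d → F) (T : Finset L) (Λ : Finset (Fin d → ℝ)) : Prop :=
  ∀ w v, Over g w v → ∀ q ∈ T, ∃ l ∈ Λ, Real.log (v q) = lin l w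

/-- the exponent vector `l` is realised over `w` -/
def Rlz (g : Fin d → F) (T : Finset L) (l : L → Fin d → ℝ) (w : Fin d → ℝ) : Prop :=
  ∃ v, Over g w v ∧ ∀ q ∈ T, Real.log (v q) = lin (l q) w

/-- `T` separates the points of `X` -/
def Separates (g : Fin d → F) (T : Finset L) : Prop :=
  ∀ v v' : L → ℝ, InX g v → InX g v' → (∀ q ∈ T, v q = v' q) → v = v'

/-- generic points: the linear forms of `Λ` have different values -/
def Gnc (Λ : Finset (Fin d → ℝ)) (w : Fin d → ℝ) : Prop :=
  ∀ l ∈ Λ, ∀ l' ∈ Λ, l ≠ l' → lin l w ≠ lin l' w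

open Classical in
/-- the order of the linear forms at `w` -/
noncomputable def ordRel (Λ : Finset (Fin d → ℝ)) (w : Fin d → ℝ) :
    Finset ((Fin d → ℝ) × (Fin d → ℝ)) :=
  (Λ ×ˢ Λ).filter fun p => lin p.1 w < lin p.2 w

/-- open chambers -/
def openCh (E : Finset ((Fin d → ℝ) × (Fin d → ℝ))) : Set (Fin d → ℝ) :=
  {w | ∀ p ∈ E, lin p.1 w < lin p.2 w}

/-- closed chambers -/
def closedCh (E : Finset ((Fin d → ℝ) × (Fin d → ℝ))) : Set (Fin d → ℝ) :=
  {w | ∀ p ∈ E, lin p.1 w ≤ lin p.2 w}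

lemma mem_openCh_ordRel (Λ : Finset (Fin d → ℝ)) (w : Fin d → ℝ) : w ∈ openCh (ordRel Λ w) := by
  classical
  intro p hp
  exact (Finset.mem_filter.1 hp).2

lemma openCh_subset (E : Finset ((Fin d → ℝ) × (Fin d → ℝ))) : openCh E ⊆ closedCh E :=
  fun _ hw p hp => (hw p hp).le

/-- on the open chamber of a generic point all points are generic -/
lemma Gnc.of_mem {Λ : Finset (Fin d → ℝ)} {w₀ w : Fin d → ℝ} (h : Gnc Λ w₀)
    (hw : w ∈ openCh (ordRel Λ w₀)) : Gnc Λ w := by
  classical
  intro l hl l' hl' hne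
  rcases lt_or_gt_of_ne (h l hl l' hl' hne) with h1 | h1
  · exact (hw (l, l') (Finset.mem_filter.2 ⟨Finset.mk_mem_product hl hl', h1⟩)).ne
  · exact (hw (l', l) (Finset.mem_filter.2 ⟨Finset.mk_mem_product hl' hl, h1⟩)).ne'

lemma convex_openCh (E : Finset ((Fin d → ℝ) × (Fin d → ℝ))) : Convex ℝ (openCh E) := by
  intro x hx y hy a b ha hb hab p hp
  rw [lin_add_right, lin_add_right, lin_smul_right, lin_smul_right, lin_smul_right,
    lin_smul_right]
  have h1 := hx p hp
  have h2 := hy p hp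
  rcases eq_or_lt_of_le ha with rfl | ha'
  · have : b = 1 := by linarith
    subst this
    linarith
  · nlinarith

lemma convex_closedCh (E : Finset ((Fin d → ℝ) × (Fin d → ℝ))) : Convex ℝ (closedCh E) := by
  intro x hx y hy a b ha hb hab p hp
  rw [lin_add_right, lin_add_right, lin_smul_right, lin_smul_right, lin_smul_right,
    lin_smul_right]
  have h1 := hx p hp
  have h2 := hy p hp
  nlinarith

lemma isOpen_openCh (E : Finset ((Fin d → ℝ) × (Fin d → ℝ))) : IsOpen (openCh E) := by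
  have h : openCh E = ⋂ p ∈ E, {w | lin p.1 w < lin p.2 w} := by
    ext w
    simp [openCh]
  rw [h]
  exact isOpen_biInter_finset fun p _ => isOpen_lt (continuous_lin _) (continuous_lin _)

/-- the segment from a point of the closed chamber to a point of the open chamber -/
lemma segment_mem_openCh {E : Finset ((Fin d → ℝ) × (Fin d → ℝ))} {w w₁ : Fin d → ℝ}
    (hw : w ∈ closedCh E) (hw₁ : w₁ ∈ openCh E) {t : ℝ} (h0 : 0 < t) (h1 : t ≤ 1) :
    w + t • (w₁ - w) ∈ openCh E := by
  intro p hp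
  have e : w + t • (w₁ - w) = (1 - t) • w + t • w₁ := by
    ext i
    simp only [Pi.add_apply, Pi.smul_apply, Pi.sub_apply, smul_eq_mul]
    ring
  rw [e, lin_add_right, lin_add_right, lin_smul_right, lin_smul_right, lin_smul_right,
    lin_smul_right]
  have h2 := hw p hp
  have h3 := hw₁ p hp
  nlinarith

end Pool.Agent.DAE
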