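import Pool.Agent.DAE.S.SepPeak

/-!
# Block S, part (c): approximation by elements of the base field
-/

set_option autoImplicit false

namespace Pool.Agent.DAE

variable {F L : Type*} [Field F] [Field L] [Algebra F L] [FiniteDimensional F L] {v : L → ℝ}

open scoped Classical in
/-- an element which is strictly smaller at all the other conjugates of `v` -/
private theorem sepNear_b (hv : NAbs v) :
    ∃ b : L, b ≠ 0 ∧ ∀ t : L ≃ₐ[F] L, t ∉ Gv F v → v (t b) < v b := by
  have hex : ∀ t : L ≃ₐ[F] L, ∃ c : L, c ≠ 0 ∧ (t ∉ Gv F v → v (t c) ≠ v c) := by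
    intro t
    by_cases ht : t ∈ Gv F v
    · exact ⟨1, one_ne_zero, fun h => absurd ht h⟩
    · have h1 : ∃ c : L, v (t c) ≠ v c := by
        by_contra hcon
        push Not at hcon
        exact ht hcon
      obtain ⟨c, hc⟩ := h1
      refine ⟨c, ?_, fun _ => hc⟩
      rintro rfl
      exact hc (by rw [map_zero])
  choose c hc0 hc using hex
  let T : Finset L := Finset.univ.image fun p : (L ≃ₐ[F] L) × (L ≃ₐ[F] L) => p.1 (c p.2)
  have h0 : (0 : L) ∉ T := by
    intro h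
    obtain ⟨p, -, hp⟩ := Finset.mem_image.1 h
    exact hc0 p.2 ((map_eq_zero_iff p.1 p.1.injective).1 hp)
  have hT : ∀ (s : L ≃ₐ[F] L), ∀ c ∈ T, s c ∈ T := by
    intro s x hx
    obtain ⟨p, -, rfl⟩ := Finset.mem_image.1 hx
    exact Finset.mem_image.2 ⟨(s * p.1, p.2), Finset.mem_univ _, rfl⟩
  obtain ⟨n, hn⟩ := exists_peak (F := F) hv T h0 hT
  refine ⟨∏ c ∈ T, c ^ n c, ?_, fun t ht => hn t ?_⟩
  · refine Finset.prod_ne_zero_iff.2 fun x hx => zpow_ne_zero _ ?_
    rintro rfl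
    exact h0 hx
  · refine ⟨c t, Finset.mem_image.2 ⟨(1, t), Finset.mem_univ _, rfl⟩, hc t ht⟩

open scoped Classical in
/-- the same with an element fixed by the stabilizer -/
private theorem sepNear_b' (hv : NAbs v) :
    ∃ b : L, b ≠ 0 ∧ (∀ t : L ≃ₐ[F] L, t ∉ Gv F v → v (t b) < v b) ∧ ∀ t ∈ Gv F v, t b = b := by
  obtain ⟨b, hb0, hb⟩ := sepNear_b (F := F) hv
  let G : Finset (L ≃ₐ[F] L) := Finset.univ.filter (· ∈ Gv F v)
  have hG : ∀ t, t ∈ G ↔ t ∈ Gv F v := fun t => by simp [G]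
  have hb0' : ∀ t : L ≃ₐ[F] L, t b ≠ 0 := fun t => (map_ne_zero_iff t t.injective).2 hb0
  refine ⟨∏ t ∈ G, t b, Finset.prod_ne_zero_iff.2 fun t _ => hb0' t, ?_, ?_⟩
  · intro u hu
    rw [map_prod, hv.prod, hv.prod]
    refine Finset.prod_lt_prod_of_nonempty (fun t _ => ?_) (fun t ht => ?_) ⟨1, (hG 1).2 ?_⟩
    · exact hv.pos ((map_ne_zero_iff u u.injective).2 (hb0' t))
    · have ht' := (hG t).1 ht
      have h1 : v (t b) = v b := ht' b
      rw [h1]
      have h2 : u * t ∉ Gv F v := by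
        intro h
        apply hu
        have := (Gv F v).mul_mem h ((Gv F v).inv_mem ht')
        rwa [mul_inv_cancel_right] at this
      exact hb _ h2
    · exact (Gv F v).one_mem
  · intro u hu
    rw [map_prod]
    refine Finset.prod_bij (fun t _ => u * t) ?_ ?_ ?_ ?_
    · intro t ht
      exact (hG _).2 ((Gv F v).mul_mem hu ((hG t).1 ht))
    · intro s _ t _ h
      exact mul_left_cancel h
    · intro t ht
      refine ⟨u⁻¹ * t, (hG _).2 ((Gv F v).mul_mem ((Gv F v).inv_mem hu) ((hG t).1 ht)), ?_⟩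
      rw [mul_inv_cancel_left]
    · intro t _
      rfl

/-- Approximation. Proof: for every `t ∉ Gv F v` choose `c t` with `v (t (c t)) ≠ v (c t)`; `T` is
the set of all `s (c t)`; let `b` be the product of `exists_peak`, `v (t b) < v b` for `t ∉ Gv F v`.
Let `b' = ∏ t ∈ Gv F v, t b`: for `u ∉ Gv F v` `v (u b') < v b'` (`u t ∉ Gv F v` for `t ∈ Gv F v`),
for `u ∈ Gv F v` `u b' = b'`. Let `N` be the order of `Gv F v`, `τ = ∑ s, s b'`
(`trace_eq_sum_automorphisms`; `τ` is in `F`); `v (τ - N b') < v b'`, so `τ ≠ 0`, `v τ = v b'`. Let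
`e = N b' / τ`: `v (e - 1) < 1` and `v (u e) < 1` for `u ∉ Gv F v`. For `n` large
`m = (∑ s, s (f * e ^ n)) / N` (in `F`, it is a trace divided by `N`) satisfies
`m = f * e ^ n + small` (the terms `s ∈ Gv F v` are all `f * s e ^ n = f * e ^ n`), where the terms
with `u ∉ Gv F v` have `v (u f) * v (u e) ^ n < v f`, and `v (f * e ^ n - f) < v f`. -/
theorem exists_near [IsGalois F L] (hv : NAbs v) {f : L} (hf0 : f ≠ 0)
    (hf : ∀ s ∈ Gv F v, s f = f) : ∃ m : F, v (f - algebraMap F L m) < v f := by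
  classical
  obtain ⟨b, hb0, hb, hbG⟩ := sepNear_b' (F := F) hv
  let G : Finset (L ≃ₐ[F] L) := Finset.univ.filter (· ∈ Gv F v)
  let G' : Finset (L ≃ₐ[F] L) := Finset.univ.filter (· ∉ Gv F v)
  have hG : ∀ t, t ∈ G ↔ t ∈ Gv F v := fun t => by simp [G]
  have hG' : ∀ t, t ∈ G' ↔ t ∉ Gv F v := fun t => by simp [G']
  have hsplit : ∀ φ : (L ≃ₐ[F] L) → L, ∑ s, φ s = ∑ s ∈ G, φ s + ∑ s ∈ G', φ s := fun φ =>
    (Finset.sum_filter_add_sum_filter_not Finset.univ (· ∈ Gv F v) φ).symm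
  have hN0 : G.card ≠ 0 := by
    rw [Finset.card_ne_zero]
    exact ⟨1, (hG 1).2 (Gv F v).one_mem⟩
  have hCZ : CharZero L := hv.charZero
  have hNL : (G.card : L) ≠ 0 := by exact_mod_cast hN0
  have hvN : v (G.card : L) = 1 := hv.nat _ hN0
  have hvb : 0 < v b := hv.pos hb0
  -- the trace of `b`
  have htr : algebraMap F L (Algebra.trace F L b) = G.card * b + ∑ s ∈ G', s b := by
    rw [trace_eq_sum_automorphisms, hsplit, Finset.sum_congr rfl fun s hs => hbG s ((hG s).1 hs),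
      Finset.sum_const, nsmul_eq_mul]
  obtain ⟨τ, hτ⟩ : ∃ τ, τ = algebraMap F L (Algebra.trace F L b) := ⟨_, rfl⟩
  have hsm : v (∑ s ∈ G', s b) < v b := hv.sum_lt hvb fun s hs => hb s ((hG' s).1 hs)
  have hvτ : v τ = v b := by
    rw [hτ, htr, hv.add_eq_left, hv.mul, hvN, one_mul]
    rw [hv.mul, hvN, one_mul]
    exact hsm
  have hτ0 : τ ≠ 0 := by
    intro h
    rw [h, hv.zero] at hvτ
    exact hvb.ne hvτ
  obtain ⟨e, he⟩ : ∃ e, e = G.card * b / τ := ⟨_, rfl⟩
  have he1 : v (e - 1) < 1 := by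
    have h1 : e - 1 = -(∑ s ∈ G', s b) / τ := by
      rw [he]
      field_simp
      rw [hτ, htr]
      ring
    rw [h1, hv.div, hv.neg, hvτ, div_lt_one hvb]
    exact hsm
  have hve : v e ≤ 1 := by
    have h1 : e = (e - 1) + 1 := by ring
    rw [h1]
    exact (hv.add _ _).trans (max_le he1.le hv.one.le)
  have hse : ∀ s : L ≃ₐ[F] L, s e = G.card * s b / τ := by
    intro s
    rw [he, map_div₀, map_mul, map_natCast, hτ, s.commutes]
  have heG : ∀ s ∈ G, s e = e := by
    intro s hs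
    rw [hse, hbG s ((hG s).1 hs), he]
  have heG' : ∀ s ∈ G', v (s e) < 1 := by
    intro s hs
    rw [hse, hv.div, hv.mul, hvN, one_mul, hvτ, div_lt_one hvb]
    exact hb s ((hG' s).1 hs)
  have hvf : 0 < v f := hv.pos hf0
  -- the exponent
  have hn : ∃ n : ℕ, ∀ s ∈ G', v (s f) * v (s e) ^ n < v f := by
    have h1 : ∀ s ∈ G', ∀ᶠ n : ℕ in Filter.atTop, v (s f) * v (s e) ^ n < v f := by
      intro s hs
      have h2 : Filter.Tendsto (fun n : ℕ => v (s f) * v (s e) ^ n) Filter.atTop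
          (nhds (v (s f) * 0)) :=
        (tendsto_pow_atTop_nhds_zero_of_lt_one (hv.nonneg _) (heG' s hs)).const_mul _
      rw [mul_zero] at h2
      exact h2.eventually (gt_mem_nhds hvf)
    exact ((Filter.eventually_all_finset G').2 h1).exists
  obtain ⟨n, hn⟩ := hn
  have htr2 : algebraMap F L (Algebra.trace F L (f * e ^ n)) =
      G.card * (f * e ^ n) + ∑ s ∈ G', s (f * e ^ n) := by
    rw [trace_eq_sum_automorphisms, hsplit, Finset.sum_congr rfl fun s hs => by
      rw [map_mul, map_pow, heG s hs, hf s ((hG s).1 hs)], Finset.sum_const, nsmul_eq_mul]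
  refine ⟨Algebra.trace F L (f * e ^ n) / (G.card : F), ?_⟩
  have h3 : f - algebraMap F L (Algebra.trace F L (f * e ^ n) / (G.card : F)) =
      -(f * (e ^ n - 1)) - (∑ s ∈ G', s (f * e ^ n)) / G.card := by
    rw [map_div₀, map_natCast, htr2]
    field_simp
    ring
  rw [h3]
  have h4 : v (e ^ n - 1) < 1 := by
    have h5 : e ^ n - 1 = (e - 1) * ∑ i ∈ Finset.range n, e ^ i := by
      rw [mul_comm, geom_sum_mul]
    rw [h5, hv.mul]
    have h6 : v (∑ i ∈ Finset.range n, e ^ i) ≤ 1 := hv.sum_le zero_le_one fun i _ => by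
      rw [hv.pow]
      exact pow_le_one₀ (hv.nonneg _) hve
    have h7 := hv.nonneg (e - 1)
    nlinarith [hv.nonneg (∑ i ∈ Finset.range n, e ^ i)]
  have h5 : v (∑ s ∈ G', s (f * e ^ n)) < v f := hv.sum_lt hvf fun s hs => by
    rw [map_mul, map_pow, hv.mul, hv.pow]
    exact hn s hs
  refine (hv.sub _ _).trans_lt (max_lt ?_ ?_)
  · rw [hv.neg, hv.mul]
    exact mul_lt_of_lt_one_right hvf h4
  · rw [hv.div, hvN, div_one]
    exact h5

end Pool.Agent.DAE
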