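import Pool.Agent.DAE.S.SepTop
import Pool.Agent.DAE.S.SepNear

/-!
# Block S, part (c): from polynomials over `L` to polynomials over the constants
-/

set_option autoImplicit false

namespace Pool.Agent.DAE

open MvPolynomial

section Hom

variable {κ : Type*} [Fintype κ] {w : κ → ℝ}

private lemma desc_hom_mul {γ γ' : ℝ} {P Q : MvPolynomial κ ℂ} (hP : IsHomW w γ P)
    (hQ : IsHomW w γ' Q) : IsHomW w (γ * γ') (P * Q) := by
  classical
  intro m hm
  have h := support_mul P Q hm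
  obtain ⟨a, ha, b, hb, rfl⟩ := Finset.mem_add.1 h
  rw [wt_add, hP a ha, hQ b hb]

private lemma desc_hom_one : IsHomW w 1 (1 : MvPolynomial κ ℂ) := by
  classical
  intro m hm
  rw [mem_support_iff, coeff_one] at hm
  have h : 0 = m := by
    by_contra h
    exact hm (if_neg h)
  rw [← h, wt_zero]

private lemma desc_hom_prod {α : Type*} (s : Finset α) (γ : α → ℝ) (P : α → MvPolynomial κ ℂ)
    (h : ∀ a ∈ s, IsHomW w (γ a) (P a)) : IsHomW w (∏ a ∈ s, γ a) (∏ a ∈ s, P a) := by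
  classical
  induction s using Finset.induction_on with
  | empty =>
    rw [Finset.prod_empty, Finset.prod_empty]
    exact desc_hom_one
  | insert a s ha ih =>
    rw [Finset.prod_insert ha, Finset.prod_insert ha]
    exact desc_hom_mul (h a (Finset.mem_insert_self _ _))
      (ih fun i hi => h i (Finset.mem_insert_of_mem hi))

private lemma desc_hom_sum {α : Type*} (s : Finset α) (γ : ℝ) (P : α → MvPolynomial κ ℂ)
    (h : ∀ a ∈ s, IsHomW w γ (P a)) : IsHomW w γ (∑ a ∈ s, P a) := by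
  classical
  intro m hm
  have h1 := support_sum hm
  obtain ⟨a, ha, hma⟩ := Finset.mem_biUnion.1 h1
  exact h a ha m hma

private lemma desc_hom_X_pow (k : κ) (n : ℕ) : IsHomW w (w k ^ n) (X k ^ n) := by
  classical
  intro m hm
  rw [X_pow_eq_monomial] at hm
  have h := support_monomial_subset hm
  rw [Finset.mem_singleton] at h
  rw [h, wt_single]

private lemma desc_hom_rename {σ : Type*} [Fintype σ] (f : σ → κ) {γ : ℝ}
    {P : MvPolynomial σ ℂ} (h : IsHomW (fun i => w (f i)) γ P) : IsHomW w γ (rename f P) := by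
  classical
  intro m hm
  rw [mem_support_iff] at hm
  obtain ⟨u, hu, hu'⟩ := coeff_rename_ne_zero f P m hm
  rw [← hu, ← h u (mem_support_iff.2 hu')]
  unfold wt
  rw [← Finsupp.prod_fintype (Finsupp.mapDomain f u) (fun k n => w k ^ n)
      (fun k => pow_zero _),
    Finsupp.prod_mapDomain_index (fun b => pow_zero _) (fun b m n => pow_add _ _ _),
    Finsupp.prod_fintype u _ (fun k => pow_zero _)]

end Hom

variable {F L : Type*} [Field F] [Field L] [Algebra ℂ F] [Algebra ℂ L] [Algebra F L]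
  [IsScalarTower ℂ F L] [FiniteDimensional F L] {d : ℕ} {g : Fin d → F} {v : L → ℝ}
  {κ : Type*} {δ : κ → L}

omit [FiniteDimensional F L] in
private lemma desc_aeval_rename {gi : Fin d → κ} {δ' : κ → L}
    (h1 : ∀ i, δ' (gi i) = algebraMap F L (g i)) (Q : MvPolynomial (Fin d) ℂ) :
    aeval δ' (rename gi Q) = algebraMap F L (aeval g Q) := by
  rw [aeval_rename]
  have h : δ' ∘ gi = fun i => algebraMap F L (g i) := funext h1
  rw [h]
  exact aeval_algebraMap_apply L g Q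

open scoped Classical in
omit [FiniteDimensional F L] in
private lemma desc_aux {ι : Type*} [Fintype ι] (hv : NAbs v)
    {gi : Fin d → κ} (kt : ι → κ) {δ' : κ → L}
    (hδ : ∀ k, δ k ≠ 0)
    (h1 : ∀ i, δ' (gi i) = algebraMap F L (g i)) (h2 : ∀ k, v (δ' k) = v (δ k))
    {Φ : MvPolynomial ι L} {W : ℝ} (hW : 0 < W)
    (hΦ : ∀ m, v (coeff m Φ) * ∏ t, v (δ (kt t)) ^ m t ≤ W)
    (P Q : (ι →₀ ℕ) → MvPolynomial (Fin d) ℂ) (β : (ι →₀ ℕ) → ℝ) (B : Finset (ι →₀ ℕ))
    (hB : B = Φ.support.filter fun m => v (coeff m Φ) * ∏ t, v (δ (kt t)) ^ m t = W)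
    (hβ : ∀ m ∈ B, 0 < β m)
    (hQ : ∀ m ∈ B, v (algebraMap F L (aeval g (Q m))) = β m)
    (hPQ : ∀ m ∈ B, v (coeff m Φ * algebraMap F L (aeval g (Q m)) -
      algebraMap F L (aeval g (P m))) < v (coeff m Φ) * β m) :
    v ((∏ m ∈ B, algebraMap F L (aeval g (Q m))) * eval (fun t => δ' (kt t)) Φ -
      aeval δ' (∑ m ∈ B, (∏ m' ∈ B.erase m, rename gi (Q m')) * rename gi (P m) *
        ∏ t, X (kt t) ^ m t)) < W * ∏ m ∈ B, β m := by
  have hbpos : 0 < ∏ m ∈ B, β m := Finset.prod_pos hβ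
  have hx : ∀ m : ι →₀ ℕ, v (∏ t, δ' (kt t) ^ m t) = ∏ t, v (δ (kt t)) ^ m t := by
    intro m
    rw [hv.prod]
    exact Finset.prod_congr rfl fun t _ => by rw [hv.pow, h2]
  have hxpos : ∀ m : ι →₀ ℕ, 0 < ∏ t, v (δ (kt t)) ^ m t := fun m =>
    Finset.prod_pos fun t _ => pow_pos (hv.pos (hδ _)) _
  have hA : v (∏ m ∈ B, algebraMap F L (aeval g (Q m))) = ∏ m ∈ B, β m := by
    rw [hv.prod]
    exact Finset.prod_congr rfl hQ
  have hsub : B ⊆ Φ.support := by
    rw [hB]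
    exact Finset.filter_subset _ _
  have hΨ : aeval δ' (∑ m ∈ B, (∏ m' ∈ B.erase m, rename gi (Q m')) * rename gi (P m) *
        ∏ t, X (kt t) ^ m t) =
      ∑ m ∈ B, (∏ m' ∈ B.erase m, algebraMap F L (aeval g (Q m'))) *
        algebraMap F L (aeval g (P m)) * ∏ t, δ' (kt t) ^ m t := by
    rw [map_sum]
    refine Finset.sum_congr rfl fun m _ => ?_
    rw [map_mul, map_mul, map_prod, map_prod, desc_aeval_rename h1]
    congr 1
    · congr 1
      exact Finset.prod_congr rfl fun m' _ => desc_aeval_rename h1 _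
    · exact Finset.prod_congr rfl fun t _ => by rw [map_pow, aeval_X]
  have key : (∏ m ∈ B, algebraMap F L (aeval g (Q m))) * eval (fun t => δ' (kt t)) Φ -
      aeval δ' (∑ m ∈ B, (∏ m' ∈ B.erase m, rename gi (Q m')) * rename gi (P m) *
        ∏ t, X (kt t) ^ m t) =
      (∑ m ∈ Φ.support \ B, (∏ m ∈ B, algebraMap F L (aeval g (Q m))) *
        (coeff m Φ * ∏ t, δ' (kt t) ^ m t)) +
      ∑ m ∈ B, (∏ m' ∈ B.erase m, algebraMap F L (aeval g (Q m'))) *
        (coeff m Φ * algebraMap F L (aeval g (Q m)) - algebraMap F L (aeval g (P m))) *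
        ∏ t, δ' (kt t) ^ m t := by
    rw [hΨ, eval_eq', Finset.mul_sum, ← Finset.sum_sdiff hsub, add_sub_assoc,
      ← Finset.sum_sub_distrib]
    congr 1
    refine Finset.sum_congr rfl fun m hm => ?_
    rw [← Finset.mul_prod_erase B _ hm]
    ring
  rw [key]
  refine (hv.add _ _).trans_lt (max_lt ?_ ?_)
  · refine hv.sum_lt (mul_pos hW hbpos) fun m hm => ?_
    rw [Finset.mem_sdiff] at hm
    rw [hv.mul, hv.mul, hA, hx, mul_comm]
    refine mul_lt_mul_of_pos_right (lt_of_le_of_ne (hΦ m) fun h => hm.2 ?_) hbpos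
    rw [hB]
    exact Finset.mem_filter.2 ⟨hm.1, h⟩
  · refine hv.sum_lt (mul_pos hW hbpos) fun m hm => ?_
    have hmW : v (coeff m Φ) * ∏ t, v (δ (kt t)) ^ m t = W := by
      have := hm
      rw [hB] at this
      exact (Finset.mem_filter.1 this).2
    rw [hv.mul, hv.mul, hx, hv.prod]
    have e1 : ∏ m' ∈ B.erase m, v (algebraMap F L (aeval g (Q m'))) =
        ∏ m' ∈ B.erase m, β m' :=
      Finset.prod_congr rfl fun m' hm' => hQ m' (Finset.mem_of_mem_erase hm')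
    have e2 : 0 < ∏ m' ∈ B.erase m, β m' :=
      Finset.prod_pos fun m' hm' => hβ m' (Finset.mem_of_mem_erase hm')
    rw [e1]
    calc (∏ m' ∈ B.erase m, β m') * v (coeff m Φ * algebraMap F L (aeval g (Q m)) -
          algebraMap F L (aeval g (P m))) * ∏ t, v (δ (kt t)) ^ m t
        < (∏ m' ∈ B.erase m, β m') * (v (coeff m Φ) * β m) * ∏ t, v (δ (kt t)) ^ m t :=
          mul_lt_mul_of_pos_right (mul_lt_mul_of_pos_left (hPQ m hm) e2) (hxpos m)
      _ = (v (coeff m Φ) * ∏ t, v (δ (kt t)) ^ m t) * (β m * ∏ m' ∈ B.erase m, β m') := by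
          ring
      _ = W * ∏ m ∈ B, β m := by rw [hmW, Finset.mul_prod_erase B _ hm]

/-- The descent. `Φ` is a polynomial over `L` with coefficients which are fixed by the
stabilizer, `x t = δ (kt t)`. Let `B` be the set of the monomials `m` of `Φ` with
`v (coeff m Φ) * ∏ v (x t) ^ m t = W`. For `m ∈ B` by `exists_near` and `InX.exists_frac` there are
`P m`, `Q m`, `β m`. Let `Ψ = ∑ m ∈ B, (∏ m' ∈ B.erase m, rename gi (Q m')) * rename gi (P m) *
∏ t, X (kt t) ^ m t`, homogeneous of weight `W' = W * ∏ m ∈ B, β m`. With `E = ∏ m ∈ B, Q m (g)`: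
`E * Φ(x) - Ψ(δ) = ∑ m ∉ B, E * coeff m Φ * x ^ m +
∑ m ∈ B, (∏ m' ∈ B.erase m, Q m' (g)) * (coeff m Φ * Q m (g) - P m (g)) * x ^ m` has a value less
than `W'`, and the same with `y t = s (x t)` and `s ∘ δ` (`s` fixes the `g i`,
`v (y t) = v (x t)`). -/
theorem exists_descent [IsGalois F L] [Fintype κ] {ι : Type*} [Fintype ι] (hv : InX g v)
    (hg : ∀ i, g i ≠ 0) (hF : Gen g) (hδ : ∀ k, δ k ≠ 0) {gi : Fin d → κ}
    (hgi : ∀ i, δ (gi i) = algebraMap F L (g i)) (kt : ι → κ) {s : L ≃ₐ[F] L}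
    (hs : ∀ k, v (s (δ k)) = v (δ k)) {Φ : MvPolynomial ι L} {W : ℝ} (hW : 0 < W)
    (hinv : ∀ t ∈ Gv F v, ∀ m, t (coeff m Φ) = coeff m Φ)
    (hΦ : ∀ m, v (coeff m Φ) * ∏ t, v (δ (kt t)) ^ m t ≤ W)
    (h0 : eval (fun t => δ (kt t)) Φ = 0) (h1 : v (eval (fun t => s (δ (kt t))) Φ) = W) :
    ∃ (Ψ : MvPolynomial κ ℂ) (γ : ℝ), 0 < γ ∧ IsHomW (fun k => v (δ k)) γ Ψ ∧
      v (aeval δ Ψ) < γ ∧ v (aeval (fun k => s (δ k)) Ψ) = γ := by
  classical
  have hn := hv.nabs
  have hex : ∀ m : ι →₀ ℕ, ∃ (P Q : MvPolynomial (Fin d) ℂ) (β : ℝ), coeff m Φ ≠ 0 →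
      0 < β ∧
      IsHomW (fun i => v (algebraMap F L (g i))) (v (coeff m Φ) * β) P ∧
      IsHomW (fun i => v (algebraMap F L (g i))) β Q ∧
      v (algebraMap F L (aeval g Q)) = β ∧
      v (coeff m Φ * algebraMap F L (aeval g Q) - algebraMap F L (aeval g P)) <
        v (coeff m Φ) * β := by
    intro m
    by_cases hm : coeff m Φ = 0
    · exact ⟨0, 0, 0, fun h => absurd hm h⟩
    · obtain ⟨f, hf⟩ := exists_near (F := F) hn hm fun t ht => hinv t ht m
      obtain ⟨P, Q, β, h⟩ := hv.exists_frac hg hF hm hf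
      exact ⟨P, Q, β, fun _ => h⟩
  choose P Q β hPQ using hex
  obtain ⟨B, hB⟩ : ∃ B : Finset (ι →₀ ℕ),
      B = Φ.support.filter fun m => v (coeff m Φ) * ∏ t, v (δ (kt t)) ^ m t = W := ⟨_, rfl⟩
  have hBne : ∀ m ∈ B, coeff m Φ ≠ 0 := by
    intro m hm
    rw [hB] at hm
    exact mem_support_iff.1 (Finset.mem_filter.1 hm).1
  have hBW : ∀ m ∈ B, v (coeff m Φ) * ∏ t, v (δ (kt t)) ^ m t = W := by
    intro m hm
    rw [hB] at hm
    exact (Finset.mem_filter.1 hm).2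
  have hβ : ∀ m ∈ B, 0 < β m := fun m hm => (hPQ m (hBne m hm)).1
  have hQ : ∀ m ∈ B, v (algebraMap F L (aeval g (Q m))) = β m := fun m hm =>
    (hPQ m (hBne m hm)).2.2.2.1
  have hbpos : 0 < ∏ m ∈ B, β m := Finset.prod_pos hβ
  have hw : (fun i => v (algebraMap F L (g i))) = fun i => v (δ (gi i)) :=
    funext fun i => by rw [hgi]
  have haux : ∀ δ' : κ → L, (∀ i, δ' (gi i) = algebraMap F L (g i)) →
      (∀ k, v (δ' k) = v (δ k)) →
      v ((∏ m ∈ B, algebraMap F L (aeval g (Q m))) * eval (fun t => δ' (kt t)) Φ -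
      aeval δ' (∑ m ∈ B, (∏ m' ∈ B.erase m, rename gi (Q m')) * rename gi (P m) *
        ∏ t, X (kt t) ^ m t)) < W * ∏ m ∈ B, β m := fun δ' h3 h4 =>
    desc_aux hn kt hδ h3 h4 hW hΦ P Q β B (by rw [hB]) hβ hQ
      fun m hm => (hPQ m (hBne m hm)).2.2.2.2
  refine ⟨∑ m ∈ B, (∏ m' ∈ B.erase m, rename gi (Q m')) * rename gi (P m) *
    ∏ t, X (kt t) ^ m t, W * ∏ m ∈ B, β m, mul_pos hW hbpos, ?_, ?_, ?_⟩
  · refine desc_hom_sum _ _ _ fun m hm => ?_
    have e : W * ∏ m ∈ B, β m = ((∏ m' ∈ B.erase m, β m') * (v (coeff m Φ) * β m)) *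
        ∏ t, v (δ (kt t)) ^ m t := by
      rw [← hBW m hm, ← Finset.mul_prod_erase B _ hm]
      ring
    rw [e]
    refine desc_hom_mul (desc_hom_mul (desc_hom_prod _ _ _ fun m' hm' => ?_) ?_) ?_
    · refine desc_hom_rename gi ?_
      have h := (hPQ m' (hBne m' (Finset.mem_of_mem_erase hm'))).2.2.1
      rw [hw] at h
      exact h
    · refine desc_hom_rename gi ?_
      have h := (hPQ m (hBne m hm)).2.1
      rw [hw] at h
      exact h
    · exact desc_hom_prod _ (fun t => v (δ (kt t)) ^ m t) _ fun t _ =>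
        desc_hom_X_pow (w := fun k => v (δ k)) (kt t) (m t)
  · have h := haux δ hgi fun k => rfl
    rw [h0, mul_zero, zero_sub, hn.neg] at h
    exact h
  · have h := haux (fun k => s (δ k)) (fun i => by rw [hgi, s.commutes]) hs
    have hA : v ((∏ m ∈ B, algebraMap F L (aeval g (Q m))) *
        eval (fun t => s (δ (kt t))) Φ) = W * ∏ m ∈ B, β m := by
      rw [hn.mul, h1, hn.prod, Finset.prod_congr rfl hQ, mul_comm]
    have e := hn.sub_eq_left (x := (∏ m ∈ B, algebraMap F L (aeval g (Q m))) *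
        eval (fun t => s (δ (kt t))) Φ) (h.trans_eq hA.symm)
    rw [sub_sub_cancel, hA] at e
    exact e

end Pool.Agent.DAE
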