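import Pool.Agent.DAE.S.SepTop

/-!
# Block S, part (c): the ideal of the initial forms
-/

set_option autoImplicit false

namespace Pool.Agent.DAE

open MvPolynomial

section

variable {L : Type*} [Field L] [Algebra ℂ L] {κ : Type*} [Fintype κ] {v : L → ℝ} {δ : κ → L}

/-- for homogeneous polynomials `InI` is the obvious condition (`IsHomW.cmp_eq`,
`IsHomW.cmp_eq_zero`) -/
theorem inI_iff (hv : CAbs v) {γ : ℝ} (hγ : 0 < γ) {P : MvPolynomial κ ℂ}
    (hP : IsHomW (fun k => v (δ k)) γ P) : InI v δ P ↔ v (aeval δ P) < γ := by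
  constructor
  · intro h
    have h1 := h γ hγ
    rwa [hP.cmp_eq] at h1
  · intro h γ' hγ'
    rcases eq_or_ne γ γ' with rfl | hne
    · rwa [hP.cmp_eq]
    · rw [hP.cmp_eq_zero hne, map_zero, hv.nabs.zero]
      exact hγ'

private lemma cmp_zero_aux (w : κ → ℝ) (γ : ℝ) : cmp w γ (0 : MvPolynomial κ ℂ) = 0 := by
  ext m
  rw [coeff_cmp, coeff_zero, ite_self]

private lemma cmp_add_aux (w : κ → ℝ) (γ : ℝ) (P T : MvPolynomial κ ℂ) :
    cmp w γ (P + T) = cmp w γ P + cmp w γ T := by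
  ext m
  rw [coeff_add, coeff_cmp, coeff_cmp, coeff_cmp, coeff_add]
  split_ifs
  · rfl
  · rw [add_zero]

private lemma cmp_sum_aux (w : κ → ℝ) (γ : ℝ) {ι : Type*} (s : Finset ι)
    (f : ι → MvPolynomial κ ℂ) : cmp w γ (∑ i ∈ s, f i) = ∑ i ∈ s, cmp w γ (f i) := by
  classical
  induction s using Finset.induction_on with
  | empty => rw [Finset.sum_empty, Finset.sum_empty, cmp_zero_aux]
  | insert a s ha ih => rw [Finset.sum_insert ha, Finset.sum_insert ha, cmp_add_aux, ih]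

private lemma cmp_monomial_mul {w : κ → ℝ} (hw : ∀ k, 0 < w k) (γ : ℝ) (m : κ →₀ ℕ) (c : ℂ)
    (P : MvPolynomial κ ℂ) :
    cmp w γ (monomial m c * P) = monomial m c * cmp w (γ / wt w m) P := by
  classical
  ext n
  rw [coeff_cmp, coeff_monomial_mul', coeff_monomial_mul', coeff_cmp]
  by_cases hmn : m ≤ n
  · rw [if_pos hmn, if_pos hmn]
    have hpos := wt_pos hw m
    have h1 : wt w n = wt w m * wt w (n - m) := by
      rw [← wt_add, add_tsub_cancel_of_le hmn]
    have h2 : wt w n = γ ↔ wt w (n - m) = γ / wt w m := by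
      rw [eq_div_iff hpos.ne', h1, mul_comm]
    by_cases h3 : wt w n = γ
    · rw [if_pos h3, if_pos (h2.1 h3)]
    · rw [if_neg h3, if_neg (fun h => h3 (h2.2 h)), mul_zero]
  · rw [if_neg hmn, if_neg hmn, ite_self]

private lemma cmp_mul {w : κ → ℝ} (hw : ∀ k, 0 < w k) (γ : ℝ) (T P : MvPolynomial κ ℂ) :
    cmp w γ (T * P) =
      ∑ m ∈ T.support, monomial m (coeff m T) * cmp w (γ / wt w m) P := by
  conv_lhs => rw [T.as_sum, Finset.sum_mul, cmp_sum_aux]
  exact Finset.sum_congr rfl fun m _ => cmp_monomial_mul hw γ m _ P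

private lemma cmp_homW_mul {w : κ → ℝ} (hw : ∀ k, 0 < w k) (γ : ℝ) {α : ℝ}
    {T : MvPolynomial κ ℂ} (hT : IsHomW w α T) (P : MvPolynomial κ ℂ) :
    cmp w γ (T * P) = T * cmp w (γ / α) P := by
  rw [cmp_mul hw]
  conv_rhs => rw [T.as_sum, Finset.sum_mul]
  exact Finset.sum_congr rfl fun m hm => by rw [hT m hm]

private lemma sum_cmp (w : κ → ℝ) (P : MvPolynomial κ ℂ) {A : Finset ℝ}
    (hA : ∀ m ∈ P.support, wt w m ∈ A) : ∑ γ ∈ A, cmp w γ P = P := by
  classical
  ext m
  rw [coeff_sum]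
  simp only [coeff_cmp]
  rw [Finset.sum_ite_eq]
  split_ifs with h
  · rfl
  · by_contra hc
    exact h (hA m (mem_support_iff.2 (Ne.symm hc)))

private lemma exists_mem_of_le (hv : CAbs v) {α : ℝ} (hα : 0 < α) {P : MvPolynomial κ ℂ}
    (h : α ≤ v (aeval δ (cmp (fun k => v (δ k)) α P))) :
    ∃ m ∈ P.support, wt (fun k => v (δ k)) m = α := by
  have hne : cmp (fun k => v (δ k)) α P ≠ 0 := by
    intro h0
    rw [h0, map_zero, hv.nabs.zero] at h
    exact absurd h (not_le.2 hα)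
  obtain ⟨m, hm⟩ := ne_zero_iff.1 hne
  rw [coeff_cmp] at hm
  by_cases h1 : wt (fun k => v (δ k)) m = α
  · rw [if_pos h1] at hm
    exact ⟨m, mem_support_iff.2 hm, h1⟩
  · rw [if_neg h1] at hm
    exact absurd rfl hm

private lemma exists_top_weight (hv : CAbs v) (hδ : ∀ k, δ k ≠ 0) {P : MvPolynomial κ ℂ}
    (hP : ¬ InI v δ P) : ∃ α : ℝ, 0 < α ∧ α ≤ v (aeval δ (cmp (fun k => v (δ k)) α P)) ∧
      ∀ γ : ℝ, α < γ → v (aeval δ (cmp (fun k => v (δ k)) γ P)) < γ := by
  classical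
  have hw : ∀ k, 0 < v (δ k) := fun k => hv.nabs.pos (hδ k)
  have hex : ∃ α : ℝ, 0 < α ∧ α ≤ v (aeval δ (cmp (fun k => v (δ k)) α P)) := by
    by_contra hcon
    push Not at hcon
    exact hP fun γ hγ => hcon γ hγ
  obtain ⟨α₀, hα₀, hle₀⟩ := hex
  obtain ⟨m₀, hm₀, hwt₀⟩ := exists_mem_of_le hv hα₀ hle₀
  obtain ⟨α, hα, hmax⟩ := Finset.exists_max_image
    ((P.support.image (wt fun k => v (δ k))).filter
      fun γ => γ ≤ v (aeval δ (cmp (fun k => v (δ k)) γ P))) (fun γ => γ)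
    ⟨α₀, Finset.mem_filter.2 ⟨Finset.mem_image.2 ⟨m₀, hm₀, hwt₀⟩, hle₀⟩⟩
  obtain ⟨hα1, hα2⟩ := Finset.mem_filter.1 hα
  obtain ⟨m, _, hm⟩ := Finset.mem_image.1 hα1
  have hαpos : 0 < α := hm ▸ wt_pos hw m
  refine ⟨α, hαpos, hα2, fun γ hγ => ?_⟩
  by_contra hcon
  push Not at hcon
  obtain ⟨n, hn, hwn⟩ := exists_mem_of_le hv (hαpos.trans hγ) hcon
  have h1 := hmax γ (Finset.mem_filter.2 ⟨Finset.mem_image.2 ⟨n, hn, hwn⟩, hcon⟩)
  exact absurd hγ (not_lt.2 h1)

private lemma inI_zero (hv : CAbs v) : InI v δ 0 := by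
  intro γ hγ
  rw [cmp_zero_aux, map_zero, hv.nabs.zero]
  exact hγ

private lemma inI_add (hv : CAbs v) {P T : MvPolynomial κ ℂ} (hP : InI v δ P)
    (hT : InI v δ T) : InI v δ (P + T) := by
  intro γ hγ
  rw [cmp_add_aux, map_add]
  exact (hv.nabs.add _ _).trans_lt (max_lt (hP γ hγ) (hT γ hγ))

private lemma inI_mul (hv : CAbs v) (hδ : ∀ k, δ k ≠ 0) (T : MvPolynomial κ ℂ)
    {P : MvPolynomial κ ℂ} (hP : InI v δ P) : InI v δ (T * P) := by
  intro γ hγ
  have hw : ∀ k, 0 < v (δ k) := fun k => hv.nabs.pos (hδ k)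
  rw [cmp_mul hw, map_sum]
  refine hv.nabs.sum_lt hγ fun m hm => ?_
  have hpos : 0 < wt (fun k => v (δ k)) m := wt_pos hw m
  rw [map_mul, hv.nabs.mul, hv.aeval_monomial δ m (mem_support_iff.1 hm)]
  calc _ < wt (fun k => v (δ k)) m * (γ / wt (fun k => v (δ k)) m) :=
        mul_lt_mul_of_pos_left (hP _ (div_pos hγ hpos)) hpos
    _ = γ := mul_div_cancel₀ γ hpos.ne'

private lemma cmp_le (hv : CAbs v) {γ : ℝ} (hγ : 0 ≤ γ) (P : MvPolynomial κ ℂ) :
    v (aeval δ (cmp (fun k => v (δ k)) γ P)) ≤ γ :=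
  hv.aeval_le δ hγ fun m hm => (isHomW_cmp _ γ P m hm).le

private lemma not_inI_mul (hv : CAbs v) (hδ : ∀ k, δ k ≠ 0) {P T : MvPolynomial κ ℂ}
    (hP : ¬ InI v δ P) (hT : ¬ InI v δ T) : ¬ InI v δ (P * T) := by
  classical
  have hw : ∀ k, 0 < v (δ k) := fun k => hv.nabs.pos (hδ k)
  obtain ⟨α, hα, hα1, hα2⟩ := exists_top_weight hv hδ hP
  obtain ⟨β, hβ, hβ1, hβ2⟩ := exists_top_weight hv hδ hT
  obtain ⟨m, hm, hwm⟩ := exists_mem_of_le hv hα hα1
  intro hcon
  have h := hcon (α * β) (mul_pos hα hβ)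
  have hdec : cmp (fun k => v (δ k)) (α * β) (P * T) =
      ∑ γ ∈ P.support.image (wt fun k => v (δ k)),
        cmp (fun k => v (δ k)) γ P * cmp (fun k => v (δ k)) (α * β / γ) T := by
    conv_lhs =>
      rw [← sum_cmp (fun k => v (δ k)) P (A := P.support.image (wt fun k => v (δ k)))
        (fun m hm => Finset.mem_image_of_mem _ hm), Finset.sum_mul, cmp_sum_aux]
    exact Finset.sum_congr rfl fun γ _ => cmp_homW_mul hw _ (isHomW_cmp _ γ P) T
  have hαmem : α ∈ P.support.image (wt fun k => v (δ k)) :=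
    Finset.mem_image.2 ⟨m, hm, hwm⟩
  have hαβ : α * β / α = β := mul_div_cancel_left₀ β hα.ne'
  have hmain : α * β ≤ v (aeval δ (cmp (fun k => v (δ k)) α P *
      cmp (fun k => v (δ k)) (α * β / α) T)) := by
    rw [map_mul, hv.nabs.mul, hαβ]
    exact mul_le_mul hα1 hβ1 hβ.le (hv.nabs.nonneg _)
  rw [hdec, map_sum, hv.nabs.sum_eq_of_dominated hαmem] at h
  · exact absurd h (not_lt.2 hmain)
  · intro γ hγ hne
    obtain ⟨n, _, hn⟩ := Finset.mem_image.1 hγ
    have hγpos : 0 < γ := hn ▸ wt_pos hw n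
    have hγ' : 0 < α * β / γ := div_pos (mul_pos hα hβ) hγpos
    have hprod : γ * (α * β / γ) = α * β := mul_div_cancel₀ _ hγpos.ne'
    refine lt_of_lt_of_le ?_ (hprod.le.trans hmain)
    rw [map_mul, hv.nabs.mul]
    rcases lt_or_gt_of_ne hne with hlt | hgt
    · have h1 : β < α * β / γ := by
        rw [lt_div_iff₀ hγpos, mul_comm]
        exact mul_lt_mul_of_pos_right hlt hβ
      exact lt_of_le_of_lt
        (mul_le_mul_of_nonneg_right (cmp_le (δ := δ) hv hγpos.le P) (hv.nabs.nonneg _))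
        (mul_lt_mul_of_pos_left (hβ2 _ h1) hγpos)
    · exact lt_of_le_of_lt
        (mul_le_mul_of_nonneg_left (cmp_le (δ := δ) hv hγ'.le T) (hv.nabs.nonneg _))
        (mul_lt_mul_of_pos_right (hα2 γ hgt) hγ')

private lemma not_inI_one (hv : CAbs v) : ¬ InI v δ 1 := by
  classical
  intro h
  have h1 := h 1 zero_lt_one
  have hhom : IsHomW (fun k => v (δ k)) 1 (1 : MvPolynomial κ ℂ) := by
    intro m hm
    rw [mem_support_iff, coeff_one] at hm
    by_cases h0 : 0 = m
    · rw [← h0, wt_zero]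
    · rw [if_neg h0] at hm
      exact absurd rfl hm
  rw [hhom.cmp_eq, map_one, hv.nabs.one] at h1
  exact lt_irrefl _ h1

/-- `InI v δ` is a prime ideal. Proof. Sums: `cmp` is additive (coefficientwise,
`coeff_cmp`). Products with a monomial: `cmp w γ (monomial m c * P) =
monomial m c * cmp w (γ / wt w m) P` (coefficientwise, `coeff_monomial_mul'`), and the value is
multiplied by `wt w m`; products with arbitrary polynomials by `MvPolynomial.induction_on'` or
`as_sum`. Prime: `1 ∉ J` (weight one, value one). If `P`, `Q` are not in the ideal let `α`, `β` be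
the largest weights with `v (aeval δ (cmp w α P)) = α`, `v (aeval δ (cmp w β Q)) = β` (finitely many
weights occur, those of the monomials of `P`; the value is always at most the weight,
`CAbs.aeval_le`). Then
`cmp w (α * β) (P * Q) = ∑ γ ∈ weights of P, cmp w γ P * cmp w (α * β / γ) Q`
(bilinear, check on monomials; or: write `P = ∑ γ, cmp w γ P` and use additivity and the
statement for homogeneous `P`). The term `γ = α` has the value `α * β`; for `γ > α` the first
factor has value less than `γ`, for `γ < α` the second one has value less than `α * β / γ`: all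
other terms have smaller values (`NAbs.sum_eq_of_dominated`). So `P * Q` is not in the ideal. -/
theorem exists_ideal (hv : CAbs v) (hδ : ∀ k, δ k ≠ 0) :
    ∃ J : Ideal (MvPolynomial κ ℂ), J.IsPrime ∧ ∀ P, P ∈ J ↔ InI v δ P := by
  refine ⟨{ carrier := {P | InI v δ P}
            add_mem' := fun ha hb => inI_add hv ha hb
            zero_mem' := inI_zero hv
            smul_mem' := fun c x hx => inI_mul hv hδ c hx }, ?_, fun P => Iff.rfl⟩
  refine ⟨fun htop => ?_, fun {P T} hPT => ?_⟩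
  · exact not_inI_one (δ := δ) hv ((Ideal.eq_top_iff_one _).1 htop)
  · by_contra hcon
    push Not at hcon
    exact not_inI_mul hv hδ hcon.1 hcon.2 hPT

end

variable {F L : Type*} [Field F] [Field L] [Algebra ℂ F] [Algebra ℂ L] [Algebra F L]
  [IsScalarTower ℂ F L] {d : ℕ} {g : Fin d → F} {v : L → ℝ} {κ : Type*} [Fintype κ] {δ : κ → L}

private lemma wt_mapDomain (w : κ → ℝ) {gi : Fin d → κ} (hgi : Function.Injective gi)
    (m : Fin d →₀ ℕ) : wt w (m.mapDomain gi) = wt (fun i => w (gi i)) m := by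
  rw [wt, wt]
  refine (Fintype.prod_of_injective gi hgi _ _ (fun k hk => ?_) (fun i => ?_)).symm
  · rw [Finsupp.mapDomain_of_notMem_range _ _ hk, pow_zero]
  · rw [Finsupp.mapDomain_apply hgi]

private lemma cmp_rename (w : κ → ℝ) {gi : Fin d → κ} (hgi : Function.Injective gi) (γ : ℝ)
    (P : MvPolynomial (Fin d) ℂ) :
    cmp w γ (rename gi P) = rename gi (cmp (fun i => w (gi i)) γ P) := by
  classical
  ext n
  rw [coeff_cmp]
  by_cases hn : ∃ m : Fin d →₀ ℕ, m.mapDomain gi = n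
  · obtain ⟨m, rfl⟩ := hn
    rw [coeff_rename_mapDomain _ hgi, coeff_rename_mapDomain _ hgi, coeff_cmp,
      wt_mapDomain w hgi]
  · push Not at hn
    rw [coeff_rename_eq_zero gi P n fun u hu => absurd hu (hn u),
      coeff_rename_eq_zero gi _ n fun u hu => absurd hu (hn u), ite_self]

/-- The ideal contains no nonzero polynomial in the variables `T_g`. Proof: `γ = v (P(g)) > 0`,
`P₀` the top form, which is `cmp _ γ P` (use `mono`, or the maximal weight `γ` of the
monomials of `P` directly: `cmp w γ (rename gi P) = rename gi (cmp _ γ P)` coefficientwise,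
`coeff_rename_mapDomain`, `coeff_rename_eq_zero`), and `v (P₀(g)) ≥ γ` by `mono`. -/
theorem InX.not_inI_rename (hv : InX g v) (hg : ∀ i, g i ≠ 0) {gi : Fin d → κ}
    (hgi : Function.Injective gi) (h : ∀ i, δ (gi i) = algebraMap F L (g i))
    {P : MvPolynomial (Fin d) ℂ} (hP : P ≠ 0) : ¬ InI v δ (rename gi P) := by
  intro hcon
  obtain ⟨m, hm⟩ := ne_zero_iff.1 hP
  have hgpos : ∀ i, 0 < v (δ (gi i)) := fun i => by
    rw [h i]
    exact hv.nabs.pos ((map_ne_zero _).2 (hg i))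
  have hγ : 0 < wt (fun i => v (δ (gi i))) m := wt_pos hgpos m
  have h1 := hcon _ hγ
  rw [cmp_rename _ hgi, aeval_rename] at h1
  have h2 : (δ ∘ gi) = fun i => algebraMap F L (g i) := funext h
  rw [h2] at h1
  have h3 : aeval (fun i => algebraMap F L (g i))
      (cmp (fun i => v (δ (gi i))) (wt (fun i => v (δ (gi i))) m) P) =
      algebraMap F L (aeval g (cmp (fun i => v (δ (gi i))) (wt (fun i => v (δ (gi i))) m) P)) :=
    aeval_algebraMap_apply L g _
  rw [h3] at h1
  have h4 : m ∈ (cmp (fun i => v (δ (gi i))) (wt (fun i => v (δ (gi i))) m) P).support := by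
    rw [mem_support_iff, coeff_cmp, if_pos rfl]
    exact hm
  have h5 := hv.mono _ m h4
  have h6 : wt (fun i => v (δ (gi i))) m = ∏ i, v (algebraMap F L (g i)) ^ m i := by
    rw [wt]
    exact Finset.prod_congr rfl fun i _ => by rw [h i]
  rw [← h6] at h5
  exact absurd h1 (not_lt.2 h5)

end Pool.Agent.DAE
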