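import Pool.Agent.DAE.S.SepIdeal

/-!
# Block S, part (c): the limit ideal of a family
-/

set_option autoImplicit false

namespace Pool.Agent.DAE

open MvPolynomial

section

variable {L : Type*} [Field L] [Algebra ℂ L] {κ : Type*} [Fintype κ] {δ : κ → L} {I : Type*}

/-- The limit ideal `{P | InI (v i) δ P for almost all i}` is a prime ideal (`exists_ideal`
for every `i`, `Ultrafilter.eventually_or`, `Filter.Eventually.and`). -/
theorem exists_limIdeal (U : Ultrafilter I) {v : I → L → ℝ} (hv : ∀ i, CAbs (v i))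
    (hδ : ∀ k, δ k ≠ 0) : ∃ J : Ideal (MvPolynomial κ ℂ), J.IsPrime ∧
      ∀ P, P ∈ J ↔ ∀ᶠ i in (U : Filter I), InI (v i) δ P := by
  choose J hJ hmem using fun i => exists_ideal (hv i) hδ
  refine ⟨{ carrier := {P | ∀ᶠ i in (U : Filter I), P ∈ J i}
            add_mem' := ?_
            zero_mem' := ?_
            smul_mem' := ?_ }, ?_, fun P => ?_⟩
  · intro P Q hP hQ
    have hP' : ∀ᶠ i in (U : Filter I), P ∈ J i := hP
    have hQ' : ∀ᶠ i in (U : Filter I), Q ∈ J i := hQ
    show ∀ᶠ i in (U : Filter I), P + Q ∈ J i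
    filter_upwards [hP', hQ'] with i h1 h2
    exact (J i).add_mem h1 h2
  · show ∀ᶠ i in (U : Filter I), (0 : MvPolynomial κ ℂ) ∈ J i
    exact Filter.Eventually.of_forall fun i => (J i).zero_mem
  · intro Q P hP
    have hP' : ∀ᶠ i in (U : Filter I), P ∈ J i := hP
    show ∀ᶠ i in (U : Filter I), Q • P ∈ J i
    filter_upwards [hP'] with i h1
    exact (J i).mul_mem_left Q h1
  · refine ⟨fun htop => ?_, fun {P Q} hPQ => ?_⟩
    · have h1 : ∀ᶠ i in (U : Filter I), (1 : MvPolynomial κ ℂ) ∈ J i := by
        have h2 := (Ideal.eq_top_iff_one _).1 htop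
        exact h2
      obtain ⟨i, hi⟩ := h1.exists
      exact (hJ i).ne_top ((Ideal.eq_top_iff_one _).2 hi)
    · have h1 : ∀ᶠ i in (U : Filter I), P * Q ∈ J i := hPQ
      have h2 : ∀ᶠ i in (U : Filter I), (P ∈ J i ∨ Q ∈ J i) := by
        filter_upwards [h1] with i h3
        exact (hJ i).mem_or_mem h3
      exact Ultrafilter.eventually_or.1 h2
  · show (∀ᶠ i in (U : Filter I), P ∈ J i) ↔ _
    simp only [hmem]

/-- If the values of two families agree almost everywhere on every element then so do the
ideals, for every polynomial. Proof: the components of `P` are sums of monomials of `P` over a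
subset of the support; for almost all `i` the values `v i`, `v' i` agree on the `δ k` and on
`aeval δ (∑ m ∈ S, monomial m (coeff m P))` for all subsets `S` of the support; for such `i` the
two conditions are the same. -/
theorem inI_congr_ae (U : Ultrafilter I) {v v' : I → L → ℝ}
    (h : ∀ x, ∀ᶠ i in (U : Filter I), v i x = v' i x) (P : MvPolynomial κ ℂ) :
    ∀ᶠ i in (U : Filter I), (InI (v i) δ P ↔ InI (v' i) δ P) := by
  classical
  have h1 : ∀ᶠ i in (U : Filter I), ∀ k, v i (δ k) = v' i (δ k) :=
    Filter.eventually_all.2 fun k => h (δ k)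
  have h2 : ∀ᶠ i in (U : Filter I), ∀ S ∈ P.support.powerset,
      v i (aeval δ (∑ m ∈ S, monomial m (coeff m P))) =
        v' i (aeval δ (∑ m ∈ S, monomial m (coeff m P))) :=
    (Filter.eventually_all_finset _).2 fun S _ => h _
  filter_upwards [h1, h2] with i h3 h4
  have h5 : (fun k => v i (δ k)) = fun k => v' i (δ k) := funext h3
  unfold InI
  rw [h5]
  refine forall_congr' fun γ => ?_
  have h6 : v i (aeval δ (cmp (fun k => v' i (δ k)) γ P)) =
      v' i (aeval δ (cmp (fun k => v' i (δ k)) γ P)) :=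
    h4 _ (Finset.mem_powerset.2 (Finset.filter_subset _ _))
  rw [h6]

end

end Pool.Agent.DAE
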