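import Pool.Agent.DAE.X.Embed

/-!
# Block S, part (c): conjugation of families of absolute values
-/

set_option autoImplicit false

namespace Pool.Agent.DAE

open Polynomial
open scoped Pointwise

/-- exactly one term of `P` has the largest absolute value at radius `r` -/
private def SepGood {Ω : Type*} [Field Ω] (w : Ω → ℝ) (r : ℝ) (P : Polynomial Ω) : Prop :=
  ∃ i₀, ∀ i, i ≠ i₀ → w (P.coeff i) * r ^ i < w (P.coeff i₀) * r ^ i₀

private lemma sep_good_C {Ω : Type*} [Field Ω] {w : Ω → ℝ} (hw : NAbs w) {r : ℝ}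
    {c : Ω} (hc : c ≠ 0) : SepGood w r (C c) := by
  refine ⟨0, fun i hi => ?_⟩
  rw [coeff_C, if_neg hi, hw.zero, zero_mul, coeff_C_zero, pow_zero, mul_one]
  exact hw.pos hc

private lemma sep_good_X_sub_C {Ω : Type*} [Field Ω] {w : Ω → ℝ} (hw : NAbs w) {r : ℝ}
    (hr : 0 < r) {β : Ω} (hβ : w β ≠ r) : SepGood w r (X - C β) := by
  have h0 : w ((X - C β).coeff 0) = w β := by
    rw [coeff_sub, coeff_X_zero, coeff_C_zero, zero_sub, hw.neg]
  have h1 : w ((X - C β).coeff 1) = 1 := by
    rw [coeff_sub, coeff_X_one, coeff_C, if_neg one_ne_zero, sub_zero, hw.one]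
  have h2 : ∀ i, i ≠ 0 → i ≠ 1 → w ((X - C β).coeff i) = 0 := by
    intro i hi0 hi1
    rw [coeff_sub, coeff_X, if_neg (Ne.symm hi1), coeff_C, if_neg hi0, sub_zero, hw.zero]
  rcases lt_or_gt_of_ne hβ with h | h
  · refine ⟨1, fun i hi => ?_⟩
    rw [h1, one_mul, pow_one]
    by_cases hi0 : i = 0
    · rw [hi0, h0, pow_zero, mul_one]
      exact h
    · rw [h2 i hi0 hi, zero_mul]
      exact hr
  · refine ⟨0, fun i hi => ?_⟩
    rw [h0, pow_zero, mul_one]
    by_cases hi1 : i = 1
    · rw [hi1, h1, one_mul, pow_one]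
      exact h
    · rw [h2 i hi hi1, zero_mul]
      exact hr.trans h

private lemma sep_good_mul {Ω : Type*} [Field Ω] {w : Ω → ℝ} (hw : NAbs w) {r : ℝ}
    (hr : 0 < r) {P Q : Polynomial Ω} (hP : SepGood w r P) (hQ : SepGood w r Q) :
    SepGood w r (P * Q) := by
  obtain ⟨i₀, hi₀⟩ := hP
  obtain ⟨j₀, hj₀⟩ := hQ
  have hnnP : ∀ i, 0 ≤ w (P.coeff i) * r ^ i := fun i => mul_nonneg (hw.nonneg _) (pow_pos hr i).le
  have hnnQ : ∀ i, 0 ≤ w (Q.coeff i) * r ^ i := fun i => mul_nonneg (hw.nonneg _) (pow_pos hr i).le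
  have hposP : 0 < w (P.coeff i₀) * r ^ i₀ :=
    lt_of_le_of_lt (hnnP (i₀ + 1)) (hi₀ (i₀ + 1) (by omega))
  have hposQ : 0 < w (Q.coeff j₀) * r ^ j₀ :=
    lt_of_le_of_lt (hnnQ (j₀ + 1)) (hj₀ (j₀ + 1) (by omega))
  have hleQ : ∀ j, w (Q.coeff j) * r ^ j ≤ w (Q.coeff j₀) * r ^ j₀ := by
    intro j
    by_cases h : j = j₀
    · rw [h]
    · exact (hj₀ j h).le
  set M := w (P.coeff i₀) * r ^ i₀ * (w (Q.coeff j₀) * r ^ j₀) with hM
  have hMpos : 0 < M := mul_pos hposP hposQ
  have key : ∀ i j, ¬ (i = i₀ ∧ j = j₀) →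
      w (P.coeff i * Q.coeff j) * r ^ (i + j) < M := by
    intro i j hij
    have e : w (P.coeff i * Q.coeff j) * r ^ (i + j) =
        w (P.coeff i) * r ^ i * (w (Q.coeff j) * r ^ j) := by
      rw [hw.mul, pow_add]
      ring
    rw [e]
    by_cases hi : i = i₀
    · have hj : j ≠ j₀ := fun h => hij ⟨hi, h⟩
      rw [hi]
      exact mul_lt_mul_of_pos_left (hj₀ j hj) hposP
    · calc w (P.coeff i) * r ^ i * (w (Q.coeff j) * r ^ j)
          ≤ w (P.coeff i) * r ^ i * (w (Q.coeff j₀) * r ^ j₀) :=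
            mul_le_mul_of_nonneg_left (hleQ j) (hnnP i)
        _ < M := mul_lt_mul_of_pos_right (hi₀ i hi) hposQ
  have hmain : w ((P * Q).coeff (i₀ + j₀)) * r ^ (i₀ + j₀) = M := by
    rw [coeff_mul]
    have h1 := hw.sum_eq_of_dominated (s := Finset.HasAntidiagonal.antidiagonal (i₀ + j₀))
      (f := fun x => P.coeff x.1 * Q.coeff x.2) (i := (i₀, j₀))
      (Finset.HasAntidiagonal.mem_antidiagonal.2 rfl) (by
        rintro ⟨i, j⟩ hx hne
        have hx' := Finset.HasAntidiagonal.mem_antidiagonal.1 hx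
        have h2 := key i j (fun h => hne (Prod.ext h.1 h.2))
        have h3 : w (P.coeff i₀ * Q.coeff j₀) * r ^ (i₀ + j₀) = M := by
          rw [hw.mul, pow_add, hM]
          ring
        change i + j = i₀ + j₀ at hx'
        rw [hx', ← h3] at h2
        exact lt_of_mul_lt_mul_right h2 (pow_pos hr _).le)
    rw [h1, hw.mul, pow_add, hM]
    ring
  refine ⟨i₀ + j₀, fun n hn => ?_⟩
  rw [hmain, coeff_mul]
  rw [← lt_div_iff₀ (pow_pos hr n)]
  refine hw.sum_lt (div_pos hMpos (pow_pos hr n)) ?_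
  rintro ⟨i, j⟩ hx
  have hx' : i + j = n := Finset.HasAntidiagonal.mem_antidiagonal.1 hx
  rw [lt_div_iff₀ (pow_pos hr n), ← hx']
  exact key i j (fun h => hn (by rw [← hx', h.1, h.2]))

private lemma sep_good_prod {Ω : Type*} [Field Ω] {w : Ω → ℝ} (hw : NAbs w) {r : ℝ}
    (hr : 0 < r) (s : Multiset Ω) (hs : ∀ β ∈ s, w β ≠ r) :
    SepGood w r (s.map (X - C ·)).prod := by
  induction s using Multiset.induction_on with
  | empty =>
    rw [Multiset.map_zero, Multiset.prod_zero, ← C_1]
    exact sep_good_C hw one_ne_zero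
  | cons β s ih =>
    rw [Multiset.map_cons, Multiset.prod_cons]
    exact sep_good_mul hw hr (sep_good_X_sub_C hw hr (hs β (Multiset.mem_cons_self β s)))
      (ih fun γ hγ => hs γ (Multiset.mem_cons_of_mem hγ))

private lemma sep_root {F E Ω : Type*} [Field F] [Field E] [Field Ω] [Algebra F E]
    [Algebra F Ω] {w : Ω → ℝ} {u : E → ℝ} (hw : NAbs w) (hu : NAbs u) {p : F[X]}
    (h : ∀ i, u (algebraMap F E (p.coeff i)) = w (algebraMap F Ω (p.coeff i))) (hp : p ≠ 0)
    (hs : (p.map (algebraMap F Ω)).Splits) {x : E} (hx : aeval x p = 0) :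
    ∃ β ∈ p.aroots Ω, w β = u x := by
  by_cases hx0 : x = 0
  · subst hx0
    refine ⟨0, ?_, by rw [hw.zero, hu.zero]⟩
    rw [mem_aroots]
    refine ⟨hp, ?_⟩
    rw [← coeff_zero_eq_aeval_zero'] at hx ⊢
    rw [(map_eq_zero _).1 hx, map_zero]
  · have hr : 0 < u x := hu.pos hx0
    by_contra hcon
    push Not at hcon
    have hpm : p.map (algebraMap F Ω) ≠ 0 := by
      rwa [Ne, Polynomial.map_eq_zero]
    have hgood : SepGood w (u x) (p.map (algebraMap F Ω)) := by
      rw [hs.eq_prod_roots]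
      exact sep_good_mul hw hr (sep_good_C hw (leadingCoeff_ne_zero.2 hpm))
        (sep_good_prod hw hr _ hcon)
    obtain ⟨i₀, hi₀⟩ := hgood
    have hterm : ∀ i, u (p.coeff i • x ^ i) =
        w ((p.map (algebraMap F Ω)).coeff i) * u x ^ i := by
      intro i
      rw [Algebra.smul_def, hu.mul, h, hu.pow, coeff_map]
    have hpos : 0 < w ((p.map (algebraMap F Ω)).coeff i₀) * u x ^ i₀ :=
      lt_of_le_of_lt (mul_nonneg (hw.nonneg _) (pow_pos hr _).le) (hi₀ (i₀ + 1) (by omega))
    have hi₀mem : i₀ ∈ Finset.range (p.natDegree + 1) := by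
      rw [Finset.mem_range]
      by_contra hlt
      have h1 : p.coeff i₀ = 0 := coeff_eq_zero_of_natDegree_lt (by omega)
      rw [coeff_map, h1, map_zero, hw.zero, zero_mul] at hpos
      exact lt_irrefl _ hpos
    have h2 := hu.sum_eq_of_dominated (f := fun i => p.coeff i • x ^ i) hi₀mem (by
      intro j _ hj
      rw [hterm, hterm]
      exact hi₀ j hj)
    rw [← aeval_eq_sum_range, hx, hu.zero, hterm] at h2
    exact hpos.ne h2

/-- Two families of absolute values which agree almost everywhere on every element of `K` are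
conjugate (almost everywhere on every element of `L`). Proof: copy `embed_root` of `DAE/X/Embed`
with the hypothesis only for the coefficients of `p` (it is used only for them): for `x : L`,
`p = minpoly K x`, the set of `i` with `v i (p.coeff j) = v' i (p.coeff j)` for all `j ≤ natDegree`
is in `U`, so for almost all `i` there is `s` with `v i (s x) = v' i x`; `s` is constant almost
everywhere (`Ultrafilter.eventually_exists_mem_iff`, or `eventually_exists_iff`, the Galois group is
finite). Then as in `embed_cover`: the subgroups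
`H s = {x : Lˣ | ∀ᶠ i in U, v i (s x) = v' i x}` cover `Lˣ`, one of them has finite index
(`Subgroup.exists_finiteIndex_of_leftCoset_cover`), and `v i (s x) ^ n = v' i x ^ n` almost
everywhere gives `v i (s x) = v' i x` almost everywhere. -/
theorem exists_conj_ae {K L I : Type*} [Field K] [Field L] [Algebra K L]
    [FiniteDimensional K L] [Normal K L] (U : Ultrafilter I) {v v' : I → L → ℝ}
    (hv : ∀ i, NAbs (v i)) (hv' : ∀ i, NAbs (v' i))
    (h : ∀ x : K, ∀ᶠ i in (U : Filter I), v i (algebraMap K L x) = v' i (algebraMap K L x)) :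
    ∃ s : L ≃ₐ[K] L, ∀ x, ∀ᶠ i in (U : Filter I), v i (s x) = v' i x := by
  classical
  have : Fintype (L ≃ₐ[K] L) := Fintype.ofFinite _
  have key : ∀ x : L, ∃ s : L ≃ₐ[K] L, ∀ᶠ i in (U : Filter I), v i (s x) = v' i x := by
    intro x
    have hint : IsIntegral K x := Algebra.IsIntegral.isIntegral x
    rw [← Ultrafilter.eventually_exists_iff]
    have h1 : ∀ᶠ i in (U : Filter I), ∀ j ∈ Finset.range ((minpoly K x).natDegree + 1),
        v i (algebraMap K L ((minpoly K x).coeff j)) =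
          v' i (algebraMap K L ((minpoly K x).coeff j)) :=
      (Filter.eventually_all_finset _).2 fun j _ => h _
    filter_upwards [h1] with i hi
    have h2 : ∀ j, v' i (algebraMap K L ((minpoly K x).coeff j)) =
        v i (algebraMap K L ((minpoly K x).coeff j)) := by
      intro j
      by_cases hj : j ∈ Finset.range ((minpoly K x).natDegree + 1)
      · exact (hi j hj).symm
      · rw [Finset.mem_range, not_lt] at hj
        rw [coeff_eq_zero_of_natDegree_lt (by omega), map_zero, (hv i).zero, (hv' i).zero]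
    obtain ⟨β, hβ, hβu⟩ := sep_root (hv i) (hv' i) h2 (minpoly.ne_zero hint)
      (Normal.splits inferInstance x) (minpoly.aeval K x)
    obtain ⟨σ, hσ⟩ := minpoly.exists_algEquiv_of_root' (K := K) (L := L) hint.isAlgebraic
      (mem_aroots.1 hβ).2
    refine ⟨σ, ?_⟩
    rw [← hβu, ← hσ]
  let A : (L ≃ₐ[K] L) → Subgroup Lˣ := fun s =>
    { carrier := {x | ∀ᶠ i in (U : Filter I), v i (s x) = v' i x}
      mul_mem' := by
        intro x y hx hy
        change ∀ᶠ i in (U : Filter I), v i (s ((x * y : Lˣ) : L)) = v' i ((x * y : Lˣ) : L)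
        have hx' : ∀ᶠ i in (U : Filter I), v i (s x) = v' i x := hx
        have hy' : ∀ᶠ i in (U : Filter I), v i (s y) = v' i y := hy
        filter_upwards [hx', hy'] with i h1 h2
        rw [Units.val_mul, map_mul, (hv i).mul, (hv' i).mul, h1, h2]
      one_mem' := by
        change ∀ᶠ i in (U : Filter I), v i (s ((1 : Lˣ) : L)) = v' i ((1 : Lˣ) : L)
        refine Filter.Eventually.of_forall fun i => ?_
        rw [Units.val_one, map_one, (hv i).one, (hv' i).one]
      inv_mem' := by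
        intro x hx
        change ∀ᶠ i in (U : Filter I), v i (s ((x⁻¹ : Lˣ) : L)) = v' i ((x⁻¹ : Lˣ) : L)
        have hx' : ∀ᶠ i in (U : Filter I), v i (s x) = v' i x := hx
        filter_upwards [hx'] with i h1
        rw [Units.val_inv_eq_inv_val, map_inv₀, (hv i).inv, (hv' i).inv, h1] }
  have hcov : ⋃ i ∈ (Finset.univ : Finset (L ≃ₐ[K] L)), (1 : Lˣ) • (A i : Set Lˣ) =
      Set.univ := by
    rw [Set.eq_univ_iff_forall]
    intro x
    obtain ⟨s, hs⟩ := key x
    rw [Set.mem_iUnion₂]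
    refine ⟨s, Finset.mem_univ s, ?_⟩
    rw [one_smul]
    exact hs
  obtain ⟨s, -, hs⟩ := Subgroup.exists_finiteIndex_of_leftCoset_cover hcov
  refine ⟨s, fun x => ?_⟩
  by_cases hx : x = 0
  · refine Filter.Eventually.of_forall fun i => ?_
    rw [hx, map_zero, (hv i).zero, (hv' i).zero]
  · have h1 : (Units.mk0 x hx) ^ (A s).index ∈ A s := Subgroup.pow_index_mem (A s) _
    have h2 : ∀ᶠ i in (U : Filter I), v i (s (((Units.mk0 x hx) ^ (A s).index : Lˣ) : L)) =
        v' i (((Units.mk0 x hx) ^ (A s).index : Lˣ) : L) := h1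
    filter_upwards [h2] with i h3
    rw [Units.val_pow_eq_pow_val, Units.val_mk0, map_pow, (hv i).pow, (hv' i).pow] at h3
    exact (pow_left_inj₀ ((hv i).nonneg _) ((hv' i).nonneg x) hs.index_ne_zero).1 h3

end Pool.Agent.DAE
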