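import Pool.Agent.DAE.S.SepDefs

/-!
# Block S, part (c): top forms of polynomials in `g`
-/

set_option autoImplicit false

namespace Pool.Agent.DAE

open MvPolynomial

variable {F L : Type*} [Field F] [Field L] [Algebra ℂ F] [Algebra ℂ L] [Algebra F L]
  [IsScalarTower ℂ F L] {d : ℕ} {g : Fin d → F} {v v' : L → ℝ}

omit [Algebra ℂ L] [IsScalarTower ℂ F L] in
private lemma SepTop_wpos [Algebra ℂ L] (hv : InX g v) (hg : ∀ i, g i ≠ 0) (i : Fin d) :
    0 < v (algebraMap F L (g i)) :=
  hv.nabs.pos ((map_ne_zero (algebraMap F L)).2 (hg i))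

omit [Algebra ℂ L] [IsScalarTower ℂ F L] in
private lemma SepTop_mono [Algebra ℂ L] (hv : InX g v) {P : MvPolynomial (Fin d) ℂ}
    {m : Fin d →₀ ℕ} (hm : m ∈ P.support) :
    wt (fun i => v (algebraMap F L (g i))) m ≤ v (algebraMap F L (aeval g P)) :=
  hv.mono P m hm

private lemma SepTop_aeval (g : Fin d → F) (P : MvPolynomial (Fin d) ℂ) :
    aeval (fun i => algebraMap F L (g i)) P = algebraMap F L (aeval g P) :=
  MvPolynomial.aeval_algebraMap_apply L g P

/-- a nonzero polynomial in `g` has a positive value (`mono`, a monomial has a positive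
weight) -/
theorem InX.pos (hv : InX g v) (hg : ∀ i, g i ≠ 0) {P : MvPolynomial (Fin d) ℂ} (hP : P ≠ 0) :
    0 < v (algebraMap F L (aeval g P)) := by
  obtain ⟨m, hm⟩ := MvPolynomial.support_nonempty.2 hP
  exact (wt_pos (SepTop_wpos hv hg) m).trans_le (SepTop_mono hv hm)

/-- The top form: `γ = v (P(g))`. All monomials have weight at most `γ` (`mono`), `P₀` is
`cmp w γ P`; the monomials of `P - P₀` have weight less than `γ`, so `v (P(g) - P₀(g)) < γ`
(`CAbs.aeval_lt` for the family `fun i => algebraMap F L (g i)`; the map `algebraMap F L` commutes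
with `aeval`, `MvPolynomial.aeval_algebraMap_apply`), and `v (P₀(g)) = γ` (`NAbs.sub_eq_left`). -/
theorem InX.exists_top (hv : InX g v) (hg : ∀ i, g i ≠ 0) {P : MvPolynomial (Fin d) ℂ}
    (hP : P ≠ 0) :
    ∃ P₀ : MvPolynomial (Fin d) ℂ, P₀ ≠ 0 ∧
      IsHomW (fun i => v (algebraMap F L (g i))) (v (algebraMap F L (aeval g P))) P₀ ∧
      v (algebraMap F L (aeval g P₀)) = v (algebraMap F L (aeval g P)) ∧
      v (algebraMap F L (aeval g P) - algebraMap F L (aeval g P₀)) <
        v (algebraMap F L (aeval g P)) := by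
  have hpos := hv.pos hg hP
  obtain ⟨γ, hγ⟩ : ∃ γ, v (algebraMap F L (aeval g P)) = γ := ⟨_, rfl⟩
  have hmono : ∀ m ∈ P.support, wt (fun i => v (algebraMap F L (g i))) m ≤ γ := fun m hm =>
    hγ ▸ SepTop_mono hv hm
  rw [hγ] at hpos ⊢
  have hlt : v (algebraMap F L (aeval g P) - algebraMap F L (aeval g
      (cmp (fun i => v (algebraMap F L (g i))) γ P))) < γ := by
    rw [← SepTop_aeval, ← SepTop_aeval, ← map_sub]
    refine hv.cabs.aeval_lt _ hpos fun m hm => ?_
    rw [mem_support_iff, coeff_sub, coeff_cmp] at hm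
    split_ifs at hm with h1
    · exact absurd (sub_self _) hm
    · rw [sub_zero] at hm
      exact lt_of_le_of_ne (hmono m (mem_support_iff.2 hm)) h1
  have heq : v (algebraMap F L (aeval g (cmp (fun i => v (algebraMap F L (g i))) γ P))) = γ := by
    have h1 := hv.nabs.sub_eq_left (x := algebraMap F L (aeval g P))
      (y := algebraMap F L (aeval g P) - algebraMap F L (aeval g
        (cmp (fun i => v (algebraMap F L (g i))) γ P))) (by rw [hγ]; exact hlt)
    rw [sub_sub_cancel, hγ] at h1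
    exact h1
  refine ⟨cmp (fun i => v (algebraMap F L (g i))) γ P, ?_, isHomW_cmp _ _ _, heq, hlt⟩
  intro h0
  rw [h0, map_zero, map_zero, hv.nabs.zero] at heq
  exact hpos.ne heq

/-- An element near to an element of `F` is near to a quotient of homogeneous polynomials:
`v f = v c`, `f = P₁(g) / Q₁(g)`, `P`, `Q` the top forms, `β = v (Q₁(g)) = v (Q(g))`,
`v (P₁(g)) = v c * β`, and
`c Q(g) - P(g) = (c - f) Q(g) + f (Q(g) - Q₁(g)) + (P₁(g) - P(g))`. -/
theorem InX.exists_frac (hv : InX g v) (hg : ∀ i, g i ≠ 0) (hF : Gen g) {c : L} (hc : c ≠ 0)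
    {f : F} (hf : v (c - algebraMap F L f) < v c) :
    ∃ (P Q : MvPolynomial (Fin d) ℂ) (β : ℝ), 0 < β ∧
      IsHomW (fun i => v (algebraMap F L (g i))) (v c * β) P ∧
      IsHomW (fun i => v (algebraMap F L (g i))) β Q ∧
      v (algebraMap F L (aeval g Q)) = β ∧
      v (c * algebraMap F L (aeval g Q) - algebraMap F L (aeval g P)) < v c * β := by
  have hvf : v (algebraMap F L f) = v c := by
    have h1 := hv.nabs.sub_eq_left hf
    rwa [sub_sub_cancel] at h1
  have hvc : 0 < v c := hv.nabs.pos hc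
  have hf0 : f ≠ 0 := by
    rintro rfl
    rw [map_zero, hv.nabs.zero] at hvf
    exact hvc.ne hvf
  obtain ⟨P₁, Q₁, hQ₁, rfl⟩ := hF f
  have hP₁ : aeval g P₁ ≠ 0 := fun h => hf0 (by rw [h, zero_div])
  have hP0 : P₁ ≠ 0 := fun h => hP₁ (by rw [h, map_zero])
  have hQ0 : Q₁ ≠ 0 := fun h => hQ₁ (by rw [h, map_zero])
  obtain ⟨P, -, hP, hP', hP''⟩ := hv.exists_top hg hP0
  obtain ⟨Q, -, hQ, hQ', hQ''⟩ := hv.exists_top hg hQ0
  have hβ := hv.pos hg hQ0
  have hPv : v (algebraMap F L (aeval g P₁)) = v c * v (algebraMap F L (aeval g Q₁)) := by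
    rw [← hvf, ← hv.nabs.mul, ← map_mul, div_mul_cancel₀ _ hQ₁]
  refine ⟨P, Q, v (algebraMap F L (aeval g Q₁)), hβ, hPv ▸ hP, hQ, hQ', ?_⟩
  have hsplit : c * algebraMap F L (aeval g Q) - algebraMap F L (aeval g P) =
      ((c - algebraMap F L (aeval g P₁ / aeval g Q₁)) * algebraMap F L (aeval g Q) +
        algebraMap F L (aeval g P₁ / aeval g Q₁) *
          (algebraMap F L (aeval g Q) - algebraMap F L (aeval g Q₁))) +
        (algebraMap F L (aeval g P₁) - algebraMap F L (aeval g P)) := by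
    have h1 : algebraMap F L (aeval g P₁ / aeval g Q₁) * algebraMap F L (aeval g Q₁) =
        algebraMap F L (aeval g P₁) := by
      rw [← map_mul, div_mul_cancel₀ _ hQ₁]
    linear_combination h1
  rw [hsplit]
  refine (hv.nabs.add _ _).trans_lt (max_lt ((hv.nabs.add _ _).trans_lt (max_lt ?_ ?_)) ?_)
  · rw [hv.nabs.mul, hQ']
    exact mul_lt_mul_of_pos_right hf hβ
  · rw [hv.nabs.mul, hvf, hv.nabs.sub_comm]
    exact mul_lt_mul_of_pos_left hQ'' hvc
  · rw [← hPv]
    exact hP''

/-- Two points of `X` with the same values at the `g i` agree on `F`. Proof: for a nonzero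
polynomial `P` the value `v (P(g))` is the maximum of the weights of the monomials (`mono` and
`CAbs.aeval_le`), so `v = v'` on `ℂ[g]`, and `Gen g` with `NAbs.div`. -/
theorem InX.eq_base (hv : InX g v) (hv' : InX g v') (hF : Gen g)
    (h : ∀ i, v (algebraMap F L (g i)) = v' (algebraMap F L (g i))) (x : F) :
    v (algebraMap F L x) = v' (algebraMap F L x) := by
  have key : ∀ {u u' : L → ℝ}, InX g u → InX g u' →
      (∀ i, u (algebraMap F L (g i)) = u' (algebraMap F L (g i))) → ∀ P : MvPolynomial (Fin d) ℂ,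
        u (algebraMap F L (aeval g P)) ≤ u' (algebraMap F L (aeval g P)) := by
    intro u u' hu hu' he P
    rw [← SepTop_aeval]
    refine hu.cabs.aeval_le _ (hu'.nabs.nonneg _) fun m hm => ?_
    rw [SepTop_aeval]
    refine le_trans (le_of_eq ?_) (SepTop_mono hu' hm)
    exact congrArg (fun w => wt w m) (funext he)
  have hall : ∀ P : MvPolynomial (Fin d) ℂ,
      v (algebraMap F L (aeval g P)) = v' (algebraMap F L (aeval g P)) := fun P =>
    le_antisymm (key hv hv' h P) (key hv' hv (fun i => (h i).symm) P)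
  obtain ⟨P, Q, -, rfl⟩ := hF x
  rw [map_div₀, hv.nabs.div, hv'.nabs.div, hall, hall]

end Pool.Agent.DAE
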