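import Pool.Agent.DAE.S.GIntg

/-!
# Block S, package d3: the spectral norm is convex in the weights

PROOF. `n = card (L ≃ₐ[F] L) ≥ 1`, `p = ∏_s (X - C (s z)) = X^n + ∑_{j ≥ 1} c_j X^(n-j)`,
`c_j = B_j(g)` by `exists_coeff`. `J = {j : 1 ≤ j ≤ n, B_j ≠ 0}`; `J ≠ ∅` because `p(z) = 0` and
`z ≠ 0`
(by `hi`, `c_j = 0 ↔ B_j = 0`). Put `c w = max over j ∈ J and m ∈ B_j.support of (1/j) * ∑_i m i
* w i`: a
finite maximum of linear functions, convex (`ConvexOn.sup` by induction, or directly with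
`Finset.sup'`).
Let `v` be over `w` with `v (s z) ≤ v z` for all `s`. `v (B_j(g)) = max_m exp (∑ m i w i)`
(`InX.exists_mono_eq`, `Over.eq_exp`). (≤) `z^n = - ∑ c_j z^(n-j)`, so `v(z)^n ≤ v(c_j)
v(z)^(n-j)` for some
`j ∈ J`, `v(z)^j ≤ v(c_j)`, `log v z ≤ c w`. (≥) `v(c_j) ≤ v(z)^j`: by induction over finite
sets `S` of
automorphisms, `v (coeff k of ∏_{s ∈ S} (X - C (s z))) ≤ v(z)^(|S|-k)` for `k ≤ |S|`.
-/

set_option autoImplicit false

namespace Pool.Agent.DAE

variable {F L : Type*} [Field F] [Field L] [Algebra ℂ F] [Algebra ℂ L] [Algebra F L]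
  [IsScalarTower ℂ F L] {d : ℕ} {g : Fin d → F}

open Polynomial in
omit [Algebra ℂ F] [Algebra ℂ L] [IsScalarTower ℂ F L] in
/-- the coefficients of a product of conjugates -/
private lemma spec_coeff_le {v : L → ℝ} (hv : NAbs v) {z : L}
    (hz : ∀ s : L ≃ₐ[F] L, v (s z) ≤ v z) (S : Finset (L ≃ₐ[F] L)) (k : ℕ) :
    v ((∏ s ∈ S, (X - C (s z))).coeff k) * v z ^ k ≤ v z ^ S.card := by
  classical
  have h0 : 0 ≤ v z := hv.nonneg z
  induction S using Finset.induction_on generalizing k with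
  | empty =>
    rw [Finset.prod_empty, Finset.card_empty, pow_zero, coeff_one]
    split_ifs with h
    · rw [hv.one, h, pow_zero, mul_one]
    · rw [hv.zero, zero_mul]
      exact zero_le_one
  | insert a S ha ih =>
    rw [Finset.prod_insert ha, Finset.card_insert_of_notMem ha, sub_mul, coeff_sub, coeff_C_mul]
    have h2 : v (a z * (∏ s ∈ S, (X - C (s z))).coeff k) * v z ^ k ≤ v z ^ (S.card + 1) := by
      rw [hv.mul, pow_succ']
      calc _ = v (a z) * (v ((∏ s ∈ S, (X - C (s z))).coeff k) * v z ^ k) := by ring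
        _ ≤ v z * v z ^ S.card := mul_le_mul (hz a) (ih k)
          (mul_nonneg (hv.nonneg _) (pow_nonneg h0 _)) h0
    have h1 : v ((X * ∏ s ∈ S, (X - C (s z))).coeff k) * v z ^ k ≤ v z ^ (S.card + 1) := by
      cases k with
      | zero =>
        rw [coeff_X_mul_zero, hv.zero, zero_mul]
        exact pow_nonneg h0 _
      | succ k =>
        rw [coeff_X_mul, pow_succ, pow_succ, ← mul_assoc]
        exact mul_le_mul_of_nonneg_right (ih k) h0
    have h3 := hv.sub ((X * ∏ s ∈ S, (X - C (s z))).coeff k)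
      (a z * (∏ s ∈ S, (X - C (s z))).coeff k)
    calc _ ≤ max (v ((X * ∏ s ∈ S, (X - C (s z))).coeff k))
          (v (a z * (∏ s ∈ S, (X - C (s z))).coeff k)) * v z ^ k :=
          mul_le_mul_of_nonneg_right h3 (pow_nonneg h0 _)
      _ ≤ v z ^ (S.card + 1) := by
        rcases max_choice (v ((X * ∏ s ∈ S, (X - C (s z))).coeff k))
          (v (a z * (∏ s ∈ S, (X - C (s z))).coeff k)) with h | h <;> rw [h] <;> assumption

private lemma spec_log {w : Fin d → ℝ} (m : Fin d →₀ ℕ) :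
    ∏ i, Real.exp (w i) ^ m i = Real.exp (∑ i, (m i : ℝ) * w i) := by
  rw [Real.exp_sum]
  refine Finset.prod_congr rfl fun i _ => ?_
  rw [Real.exp_nat_mul]

theorem exists_spectral [FiniteDimensional F L] [IsGalois F L] (hi : AlgebraicIndependent ℂ g)
    (hF : Gen g) {z : L} (hz : z ≠ 0) (hint : GInt g z) :
    ∃ c : (Fin d → ℝ) → ℝ, ConvexOn ℝ Set.univ c ∧
      ∀ w (v : L → ℝ), Over g w v → (∀ s : L ≃ₐ[F] L, v (s z) ≤ v z) → Real.log (v z) = c w := by
  classical
  choose B hB using exists_coeff (L := L) hi hF hint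
  obtain ⟨n, hn⟩ : ∃ n, n = Fintype.card (L ≃ₐ[F] L) := ⟨_, rfl⟩
  obtain ⟨p, hp⟩ : ∃ p : Polynomial L,
      p = ∏ s : L ≃ₐ[F] L, (Polynomial.X - Polynomial.C (s z)) := ⟨_, rfl⟩
  have hB' : ∀ k, p.coeff k = algebraMap F L (MvPolynomial.aeval g (B k)) := fun k => by
    rw [hp]
    exact hB k
  have hg : ∀ i, g i ≠ 0 := fun i => hi.ne_zero i
  have hpm : p.Monic := by
    rw [hp]
    exact Polynomial.monic_prod_of_monic _ _ fun s _ => Polynomial.monic_X_sub_C _
  have hpd : p.natDegree = n := by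
    rw [hp, Polynomial.natDegree_prod_of_monic _ _ fun s _ => Polynomial.monic_X_sub_C _]
    simp [hn]
  have hpz : p.eval z = 0 := by
    rw [hp, Polynomial.eval_prod]
    refine Finset.prod_eq_zero (Finset.mem_univ (1 : L ≃ₐ[F] L)) ?_
    simp
  have hsum : z ^ n = - ∑ k ∈ Finset.range n, p.coeff k * z ^ k := by
    rw [Polynomial.eval_eq_sum_range, hpd, Finset.sum_range_succ] at hpz
    have h1 : p.coeff n = 1 := by
      rw [← hpd]
      exact hpm.coeff_natDegree
    rw [h1, one_mul] at hpz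
    linear_combination hpz
  -- the index set
  obtain ⟨I, hI⟩ : ∃ I : Finset (Σ _ : ℕ, (Fin d →₀ ℕ)),
      I = (Finset.range n).sigma fun k => (B k).support := ⟨_, rfl⟩
  have hIne : I.Nonempty := by
    by_contra hcon
    rw [Finset.not_nonempty_iff_eq_empty] at hcon
    have h1 : ∀ k ∈ Finset.range n, p.coeff k * z ^ k = 0 := by
      intro k hk
      have h2 : B k = 0 := by
        by_contra h3
        obtain ⟨m, hm⟩ := MvPolynomial.support_nonempty.2 h3
        have h4 : (⟨k, m⟩ : Σ _ : ℕ, (Fin d →₀ ℕ)) ∈ I := by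
          rw [hI]
          exact Finset.mem_sigma.2 ⟨hk, hm⟩
        rw [hcon] at h4
        exact absurd h4 (Finset.notMem_empty _)
      rw [hB', h2, map_zero, map_zero, zero_mul]
    rw [Finset.sum_eq_zero h1, neg_zero] at hsum
    exact pow_ne_zero n hz hsum
  refine ⟨I.sup' hIne fun q w => ((n - q.1 : ℕ) : ℝ)⁻¹ * ∑ i, (q.2 i : ℝ) * w i, ?_, ?_⟩
  · refine Finset.sup'_induction hIne _ (fun a ha b hb => ha.sup hb) fun q _ => ?_
    refine ⟨convex_univ, fun x _ y _ a b ha hb hab => le_of_eq ?_⟩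
    simp only [Pi.add_apply, Pi.smul_apply, smul_eq_mul, mul_add, Finset.sum_add_distrib,
      Finset.mul_sum]
    congr 1 <;> exact Finset.sum_congr rfl fun i _ => by ring
  · intro w v hvw hs
    have hv := hvw.inX.nabs
    have hvz : 0 < v z := hv.pos hz
    have hexp : ∀ m : Fin d →₀ ℕ, ∏ i, v (algebraMap F L (g i)) ^ m i =
        Real.exp (∑ i, (m i : ℝ) * w i) := by
      intro m
      rw [← spec_log]
      exact Finset.prod_congr rfl fun i _ => by rw [hvw.eq_exp hg i]
    rw [Finset.sup'_apply]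
    refine le_antisymm ?_ ?_
    · -- upper bound
      have hex : ∃ k ∈ Finset.range n, v z ^ n ≤ v (p.coeff k * z ^ k) := by
        by_contra hcon
        push Not at hcon
        have h1 := hv.sum_lt (pow_pos hvz n) hcon
        rw [← hv.neg, ← hsum, hv.pow] at h1
        exact lt_irrefl _ h1
      obtain ⟨k, hk, hkv⟩ := hex
      have hkn : k < n := Finset.mem_range.1 hk
      have h1 : v z ^ (n - k) ≤ v (p.coeff k) := by
        rw [hv.mul, hv.pow] at hkv
        have h2 : v z ^ n = v z ^ (n - k) * v z ^ k := by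
          rw [← pow_add, Nat.sub_add_cancel hkn.le]
        rw [h2] at hkv
        exact le_of_mul_le_mul_right hkv (pow_pos hvz k)
      have hBk : B k ≠ 0 := by
        intro h0
        rw [hB', h0, map_zero, map_zero, hv.zero] at h1
        exact absurd (pow_pos hvz (n - k)) (not_lt.2 h1)
      obtain ⟨m, hm, hme, -⟩ := hvw.inX.exists_mono_eq hBk
      rw [hB', hme, hexp] at h1
      have h2 := Real.log_le_log (pow_pos hvz _) h1
      rw [Real.log_exp, Real.log_pow] at h2
      have h3 : (0 : ℝ) < ((n - k : ℕ) : ℝ) := by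
        exact_mod_cast Nat.sub_pos_of_lt hkn
      have hq : (⟨k, m⟩ : Σ _ : ℕ, (Fin d →₀ ℕ)) ∈ I := by
        rw [hI]
        exact Finset.mem_sigma.2 ⟨hk, hm⟩
      refine le_trans ?_ (Finset.le_sup' (fun q : (Σ _ : ℕ, (Fin d →₀ ℕ)) =>
        ((n - q.1 : ℕ) : ℝ)⁻¹ * ∑ i, (q.2 i : ℝ) * w i) hq)
      rw [le_inv_mul_iff₀ h3]
      exact h2
    · -- lower bound
      refine Finset.sup'_le _ _ fun q hq => ?_
      rw [hI, Finset.mem_sigma, Finset.mem_range] at hq
      have h3 : (0 : ℝ) < ((n - q.1 : ℕ) : ℝ) := by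
        exact_mod_cast Nat.sub_pos_of_lt hq.1
      have h1 := spec_coeff_le hv hs Finset.univ q.1
      rw [← hp, Finset.card_univ, ← hn] at h1
      have h2 : v z ^ n = v z ^ (n - q.1) * v z ^ q.1 := by
        rw [← pow_add, Nat.sub_add_cancel hq.1.le]
      rw [h2] at h1
      have h4 := le_of_mul_le_mul_right h1 (pow_pos hvz q.1)
      rw [hB'] at h4
      have h5 := (hvw.inX.mono (B q.1) q.2 hq.2).trans h4
      rw [hexp] at h5
      have h6 := Real.log_le_log (Real.exp_pos _) h5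
      rw [Real.log_exp, Real.log_pow] at h6
      rw [inv_mul_le_iff₀ h3]
      exact h6

end Pool.Agent.DAE
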