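import Pool.Agent.DAE.R.FrameD
import Pool.Agent.DAE.S.Lin

/-!
# Block S, package d8: the tower `F = ℂ(g) ⊂ K = ℂ(x) ⊂ L`
-/

set_option autoImplicit false

namespace Pool.Agent.DAE

open MvPolynomial Pool.Agent.H17Dyn

variable {d : ℕ}

/-- the `g i` as elements of `ℂ(g)` -/
noncomputable def gF (g : Fin d → Poly d) (i : Fin d) : FF g :=
  ⟨ι (g i), IntermediateField.subset_adjoin ℂ _ ⟨i, rfl⟩⟩

lemma coe_aeval_gF (g : Fin d → Poly d) (P : Poly d) :
    ((aeval (gF g) P : FF g) : KK d) = ι (aeval g P) := by
  have h1 : ((aeval (gF g) P : FF g) : KK d) = aeval (fun i => (ι (g i) : KK d)) P :=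
    (MvPolynomial.aeval_algebraMap_apply (KK d) (gF g) P).symm
  rw [h1]
  exact MvPolynomial.aeval_algebraMap_apply (KK d) g P

theorem algInd_gF {g : Fin d → Poly d} (hfr : Frame g) : AlgebraicIndependent ℂ (gF g) := by
  rw [algebraicIndependent_iff]
  intro P hP
  by_contra hne
  have h1 := coe_aeval_gF g P
  rw [hP] at h1
  exact hfr.aeval_ne_zero hne (ι_inj (by rw [map_zero, ← h1]; rfl))

theorem gen_gF (g : Fin d → Poly d) : Gen (gF g) := by
  intro f
  obtain ⟨P, Q, h⟩ := mem_FF.1 f.2
  by_cases hQ : aeval (gF g) Q = 0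
  · refine ⟨0, 1, by simp, ?_⟩
    rw [map_zero, zero_div]
    apply Subtype.ext
    rw [h, ← coe_aeval_gF, ← coe_aeval_gF, hQ]
    simp
  · refine ⟨P, Q, hQ, ?_⟩
    apply Subtype.ext
    rw [h, ← coe_aeval_gF, ← coe_aeval_gF]
    rfl

theorem finDim {g : Fin d → Poly d} (hfr : Frame g) : FiniteDimensional (FF g) (KK d) := by
  have halg := hfr.isAlgebraic
  have hfin : FiniteDimensional (FF g)
      (IntermediateField.adjoin (FF g) (Set.range fun i : Fin d => (ι (X i) : KK d))) :=
    IntermediateField.finiteDimensional_adjoin fun x _ =>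
      (halg.isAlgebraic x).isIntegral
  have htop : IntermediateField.adjoin (FF g) (Set.range fun i : Fin d => (ι (X i) : KK d)) = ⊤ := by
    rw [eq_top_iff]
    intro x _
    obtain ⟨a, b, -, rfl⟩ := IsFractionRing.div_surjective (A := Poly d) x
    have hmem : ∀ P : Poly d, (algebraMap (Poly d) (KK d) P) ∈
        IntermediateField.adjoin (FF g) (Set.range fun i : Fin d => (ι (X i) : KK d)) := by
      intro P
      induction P using MvPolynomial.induction_on with
      | C c =>
        exact (IntermediateField.adjoin (FF g)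
          (Set.range fun i : Fin d => (ι (X i) : KK d))).algebraMap_mem (algebraMap ℂ (FF g) c)
      | add p q hp hq =>
        rw [map_add]
        exact add_mem hp hq
      | mul_X p i hp =>
        rw [map_mul]
        exact mul_mem hp (IntermediateField.subset_adjoin _ _ ⟨i, rfl⟩)
    exact div_mem (hmem a) (hmem b)
  rw [htop] at hfin
  exact (IntermediateField.topEquiv (F := FF g) (E := KK d)).toLinearEquiv.finiteDimensional

theorem exists_L {g : Fin d → Poly d} (hfr : Frame g) :
    ∃ (L : Type) (_ : Field L) (_ : Algebra ℂ L) (_ : Algebra (FF g) L) (_ : Algebra (KK d) L),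
      IsScalarTower ℂ (FF g) L ∧ IsScalarTower (FF g) (KK d) L ∧ IsScalarTower ℂ (KK d) L ∧
        FiniteDimensional (FF g) L ∧ IsGalois (FF g) L := by
  have hfin := finDim hfr
  have halg : Algebra.IsAlgebraic (FF g) (AlgebraicClosure (KK d)) :=
    Algebra.IsAlgebraic.trans (FF g) (KK d) (AlgebraicClosure (KK d))
  have hN : Normal (FF g) (AlgebraicClosure (KK d)) := by
    have : IsAlgClosure (FF g) (AlgebraicClosure (KK d)) := ⟨inferInstance, halg⟩
    exact IsAlgClosure.normal (FF g) (AlgebraicClosure (KK d))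
  let N := IntermediateField.normalClosure (FF g) (KK d) (AlgebraicClosure (KK d))
  have hsc : IsScalarTower (FF g) (KK d) N := inferInstance
  have h1 : IsScalarTower ℂ (FF g) N := inferInstance
  have h2 : IsScalarTower ℂ (KK d) N := by
    refine IsScalarTower.of_algebraMap_eq fun c => ?_
    rw [IsScalarTower.algebraMap_apply ℂ (FF g) N, IsScalarTower.algebraMap_apply (FF g) (KK d) N]
    rfl
  have h3 : FiniteDimensional (FF g) N :=
    normalClosure.is_finiteDimensional (FF g) (KK d) (AlgebraicClosure (KK d))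
  have h4 : Normal (FF g) N := normalClosure.normal (FF g) (KK d) (AlgebraicClosure (KK d))
  have h5 : Algebra.IsSeparable (FF g) N := inferInstance
  exact ⟨N, inferInstance, inferInstance, inferInstance, inferInstance, h1, hsc, h2, h3, ⟨⟩⟩

end Pool.Agent.DAE
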